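import Mathlib
set_option autoImplicit false
open Set
open scoped ComplexConjugate

namespace Pool.Agent.H798R2.SE

theorem le_zero_of_forall {A B : ℝ} (h : ∀ t : ℝ, 0 < t → A * t + B ≤ 0) : B ≤ 0 := by
  by_contra hB
  push Not at hB
  have h1 := h (B / (2 * (|A| + 1))) (by positivity)
  have h2 : -|A| ≤ A := neg_abs_le A
  have h3 : 0 ≤ |A| := abs_nonneg A
  have h4 : |A| * (B / (2 * (|A| + 1))) ≤ B / 2 := by
    rw [mul_div_assoc', div_le_div_iff₀ (by positivity) (by norm_num)]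
    nlinarith
  have h5 : -|A| * (B / (2 * (|A| + 1))) ≤ A * (B / (2 * (|A| + 1))) :=
    mul_le_mul_of_nonneg_right h2 (by positivity)
  linarith

/-- the local quadratic form -/
noncomputable def Phi (gp gm dp dm : ℂ) (l : ℝ) (α β : ℂ) : ℝ :=
  ‖α‖ ^ 2 * (gp.re * l ^ 2 + gm.re) + ‖β‖ ^ 2 * (dp.re + dm.re * l ^ 2) +
    l * (Complex.I * α * conj β * ((gp + conj dp) - (gm + conj dm))).re

theorem alg_back (gp gm dp dm : ℂ) (c : ℝ) (hc : 0 < c)
    (h : ∀ l : ℝ, 0 < l → ∀ α β : ℂ, c * (‖α‖ ^ 2 + ‖β‖ ^ 2) * (l ^ 2 + 1) ≤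
      Phi gp gm dp dm l α β) :
    ∀ μ ν : ℝ, 0 ≤ μ → μ ≤ 1 → 0 ≤ ν → ν ≤ 1 →
      (gp * dm * (μ : ℂ) + gm * dp * (1 - (μ : ℂ))) * (ν : ℂ) + dp * dm * (1 - (ν : ℂ)) ≠ 0 := by
  have hdp : c ≤ dp.re := by
    have : c - dp.re ≤ 0 := by
      apply le_zero_of_forall (A := c - dm.re)
      intro t ht
      have := h (Real.sqrt t) (Real.sqrt_pos.2 ht) 0 1
      simp only [Phi, Real.sq_sqrt ht.le] at this
      simp at this
      linarith
    linarith
  have hdm : c ≤ dm.re := by
    have : c - dm.re ≤ 0 := by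
      apply le_zero_of_forall (A := c - dp.re)
      intro t ht
      have := h (Real.sqrt t⁻¹) (Real.sqrt_pos.2 (inv_pos.2 ht)) 0 1
      simp only [Phi, Real.sq_sqrt (inv_pos.2 ht).le] at this
      simp at this
      have h2 := mul_le_mul_of_nonneg_right this ht.le
      have h4 : c * (t⁻¹ + 1) * t = c + c * t := by field_simp
      have h5 : (dp.re + dm.re * t⁻¹) * t = dp.re * t + dm.re := by field_simp
      rw [h4, h5] at h2
      linarith
    linarith
  have hgm : c ≤ gm.re := by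
    have : c - gm.re ≤ 0 := by
      apply le_zero_of_forall (A := c - gp.re)
      intro t ht
      have := h (Real.sqrt t) (Real.sqrt_pos.2 ht) 1 0
      simp only [Phi, Real.sq_sqrt ht.le] at this
      simp at this
      linarith
    linarith
  have hgp : c ≤ gp.re := by
    have : c - gp.re ≤ 0 := by
      apply le_zero_of_forall (A := c - gm.re)
      intro t ht
      have := h (Real.sqrt t⁻¹) (Real.sqrt_pos.2 (inv_pos.2 ht)) 1 0
      simp only [Phi, Real.sq_sqrt (inv_pos.2 ht).le] at this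
      simp at this
      have h2 := mul_le_mul_of_nonneg_right this ht.le
      have h4 : c * (t⁻¹ + 1) * t = c + c * t := by field_simp
      have h5 : (gp.re * t⁻¹ + gm.re) * t = gp.re + gm.re * t := by field_simp
      rw [h4, h5] at h2
      linarith
    linarith
  intro μ ν hμ0 hμ1 hν0 hν1 hE
  have hdp0 : dp ≠ 0 := by intro h0; rw [h0] at hdp; simp at hdp; linarith
  have hdm0 : dm ≠ 0 := by intro h0; rw [h0] at hdm; simp at hdm; linarith
  set gp' : ℂ := ν * gp + (1 - ν) * dp with hgp'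
  set gm' : ℂ := ν * gm + (1 - ν) * dm with hgm'
  have hgpr : c ≤ gp'.re := by
    have : gp'.re = ν * gp.re + (1 - ν) * dp.re := by rw [hgp']; simp
    rw [this]; nlinarith
  have hgmr : c ≤ gm'.re := by
    have : gm'.re = ν * gm.re + (1 - ν) * dm.re := by rw [hgm']; simp
    rw [this]; nlinarith
  have hgp0 : gp' ≠ 0 := by intro h0; rw [h0] at hgpr; simp at hgpr; linarith
  have hgm0 : gm' ≠ 0 := by intro h0; rw [h0] at hgmr; simp at hgmr; linarith
  have hE' : gp' * dm * μ + gm' * dp * (1 - μ) = 0 := by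
    rw [← hE, hgp', hgm']; ring
  have hμ0' : μ ≠ 0 := by
    rintro rfl
    simp at hE'
    tauto
  have hμ1' : μ ≠ 1 := by
    rintro rfl
    simp at hE'
    tauto
  have hμp : 0 < μ := lt_of_le_of_ne hμ0 (Ne.symm hμ0')
  have hμq : 0 < 1 - μ := by
    have := lt_of_le_of_ne hμ1 hμ1'
    linarith
  set l : ℝ := Real.sqrt (μ / (1 - μ)) with hl
  have hlpos : 0 < l := Real.sqrt_pos.2 (by positivity)
  have hl2 : l ^ 2 * (1 - μ) = μ := by
    rw [hl, Real.sq_sqrt (by positivity)]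
    field_simp
  set β : ℂ := -Complex.I * gp' * l / dp with hβ
  have e1 : gp' * l = Complex.I * β * dp := by
    rw [hβ]
    field_simp
    rw [Complex.I_sq]; ring
  have e2 : gm' = -Complex.I * β * dm * l := by
    have h1 : gm' * dp = -gp' * dm * l ^ 2 := by
      have h3 : ((1 - μ : ℝ) : ℂ) ≠ 0 := by exact_mod_cast hμq.ne'
      apply mul_right_cancel₀ h3
      have h4 : ((l : ℂ)) ^ 2 * ((1 - μ : ℝ) : ℂ) = μ := by exact_mod_cast hl2
      push_cast at h4 ⊢
      linear_combination hE' + gp' * dm * h4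
    apply mul_right_cancel₀ hdp0
    rw [h1]
    have : -Complex.I * β * dm * l * dp = -(Complex.I * β * dp) * dm * l := by ring
    rw [this, ← e1]; ring
  -- the form vanishes for `gp'`
  have hPhi0 : Phi gp' gm' dp dm l 1 β = 0 := by
    have r1 := congrArg Complex.re e1
    have i1 := congrArg Complex.im e1
    have r2 := congrArg Complex.re e2
    have i2 := congrArg Complex.im e2
    simp at r1 i1 r2 i2
    have hn : ‖β‖ ^ 2 = β.re ^ 2 + β.im ^ 2 := by rw [Complex.sq_norm, Complex.normSq_apply]; ring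
    simp only [Phi, hn]
    simp
    rw [r2, i2]
    linear_combination (l + β.im) * r1 - β.re * i1
  have hPhid : 0 ≤ Phi dp dm dp dm l 1 β := by
    have hn : ‖β‖ ^ 2 = β.re ^ 2 + β.im ^ 2 := by rw [Complex.sq_norm, Complex.normSq_apply]; ring
    have : Phi dp dm dp dm l 1 β = dp.re * (β.re ^ 2 + (l + β.im) ^ 2) +
        dm.re * ((l * β.re) ^ 2 + (1 - l * β.im) ^ 2) := by
      simp only [Phi, hn]
      simp
      ring
    rw [this]
    have h1 : 0 ≤ dp.re := by linarith
    have h2 : 0 ≤ dm.re := by linarith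
    positivity
  have hlin : Phi gp' gm' dp dm l 1 β = ν * Phi gp gm dp dm l 1 β + (1 - ν) * Phi dp dm dp dm l 1 β := by
    have hr1 : gp'.re = ν * gp.re + (1 - ν) * dp.re := by rw [hgp']; simp
    have hr2 : gm'.re = ν * gm.re + (1 - ν) * dm.re := by rw [hgm']; simp
    have hr3 : gp'.im = ν * gp.im + (1 - ν) * dp.im := by rw [hgp']; simp
    have hr4 : gm'.im = ν * gm.im + (1 - ν) * dm.im := by rw [hgm']; simp
    simp only [Phi]
    simp
    rw [hr1, hr2, hr3, hr4]
    ring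
  have hpos : 0 < Phi gp gm dp dm l 1 β := by
    refine lt_of_lt_of_le ?_ (h l hlpos 1 β)
    simp
    positivity
  rw [hPhi0] at hlin
  rcases hν0.eq_or_lt with h0 | h0
  · rw [← h0] at hE
    simp at hE
    tauto
  · have : 0 < ν * Phi gp gm dp dm l 1 β := mul_pos h0 hpos
    have : 0 ≤ (1 - ν) * Phi dp dm dp dm l 1 β := mul_nonneg (by linarith) hPhid
    linarith

/-- separation -/
theorem alg_sep (cp cm dp dm : ℂ)
    (h : ∀ μ ν : ℝ, 0 ≤ μ → μ ≤ 1 → 0 ≤ ν → ν ≤ 1 →
      (cp * dm * (μ : ℂ) + cm * dp * (1 - (μ : ℂ))) * (ν : ℂ) + dp * dm * (1 - (ν : ℂ)) ≠ 0) :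
    ∃ ω : ℂ, 0 < ω.re ∧ 0 < (ω * (cp * conj dp)).re ∧ 0 < (ω * (cm * conj dm)).re := by
  have h00 := h 0 0 le_rfl zero_le_one le_rfl zero_le_one
  simp at h00
  obtain ⟨hdp, hdm⟩ := h00
  set zp := cp / dp with hzp
  set zm := cm / dm with hzm
  have hconv : (0 : ℂ) ∉ convexHull ℝ ({1, zp, zm} : Set ℂ) := by
    rw [convexHull_insert (by simp)]
    rw [convexHull_pair]
    simp only [mem_convexJoin, mem_singleton_iff, exists_eq_left]
    rintro ⟨y, hy, h0⟩
    rw [segment_eq_image] at hy h0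
    obtain ⟨t, ⟨ht0, ht1⟩, rfl⟩ := hy
    obtain ⟨s, ⟨hs0, hs1⟩, h0⟩ := h0
    apply h (1 - t) s (by linarith) (by linarith) hs0 hs1
    simp only [Complex.real_smul] at h0
    have e1 : cp = zp * dp := by rw [hzp]; field_simp
    have e2 : cm = zm * dm := by rw [hzm]; field_simp
    rw [e1, e2]
    push_cast at h0 ⊢
    linear_combination (dp * dm) * h0
  obtain ⟨f, u, hf0, hf⟩ := geometric_hahn_banach_point_closed (convex_convexHull ℝ _)
    ((Set.toFinite ({1, zp, zm} : Set ℂ)).isCompact_convexHull (𝕜 := ℝ)).isClosed hconv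
  rw [map_zero] at hf0
  have hrep : ∀ z : ℂ, f z = ((⟨f 1, -f Complex.I⟩ : ℂ) * z).re := by
    intro z
    have : z = z.re • (1 : ℂ) + z.im • Complex.I := by
      apply Complex.ext <;> simp
    conv_lhs => rw [this]
    rw [map_add, map_smul, map_smul]
    simp
    ring
  refine ⟨⟨f 1, -f Complex.I⟩, ?_, ?_, ?_⟩
  · have := hf 1 (subset_convexHull ℝ _ (by simp))
    show 0 < f 1
    linarith
  · have h1 := hf zp (subset_convexHull ℝ _ (by simp))
    have h2 : 0 < ((⟨f 1, -f Complex.I⟩ : ℂ) * zp).re := by rw [← hrep]; linarith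
    have e1 : cp * conj dp = zp * ((Complex.normSq dp : ℝ) : ℂ) := by
      rw [← Complex.mul_conj, hzp]; field_simp
    rw [e1, ← mul_assoc, Complex.re_mul_ofReal]
    exact mul_pos h2 (Complex.normSq_pos.2 hdp)
  · have h1 := hf zm (subset_convexHull ℝ _ (by simp))
    have h2 : 0 < ((⟨f 1, -f Complex.I⟩ : ℂ) * zm).re := by rw [← hrep]; linarith
    have e1 : cm * conj dm = zm * ((Complex.normSq dm : ℝ) : ℂ) := by
      rw [← Complex.mul_conj, hzm]; field_simp
    rw [e1, ← mul_assoc, Complex.re_mul_ofReal]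
    exact mul_pos h2 (Complex.normSq_pos.2 hdm)

end Pool.Agent.H798R2.SE
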