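import Mathlib
set_option autoImplicit false
open MeasureTheory Filter Topology Set
open scoped ComplexConjugate

namespace Pool.Agent.H798R2.SE

abbrev TT : Type := AddCircle (1:ℝ)
noncomputable abbrev hm : Measure TT := AddCircle.haarAddCircle (T := (1:ℝ))
abbrev L2 : Type := Lp ℂ 2 (AddCircle.haarAddCircle (T := (1:ℝ)))

/-- `M` is the operator of multiplication by `φ`. -/
def IsMul (M : L2 →L[ℂ] L2) (φ : TT → ℂ) : Prop :=
  ∀ f : L2, (M f : TT → ℂ) =ᵐ[hm] fun x => φ x * f x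

theorem exists_isMul (φ : TT → ℂ) (hφ : AEStronglyMeasurable φ hm) (C : ℝ)
    (hC : ∀ x, ‖φ x‖ ≤ C) : ∃ M : L2 →L[ℂ] L2, IsMul M φ ∧ ‖M‖ ≤ C := by
  have hC0 : 0 ≤ C := (norm_nonneg _).trans (hC 0)
  have hmem : ∀ f : L2, MemLp (fun x => φ x * f x) 2 hm := by
    intro f
    refine MemLp.of_le_mul (c := C) (Lp.memLp f) (hφ.mul (Lp.aestronglyMeasurable f)) ?_
    refine Eventually.of_forall fun x => ?_
    rw [norm_mul]
    gcongr
    exact hC x
  let L : L2 →ₗ[ℂ] L2 :=
    { toFun := fun f => (hmem f).toLp _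
      map_add' := by
        intro f g
        rw [← MemLp.toLp_add]
        apply MemLp.toLp_congr
        filter_upwards [Lp.coeFn_add f g] with x hx
        rw [hx]
        simp [mul_add]
      map_smul' := by
        intro c f
        rw [RingHom.id_apply, ← MemLp.toLp_const_smul]
        apply MemLp.toLp_congr
        filter_upwards [Lp.coeFn_smul c f] with x hx
        rw [hx]
        simp
        ring }
  have hb : ∀ f : L2, ‖L f‖ ≤ C * ‖f‖ := by
    intro f
    apply Lp.norm_le_mul_norm_of_ae_le_mul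
    filter_upwards [(hmem f).coeFn_toLp] with x hx
    show ‖((hmem f).toLp _ : TT → ℂ) x‖ ≤ _
    rw [hx, norm_mul]
    gcongr
    exact hC x
  refine ⟨L.mkContinuous C hb, fun f => (hmem f).coeFn_toLp, L.mkContinuous_norm_le hC0 hb⟩

theorem IsMul.unique {M N : L2 →L[ℂ] L2} {φ : TT → ℂ} (h1 : IsMul M φ) (h2 : IsMul N φ) :
    M = N := by
  ext f
  filter_upwards [h1 f, h2 f] with x hx hy
  rw [hx, hy]

theorem IsMul.congr {M : L2 →L[ℂ] L2} {φ ψ : TT → ℂ} (h1 : IsMul M φ) (h : φ =ᵐ[hm] ψ) :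
    IsMul M ψ := by
  intro f
  filter_upwards [h1 f, h] with x hx hy
  rw [hx, hy]

theorem IsMul.comp {M N : L2 →L[ℂ] L2} {φ ψ : TT → ℂ} (h1 : IsMul M φ) (h2 : IsMul N ψ) :
    IsMul (M.comp N) (fun x => φ x * ψ x) := by
  intro f
  filter_upwards [h1 (N f), h2 f] with x hx hy
  rw [ContinuousLinearMap.comp_apply, hx, hy]
  ring

theorem IsMul.add {M N : L2 →L[ℂ] L2} {φ ψ : TT → ℂ} (h1 : IsMul M φ) (h2 : IsMul N ψ) :
    IsMul (M + N) (fun x => φ x + ψ x) := by
  intro f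
  filter_upwards [h1 f, h2 f, Lp.coeFn_add (M f) (N f)] with x hx hy hz
  rw [_root_.add_apply, hz, Pi.add_apply, hx, hy]
  ring

theorem IsMul.sub {M N : L2 →L[ℂ] L2} {φ ψ : TT → ℂ} (h1 : IsMul M φ) (h2 : IsMul N ψ) :
    IsMul (M - N) (fun x => φ x - ψ x) := by
  intro f
  filter_upwards [h1 f, h2 f, Lp.coeFn_sub (M f) (N f)] with x hx hy hz
  rw [_root_.sub_apply, hz, Pi.sub_apply, hx, hy]
  ring

theorem isMul_id : IsMul (ContinuousLinearMap.id ℂ L2) (fun _ => 1) := by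
  intro f
  simp

/-- adjoint of a multiplication operator -/
theorem IsMul.adjoint {M N : L2 →L[ℂ] L2} {φ : TT → ℂ} (h1 : IsMul M φ)
    (h2 : IsMul N (fun x => conj (φ x))) : ContinuousLinearMap.adjoint M = N := by
  symm
  rw [ContinuousLinearMap.eq_adjoint_iff]
  intro f g
  rw [L2.inner_def, L2.inner_def]
  apply integral_congr_ae
  filter_upwards [h1 g, h2 f] with x hx hy
  rw [hx, hy]
  simp only [RCLike.inner_apply, map_mul, Complex.conj_conj]
  ring

theorem ext_basis {A B : L2 →L[ℂ] L2}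
    (h : ∀ n : ℤ, A (fourierLp (T := (1:ℝ)) 2 n) = B (fourierLp (T := (1:ℝ)) 2 n)) : A = B := by
  ext1 f
  have hf := hasSum_fourier_series_L2 f
  have h1 := hf.mapL A
  have h2 := hf.mapL B
  refine h1.unique ?_
  convert h2 using 2 with n
  rw [map_smul, map_smul, h]

/-- the Cauchy singular integral operator -/
def IsS (S : L2 →L[ℂ] L2) : Prop :=
  ∀ n : ℤ, S (fourierLp (T := (1:ℝ)) 2 n) =
        (if 0 ≤ n then (1:ℂ) else -1) • fourierLp (T := (1:ℝ)) 2 n

theorem IsS.sq {S : L2 →L[ℂ] L2} (hS : IsS S) : S.comp S = ContinuousLinearMap.id ℂ L2 := by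
  apply ext_basis
  intro n
  rw [ContinuousLinearMap.comp_apply, hS n, map_smul, hS n, smul_smul]
  split_ifs <;> simp

theorem IsS.sq_apply {S : L2 →L[ℂ] L2} (hS : IsS S) (f : L2) : S (S f) = f := by
  have := congrArg (fun A : L2 →L[ℂ] L2 => A f) hS.sq
  simpa using this

theorem inner_fourier (m n : ℤ) :
    inner ℂ (fourierLp (T := (1:ℝ)) 2 m) (fourierLp (T := (1:ℝ)) 2 n) = if m = n then (1:ℂ) else 0 := by
  have h := orthonormal_fourier (T := (1:ℝ))
  rw [orthonormal_iff_ite] at h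
  exact h m n

theorem ext_inner_fourier {f g : L2}
    (h : ∀ n : ℤ, inner ℂ (fourierLp (T := (1:ℝ)) 2 n) f = inner ℂ (fourierLp (T := (1:ℝ)) 2 n) g) :
    f = g := by
  have h1 : fourierBasis.repr f = fourierBasis.repr g := by
    ext n
    rw [HilbertBasis.repr_apply_apply, HilbertBasis.repr_apply_apply, coe_fourierBasis]
    exact h n
  exact fourierBasis.repr.injective h1

theorem IsS.adjoint {S : L2 →L[ℂ] L2} (hS : IsS S) : ContinuousLinearMap.adjoint S = S := by
  apply ext_basis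
  intro n
  apply ext_inner_fourier
  intro m
  rw [ContinuousLinearMap.adjoint_inner_right, hS m, hS n, inner_smul_left, inner_smul_right,
    inner_fourier]
  by_cases h : m = n
  · subst h
    split_ifs <;> simp
  · rw [if_neg h]
    simp

theorem IsS.of_pos {S : L2 →L[ℂ] L2} (hS : IsS S) {f : L2}
    (hf : ∀ n : ℤ, n < 0 → fourierCoeff f n = 0) : S f = f := by
  have h0 := hasSum_fourier_series_L2 f
  have h1 := h0.mapL S
  refine h1.unique ?_
  convert h0 using 2 with n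
  rw [map_smul, hS n]
  by_cases hn : 0 ≤ n
  · rw [if_pos hn, one_smul]
  · rw [hf n (by omega), zero_smul, zero_smul]

theorem IsS.of_neg {S : L2 →L[ℂ] L2} (hS : IsS S) {f : L2}
    (hf : ∀ n : ℤ, 0 ≤ n → fourierCoeff f n = 0) : S f = -f := by
  have h0 := hasSum_fourier_series_L2 f
  have h1 := h0.mapL S
  refine h1.unique ?_
  convert h0.neg using 2 with n
  rw [map_smul, hS n]
  by_cases hn : 0 ≤ n
  · rw [hf n hn, zero_smul, zero_smul, neg_zero]
  · rw [if_neg hn]; simp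

theorem norm_pq {S : L2 →L[ℂ] L2} (hS : IsS S) (f : L2) : ‖S f‖ = ‖f‖ := by
  have h1 : inner ℂ (S f) (S f) = inner ℂ f f := by
    rw [← ContinuousLinearMap.adjoint_inner_right, hS.adjoint, hS.sq_apply]
  have h2 : ‖S f‖ ^ 2 = ‖f‖ ^ 2 := by
    have e1 := inner_self_eq_norm_sq_to_K (𝕜 := ℂ) (S f)
    have e2 := inner_self_eq_norm_sq_to_K (𝕜 := ℂ) f
    rw [e1, e2] at h1
    exact_mod_cast h1
  exact (sq_eq_sq₀ (norm_nonneg _) (norm_nonneg _)).1 h2

end Pool.Agent.H798R2.SE
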