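import Pool.Agent.H798R2.SE.Fwd
set_option autoImplicit false
open MeasureTheory Filter Topology Set
open scoped ComplexConjugate

namespace Pool.Agent.H798R2.SE

theorem weak_of_basis {v : ℕ → L2} {B : ℝ} (hB : ∀ n, ‖v n‖ ≤ B)
    (h : ∀ m : ℤ, Tendsto (fun n => inner ℂ (fourierLp (T := (1:ℝ)) 2 m) (v n)) atTop (𝓝 0))
    (y : L2) : Tendsto (fun n => inner ℂ y (v n)) atTop (𝓝 0) := by
  have hspan : ∀ z ∈ Submodule.span ℂ (range (fourierLp (T := (1:ℝ)) 2)),
      Tendsto (fun n => inner ℂ z (v n)) atTop (𝓝 0) := by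
    intro z hz
    induction hz using Submodule.span_induction with
    | mem x hx =>
      obtain ⟨m, rfl⟩ := hx
      exact h m
    | zero => simp
    | add x z _ _ hx hz =>
      have := hx.add hz
      simpa [inner_add_left] using this
    | smul c x _ hx =>
      have := hx.const_mul (conj c)
      simpa [inner_smul_left] using this
  have hB0 : 0 ≤ B := (norm_nonneg _).trans (hB 0)
  have hy : y ∈ closure (Submodule.span ℂ (range (fourierLp (T := (1:ℝ)) 2)) : Set L2) := by
    have h1 := span_fourierLp_closure_eq_top (T := (1:ℝ)) (p := 2) (by norm_num)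
    have h2 : y ∈ (Submodule.span ℂ (range (fourierLp (T := (1:ℝ)) 2))).topologicalClosure := by
      rw [h1]; exact Submodule.mem_top
    exact h2
  rw [Metric.tendsto_nhds]
  intro ε hε
  obtain ⟨z, hz, hyz⟩ := Metric.mem_closure_iff.1 hy (ε / (2 * (B + 1))) (by positivity)
  filter_upwards [(Metric.tendsto_nhds.1 (hspan z hz)) (ε / 2) (half_pos hε)] with n hn
  rw [dist_zero_right] at hn ⊢
  have e : inner ℂ y (v n) = inner ℂ (y - z) (v n) + inner ℂ z (v n) := by
    rw [← inner_add_left, sub_add_cancel]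
  rw [e]
  have h1 : ‖inner ℂ (y - z) (v n)‖ ≤ ε / 2 := by
    calc ‖inner ℂ (y - z) (v n)‖ ≤ ‖y - z‖ * ‖v n‖ := norm_inner_le_norm _ _
      _ ≤ ε / (2 * (B + 1)) * B := by
        gcongr
        · rw [← dist_eq_norm]; exact hyz.le
        · exact hB n
      _ ≤ ε / 2 := by
        rw [div_mul_eq_mul_div, div_le_div_iff₀ (by positivity) (by norm_num)]
        nlinarith
  calc ‖inner ℂ (y - z) (v n) + inner ℂ z (v n)‖ ≤ _ := norm_add_le _ _
    _ < ε / 2 + ε / 2 := add_lt_add_of_le_of_lt h1 hn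
    _ = ε := by ring

theorem compact_weak {K : L2 →L[ℂ] L2} (hK : IsCompactOperator K) {v : ℕ → L2} {B : ℝ}
    (hB : ∀ n, ‖v n‖ ≤ B) (h : ∀ y, Tendsto (fun n => inner ℂ y (v n)) atTop (𝓝 0)) :
    Tendsto (fun n => (inner ℂ (K (v n)) (v n)).re) atTop (𝓝 0) := by
  have hK0 : Tendsto (fun n => K (v n)) atTop (𝓝 0) := by
    apply tendsto_of_subseq_tendsto
    intro ns hns
    have hc : IsCompact (closure (K '' Metric.closedBall 0 B)) :=
      hK.isCompact_closure_image_closedBall B
    obtain ⟨y, _, φ, hφ, hy⟩ := hc.tendsto_subseq (x := fun n => K (v (ns n)))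
      (fun n => subset_closure ⟨v (ns n), by simpa using hB (ns n), rfl⟩)
    refine ⟨φ, ?_⟩
    have h1 : Tendsto (fun n => inner ℂ y (K (v (ns (φ n))))) atTop (𝓝 (inner ℂ y y)) :=
      tendsto_const_nhds.inner hy
    have h2 : Tendsto (fun n => inner ℂ y (K (v (ns (φ n))))) atTop (𝓝 0) := by
      have h3 := (h (ContinuousLinearMap.adjoint K y)).comp (hns.comp hφ.tendsto_atTop)
      refine h3.congr fun n => ?_
      simp only [Function.comp_apply]
      rw [ContinuousLinearMap.adjoint_inner_left]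
    have h4 := tendsto_nhds_unique h1 h2
    rw [inner_self_eq_zero] at h4
    rw [h4] at hy
    exact hy
  have h1 : Tendsto (fun n => ‖K (v n)‖ * B) atTop (𝓝 0) := by
    simpa using hK0.norm.mul_const B
  refine squeeze_zero_norm (fun n => ?_) h1
  calc ‖(inner ℂ (K (v n)) (v n)).re‖ ≤ ‖inner ℂ (K (v n)) (v n)‖ := Complex.abs_re_le_norm _
    _ ≤ ‖K (v n)‖ * ‖v n‖ := norm_inner_le_norm _ _
    _ ≤ ‖K (v n)‖ * B := by gcongr; exact hB n

end Pool.Agent.H798R2.SE
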