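import Pool.Agent.H798R2.SE.Lim2
import Pool.Agent.H798R2.SE.Wk
set_option autoImplicit false
open MeasureTheory Filter Topology Set
open scoped ComplexConjugate

namespace Pool.Agent.H798R2.SE

theorem norm_ww_le (x : TT) : ‖ww x‖ ≤ 2 := by
  unfold ww
  refine (norm_sub_le _ _).trans ?_
  rw [norm_fourier1, norm_one]
  norm_num

theorem norm_FF_le' (ξ : ℝ) (n : ℕ) {s : ℂ} (hs : s.re = -1/2 + kap n) (hi : |s.im| = |ξ|) {x : TT}
    (hx : ww x ≠ 0) : ‖FF s x‖ ≤ 2 * Real.exp (Real.pi * |ξ|) * kT (1/4) x := by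
  refine (norm_FF_le s hx).trans ?_
  rw [hi]
  have h0 : 0 < ‖ww x‖ := norm_pos_iff.2 hx
  have h1 : ‖ww x‖ ^ s.re ≤ 2 * kT (1/4) x := by
    unfold kT
    rw [hs, Real.rpow_add h0]
    have e : (-1 + 2 * (1/4) : ℝ) = -1/2 := by norm_num
    rw [e, mul_comm]
    have h2 : ‖ww x‖ ^ kap n ≤ 2 := by
      calc ‖ww x‖ ^ kap n ≤ 2 ^ kap n :=
            Real.rpow_le_rpow h0.le (norm_ww_le x) (kap_pos n).le
        _ ≤ 2 ^ (1:ℝ) := Real.rpow_le_rpow_of_exponent_le (by norm_num) (by have := kap_le n; linarith)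
        _ = 2 := Real.rpow_one _
    gcongr
  have hE : 0 ≤ Real.exp (Real.pi * |ξ|) := (Real.exp_pos _).le
  calc ‖ww x‖ ^ s.re * Real.exp (Real.pi * |ξ|) ≤ 2 * kT (1/4) x * Real.exp (Real.pi * |ξ|) := by
        gcongr
    _ = _ := by ring

theorem norm_GG_eq (s : ℂ) (x : TT) : ‖GG s x‖ = ‖FF (conj s) x‖ := by
  unfold GG FF
  rw [norm_mul, norm_fourier1, one_mul, RCLike.norm_conj]

theorem pc_const (c : ℂ) : PC (fun _ => c) := PC.of_continuous continuous_const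

theorem rlim_const (c : ℂ) (x : ℝ) : rlim (fun _ => c) (x : TT) = c :=
  rlim_eq (pc_const c) tendsto_const_nhds

theorem llim_const (c : ℂ) (x : ℝ) : llim (fun _ => c) (x : TT) = c :=
  llim_eq (pc_const c) tendsto_const_nhds

theorem test_seq {S : L2 →L[ℂ] L2} (hS : IsS S) (x : ℝ) {l : ℝ} (hl : 0 < l) (α β : ℂ) :
    ∃ v : ℕ → L2,
      (∀ K : L2 →L[ℂ] L2, IsCompactOperator K →
        Tendsto (fun n => (inner ℂ (K (v n)) (v n)).re) atTop (𝓝 0)) ∧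
      Tendsto (fun n => ‖v n‖ ^ 2) atTop (𝓝 (l⁻¹ * ((‖α‖ ^ 2 + ‖β‖ ^ 2) * (l ^ 2 + 1)))) ∧
      ∀ γ δ : TT → ℂ, PC γ → PC δ → ∀ X : L2 →L[ℂ] L2,
        (∀ F G : L2, S F = F → S G = -G → (X (F + G) : TT → ℂ) =ᵐ[hm]
          fun z => γ z * F z + δ z * G z) →
        Tendsto (fun n => (inner ℂ (X (v n)) (v n)).re) atTop
          (𝓝 (l⁻¹ * Phi (rlim γ x) (llim γ x) (rlim δ x) (llim δ x) l α β)) := by
  set ξ := Real.log l / Real.pi with hξ
  have hl2 : Real.exp (Real.pi * ξ) = l := by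
    rw [hξ, mul_div_cancel₀ _ Real.pi_ne_zero, Real.exp_log hl]
  let Fn : ℕ → L2 := fun n => (FFt_memLp (ss_low ξ n) (ss_up ξ n) (x : TT)).toLp _
  let Gn : ℕ → L2 := fun n => (GGt_memLp (ss_low ξ n) (ss_up ξ n) (x : TT)).toLp _
  have hFn : ∀ n, (Fn n : TT → ℂ) =ᵐ[hm] fun z => FF (ss ξ n) (z - (x : TT)) := fun n =>
    (FFt_memLp (ss_low ξ n) (ss_up ξ n) (x : TT)).coeFn_toLp
  have hGn : ∀ n, (Gn n : TT → ℂ) =ᵐ[hm] fun z => GG (ss ξ n) (z - (x : TT)) := fun n =>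
    (GGt_memLp (ss_low ξ n) (ss_up ξ n) (x : TT)).coeFn_toLp
  have hSF : ∀ n, S (α • Fn n) = α • Fn n := fun n => by
    rw [map_smul]; congr 1; exact S_FFt hS (ss_low ξ n) (ss_up ξ n) _
  have hSG : ∀ n, S (β • Gn n) = -(β • Gn n) := fun n => by
    rw [map_smul, ← smul_neg]; congr 1; exact S_GGt hS (ss_low ξ n) (ss_up ξ n) _
  let u : ℕ → L2 := fun n => α • Fn n + β • Gn n
  have hu : ∀ n, (u n : TT → ℂ) =ᵐ[hm] fun z =>
      α * FF (ss ξ n) (z - (x : TT)) + β * GG (ss ξ n) (z - (x : TT)) := by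
    intro n
    filter_upwards [Lp.coeFn_add (α • Fn n) (β • Gn n), Lp.coeFn_smul α (Fn n),
      Lp.coeFn_smul β (Gn n), hFn n, hGn n] with z h1 h2 h3 h4 h5
    show ((α • Fn n + β • Gn n : L2) : TT → ℂ) z = _
    rw [h1, Pi.add_apply, h2, h3, Pi.smul_apply, Pi.smul_apply, h4, h5, smul_eq_mul, smul_eq_mul]
  set J : ℕ → ℝ := fun n => JJ (kap n) with hJ
  have hJpos : ∀ n, 0 < J n := fun n => JJ_pos (kap_pos n) (kap_le n)
  have hJinf : Tendsto J atTop atTop := JJ_tendsto (fun n => ⟨kap_pos n, kap_le n⟩) kap_tendsto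
  -- limit of the form
  have lim1 : ∀ γ δ : TT → ℂ, PC γ → PC δ → ∀ X : L2 →L[ℂ] L2,
        (∀ F G : L2, S F = F → S G = -G → (X (F + G) : TT → ℂ) =ᵐ[hm]
          fun z => γ z * F z + δ z * G z) →
      Tendsto (fun n => (J n)⁻¹ * (inner ℂ (X (u n)) (u n)).re) atTop
      (𝓝 (l⁻¹ * Phi (rlim γ x) (llim γ x) (rlim δ x) (llim δ x) l α β)) := by
    intro γ δ hγ hδ X hX
    have hXu : ∀ n, (X (u n) : TT → ℂ) =ᵐ[hm] fun z =>
        γ z * (α * FF (ss ξ n) (z - (x : TT))) + δ z * (β * GG (ss ξ n) (z - (x : TT))) := by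
      intro n
      filter_upwards [hX _ _ (hSF n) (hSG n), Lp.coeFn_smul α (Fn n),
        Lp.coeFn_smul β (Gn n), hFn n, hGn n] with z h1 h2 h3 h4 h5
      show (X (α • Fn n + β • Gn n) : TT → ℂ) z = _
      rw [h1, h2, h3, Pi.smul_apply, Pi.smul_apply, h4, h5, smul_eq_mul, smul_eq_mul]
    have h := lim_form hγ hδ ξ α β x
    rw [hl2] at h
    refine h.congr fun n => ?_
    congr 2
    rw [L2.inner_def]
    apply integral_congr_ae
    filter_upwards [hu n, hXu n] with z h1 h2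
    rw [h1, h2, RCLike.inner_apply, mul_comm]
  have lim2 : Tendsto (fun n => (J n)⁻¹ * ‖u n‖ ^ 2) atTop
      (𝓝 (l⁻¹ * ((‖α‖ ^ 2 + ‖β‖ ^ 2) * (l ^ 2 + 1)))) := by
    have h := lim_form (pc_const 1) (pc_const 1) ξ α β x
    rw [hl2, rlim_const, llim_const] at h
    have e : Phi 1 1 1 1 l α β = (‖α‖ ^ 2 + ‖β‖ ^ 2) * (l ^ 2 + 1) := by
      unfold Phi
      simp
      ring
    rw [e] at h
    refine h.congr fun n => ?_
    congr 1
    have : ‖u n‖ ^ 2 = (inner ℂ (u n) (u n)).re := by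
      rw [inner_self_eq_norm_sq_to_K]
      norm_cast
    rw [this, L2.inner_def]
    congr 1
    apply integral_congr_ae
    filter_upwards [hu n] with z h1
    rw [h1, RCLike.inner_apply, mul_comm]
    simp
  -- normalised sequence
  let v : ℕ → L2 := fun n => (((Real.sqrt (J n))⁻¹ : ℝ) : ℂ) • u n
  have hvn : ∀ n, ‖v n‖ ^ 2 = (J n)⁻¹ * ‖u n‖ ^ 2 := by
    intro n
    show ‖(((Real.sqrt (J n))⁻¹ : ℝ) : ℂ) • u n‖ ^ 2 = _
    rw [norm_smul, mul_pow, Complex.norm_real, norm_inv, inv_pow, Real.norm_eq_abs, sq_abs,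
      Real.sq_sqrt (hJpos n).le]
  have hvinner : ∀ (A : L2 →L[ℂ] L2) n, (inner ℂ (A (v n)) (v n)).re =
      (J n)⁻¹ * (inner ℂ (A (u n)) (u n)).re := by
    intro A n
    show (inner ℂ (A ((((Real.sqrt (J n))⁻¹ : ℝ) : ℂ) • u n))
      ((((Real.sqrt (J n))⁻¹ : ℝ) : ℂ) • u n)).re = _
    rw [map_smul, inner_smul_left, inner_smul_right, Complex.conj_ofReal, ← mul_assoc,
      ← Complex.ofReal_mul, Complex.re_ofReal_mul, ← mul_inv, Real.mul_self_sqrt (hJpos n).le]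
  obtain ⟨B2, hB2⟩ := lim2.bddAbove_range
  have hvB : ∀ n, ‖v n‖ ≤ Real.sqrt B2 := by
    intro n
    apply Real.le_sqrt_of_sq_le
    rw [hvn n]
    exact hB2 ⟨n, rfl⟩
  -- weak convergence
  have hk4 : Integrable (kT (1/4)) hm := kT_int (by norm_num) (by norm_num)
  have hk4x : Integrable (fun z => kT (1/4) (z - (x : TT))) hm :=
    hk4.comp_sub_right (x : TT)
  set C : ℝ := ∫ z, (‖α‖ + ‖β‖) * (2 * Real.exp (Real.pi * |ξ|) * kT (1/4) (z - (x : TT))) ∂hm with hC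
  have hweak0 : ∀ (m : ℤ) n, ‖inner ℂ (fourierLp (T := (1:ℝ)) 2 m) (u n)‖ ≤ C := by
    intro m n
    rw [L2.inner_def]
    refine norm_integral_le_of_norm_le ((hk4x.const_mul _).const_mul _) ?_
    filter_upwards [hu n, coeFn_fourierLp (T := (1:ℝ)) 2 m,
      (mp_sub (x : TT)).quasiMeasurePreserving.ae ae_ww_ne] with z h1 h2 h3
    rw [h1, h2, RCLike.inner_apply, norm_mul, RCLike.norm_conj, norm_fourier1, mul_one]
    have f1 := norm_FF_le' ξ n (s := ss ξ n) rfl rfl h3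
    have f2 : ‖GG (ss ξ n) (z - (x : TT))‖ ≤ 2 * Real.exp (Real.pi * |ξ|) * kT (1/4) (z - (x : TT)) := by
      rw [norm_GG_eq]
      refine norm_FF_le' ξ n ?_ ?_ h3
      · rw [Complex.conj_re]; rfl
      · rw [Complex.conj_im, abs_neg]; rfl
    calc _ ≤ ‖α * FF (ss ξ n) (z - (x : TT))‖ + ‖β * GG (ss ξ n) (z - (x : TT))‖ := norm_add_le _ _
      _ = ‖α‖ * ‖FF (ss ξ n) (z - (x : TT))‖ + ‖β‖ * ‖GG (ss ξ n) (z - (x : TT))‖ := by
        rw [norm_mul, norm_mul]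
      _ ≤ ‖α‖ * (2 * Real.exp (Real.pi * |ξ|) * kT (1/4) (z - (x : TT))) +
          ‖β‖ * (2 * Real.exp (Real.pi * |ξ|) * kT (1/4) (z - (x : TT))) := by gcongr
      _ = _ := by ring
  have hweak : ∀ y, Tendsto (fun n => inner ℂ y (v n)) atTop (𝓝 0) := by
    apply weak_of_basis hvB
    intro m
    have h1 : Tendsto (fun n => (Real.sqrt (J n))⁻¹ * C) atTop (𝓝 0) := by
      have h2 : Tendsto (fun n => Real.sqrt (J n)) atTop atTop := Real.tendsto_sqrt_atTop.comp hJinf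
      simpa using (tendsto_inv_atTop_zero.comp h2).mul_const C
    refine squeeze_zero_norm (fun n => ?_) h1
    show ‖inner ℂ (fourierLp (T := (1:ℝ)) 2 m) ((((Real.sqrt (J n))⁻¹ : ℝ) : ℂ) • u n)‖ ≤ _
    rw [inner_smul_right, norm_mul, Complex.norm_real, Real.norm_of_nonneg (by positivity)]
    gcongr
    exact hweak0 m n
  refine ⟨v, fun K hK => compact_weak hK hvB hweak, ?_, ?_⟩
  · exact lim2.congr fun n => (hvn n).symm
  · intro γ δ hγ hδ X hX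
    exact (lim1 γ δ hγ hδ X hX).congr fun n => (hvinner X n).symm

theorem bwd_form {γ δ : TT → ℂ} (hγ : PC γ) (hδ : PC δ) {S X : L2 →L[ℂ] L2} (hS : IsS S)
    (hX : ∀ F G : L2, S F = F → S G = -G → (X (F + G) : TT → ℂ) =ᵐ[hm]
      fun z => γ z * F z + δ z * G z) (hell : SEll X) (x : ℝ) :
    ∃ c : ℝ, 0 < c ∧ ∀ l : ℝ, 0 < l → ∀ α β : ℂ, c * (‖α‖ ^ 2 + ‖β‖ ^ 2) * (l ^ 2 + 1) ≤
      Phi (rlim γ x) (llim γ x) (rlim δ x) (llim δ x) l α β := by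
  obtain ⟨D, K, hD, hK, ⟨c, hc, hcD⟩, hDK⟩ := hell
  refine ⟨c, hc, fun l hl α β => ?_⟩
  obtain ⟨v, h1, h2, h3⟩ := test_seq hS x hl α β
  have hineq : ∀ n, c * ‖v n‖ ^ 2 ≤
      (inner ℂ (X (v n)) (v n)).re - (inner ℂ (K (v n)) (v n)).re := by
    intro n
    have h1 := hcD (v n)
    have h2 : D = (1/2 : ℂ) • (X + ContinuousLinearMap.adjoint X) - K := by
      rw [hDK]; abel
    rw [h2, _root_.sub_apply, inner_sub_left, Complex.sub_re, inner_re_adj] at h1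
    exact h1
  have hfin := le_of_tendsto_of_tendsto' (h2.const_mul c) ((h3 γ δ hγ hδ X hX).sub (h1 K hK)) hineq
  rw [sub_zero] at hfin
  have h3 := mul_le_mul_of_nonneg_left hfin hl.le
  have e1 : l * (c * (l⁻¹ * ((‖α‖ ^ 2 + ‖β‖ ^ 2) * (l ^ 2 + 1)))) =
      c * (‖α‖ ^ 2 + ‖β‖ ^ 2) * (l ^ 2 + 1) := by field_simp
  have e2 : l * (l⁻¹ * Phi (rlim γ x) (llim γ x) (rlim δ x) (llim δ x) l α β) =
      Phi (rlim γ x) (llim γ x) (rlim δ x) (llim δ x) l α β := by field_simp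
  rw [e1, e2] at h3
  exact h3

/-- one-sided limits of `Θ` are nonzero if `Θ Y` is strongly elliptic -/
theorem limits_ne {Θ : TT → ℂ} (hΘ : PC Θ) {S MΘ Y : L2 →L[ℂ] L2} (hS : IsS S)
    (hM : IsMul MΘ Θ) (hell : SEll (MΘ.comp Y)) (x : ℝ) : rlim Θ x ≠ 0 ∧ llim Θ x ≠ 0 := by
  obtain ⟨D, K, hD, hK, ⟨c, hc, hcD⟩, hDK⟩ := hell
  obtain ⟨C, hC0, hC⟩ := hΘ.bounded
  obtain ⟨N, hN, _⟩ := exists_isMul (fun z => conj (Θ z)) hΘ.conj.measurable.aestronglyMeasurable C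
    (fun z => by rw [RCLike.norm_conj]; exact hC z)
  have hadj : ContinuousLinearMap.adjoint MΘ = N := hM.adjoint hN
  have hMN : IsMul (MΘ.comp N) (fun z => Θ z * conj (Θ z)) := hM.comp hN
  have hPCn : PC (fun z => Θ z * conj (Θ z)) := hΘ.mul hΘ.conj
  set Q : ℝ := ‖Y‖ ^ 2 / (2 * c) with hQ
  have key : ∀ l : ℝ, 0 < l → c / 2 * (l ^ 2 + 1) ≤ Q * (‖rlim Θ x‖ ^ 2 * l ^ 2 + ‖llim Θ x‖ ^ 2) := by
    intro l hl
    obtain ⟨v, h1, h2, h3⟩ := test_seq hS x hl 1 0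
    have h4 := h3 _ _ hPCn hPCn (MΘ.comp N) (by
      intro F G _ _
      filter_upwards [hMN (F + G), Lp.coeFn_add F G] with z e1 e2
      rw [e1, e2, Pi.add_apply]; ring)
    have er : rlim (fun z => Θ z * conj (Θ z)) x = ((‖rlim Θ x‖ ^ 2 : ℝ) : ℂ) := by
      rw [rlim_eq hPCn ((hΘ.tendsto_r x).mul ((Complex.continuous_conj.tendsto _).comp
        (hΘ.tendsto_r x))), Complex.mul_conj, Complex.normSq_eq_norm_sq]
    have el : llim (fun z => Θ z * conj (Θ z)) x = ((‖llim Θ x‖ ^ 2 : ℝ) : ℂ) := by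
      rw [llim_eq hPCn ((hΘ.tendsto_l x).mul ((Complex.continuous_conj.tendsto _).comp
        (hΘ.tendsto_l x))), Complex.mul_conj, Complex.normSq_eq_norm_sq]
    rw [er, el] at h4
    have ephi : Phi ((‖rlim Θ x‖ ^ 2 : ℝ) : ℂ) ((‖llim Θ x‖ ^ 2 : ℝ) : ℂ)
        ((‖rlim Θ x‖ ^ 2 : ℝ) : ℂ) ((‖llim Θ x‖ ^ 2 : ℝ) : ℂ) l 1 0 =
        ‖rlim Θ x‖ ^ 2 * l ^ 2 + ‖llim Θ x‖ ^ 2 := by
      unfold Phi
      rw [map_zero, mul_zero, zero_mul, Complex.zero_re, Complex.ofReal_re, Complex.ofReal_re]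
      simp
    rw [ephi] at h4
    have hineq : ∀ n, c / 2 * ‖v n‖ ^ 2 ≤
        Q * (inner ℂ ((MΘ.comp N) (v n)) (v n)).re - (inner ℂ (K (v n)) (v n)).re := by
      intro n
      have h1 := hcD (v n)
      have h2 : D = (1/2 : ℂ) • (MΘ.comp Y + ContinuousLinearMap.adjoint (MΘ.comp Y)) - K := by
        rw [hDK]; abel
      rw [h2, _root_.sub_apply, inner_sub_left, Complex.sub_re, inner_re_adj,
        ContinuousLinearMap.comp_apply, ← ContinuousLinearMap.adjoint_inner_right, hadj] at h1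
      have h5 : (inner ℂ ((MΘ.comp N) (v n)) (v n)).re = ‖N (v n)‖ ^ 2 := by
        rw [ContinuousLinearMap.comp_apply, ← ContinuousLinearMap.adjoint_inner_right, hadj,
          inner_self_eq_norm_sq_to_K]
        norm_cast
      have h6 : (inner ℂ (Y (v n)) (N (v n))).re ≤ ‖Y‖ * ‖v n‖ * ‖N (v n)‖ := by
        calc (inner ℂ (Y (v n)) (N (v n))).re ≤ ‖inner ℂ (Y (v n)) (N (v n))‖ := Complex.re_le_norm _
          _ ≤ ‖Y (v n)‖ * ‖N (v n)‖ := norm_inner_le_norm _ _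
          _ ≤ ‖Y‖ * ‖v n‖ * ‖N (v n)‖ := by gcongr; exact Y.le_opNorm _
      have h7 : ‖Y‖ * ‖v n‖ * ‖N (v n)‖ ≤ c / 2 * ‖v n‖ ^ 2 + Q * ‖N (v n)‖ ^ 2 := by
        rw [hQ]
        have h8 := sq_nonneg (c * ‖v n‖ - ‖Y‖ * ‖N (v n)‖)
        have h9 : c / 2 * ‖v n‖ ^ 2 + ‖Y‖ ^ 2 / (2 * c) * ‖N (v n)‖ ^ 2 -
            ‖Y‖ * ‖v n‖ * ‖N (v n)‖ = (c * ‖v n‖ - ‖Y‖ * ‖N (v n)‖) ^ 2 / (2 * c) := by
          field_simp
          ring
        have h10 : 0 ≤ (c * ‖v n‖ - ‖Y‖ * ‖N (v n)‖) ^ 2 / (2 * c) := by positivity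
        linarith
      rw [h5]
      linarith
    have hfin := le_of_tendsto_of_tendsto' (h2.const_mul (c / 2)) ((h4.const_mul Q).sub (h1 K hK)) hineq
    rw [sub_zero] at hfin
    have h3 := mul_le_mul_of_nonneg_left hfin hl.le
    have e1 : l * (c / 2 * (l⁻¹ * ((‖(1:ℂ)‖ ^ 2 + ‖(0:ℂ)‖ ^ 2) * (l ^ 2 + 1)))) =
        c / 2 * (l ^ 2 + 1) := by
      rw [norm_one, norm_zero]; field_simp; ring
    have e2 : l * (Q * (l⁻¹ * (‖rlim Θ x‖ ^ 2 * l ^ 2 + ‖llim Θ x‖ ^ 2))) =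
        Q * (‖rlim Θ x‖ ^ 2 * l ^ 2 + ‖llim Θ x‖ ^ 2) := by field_simp
    rw [e1, e2] at h3
    exact h3
  constructor
  · intro h0
    have : c / 2 ≤ 0 := by
      apply le_zero_of_forall (A := c / 2 - Q * ‖llim Θ x‖ ^ 2)
      intro t ht
      have h1 := key (Real.sqrt t⁻¹) (Real.sqrt_pos.2 (inv_pos.2 ht))
      rw [Real.sq_sqrt (inv_pos.2 ht).le, h0, norm_zero] at h1
      have h2 := mul_le_mul_of_nonneg_right h1 ht.le
      have h4 : c / 2 * (t⁻¹ + 1) * t = c / 2 + c / 2 * t := by field_simp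
      rw [h4] at h2
      linarith
    linarith
  · intro h0
    have : c / 2 ≤ 0 := by
      apply le_zero_of_forall (A := c / 2 - Q * ‖rlim Θ x‖ ^ 2)
      intro t ht
      have h1 := key (Real.sqrt t) (Real.sqrt_pos.2 ht)
      rw [Real.sq_sqrt ht.le, h0, norm_zero] at h1
      linarith
    linarith

end Pool.Agent.H798R2.SE
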