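import Pool.Agent.H798R2.SE.Basic
set_option autoImplicit false
open MeasureTheory Filter Topology Set
open scoped ComplexConjugate

namespace Pool.Agent.H798R2.SE

theorem isMul_fourier_apply {M : L2 →L[ℂ] L2} {k : ℤ} (hM : IsMul M (fourier (T := (1:ℝ)) k))
    (n : ℤ) : M (fourierLp (T := (1:ℝ)) 2 n) = fourierLp (T := (1:ℝ)) 2 (n + k) := by
  apply Lp.ext
  filter_upwards [hM (fourierLp (T := (1:ℝ)) 2 n), coeFn_fourierLp (T := (1:ℝ)) 2 n,
    coeFn_fourierLp (T := (1:ℝ)) 2 (n + k)] with x h1 h2 h3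
  rw [h1, h2, h3, fourier_add, mul_comm]

theorem rankOne_compact (u v : L2) :
    IsCompactOperator ((innerSL ℂ u).smulRight v : L2 →L[ℂ] L2) := by
  have h1 : IsCompactOperator (ContinuousLinearMap.toSpanSingleton ℂ v : ℂ →L[ℂ] L2) :=
    isCompactOperator_of_locallyCompactSpace_rng _
  have h2 := h1.comp_clm (innerSL ℂ u)
  exact h2

def sg (n : ℤ) : ℂ := if 0 ≤ n then 1 else -1

theorem comm_fourier {S M : L2 →L[ℂ] L2} (hS : IsS S) {k : ℤ}
    (hM : IsMul M (fourier (T := (1:ℝ)) k)) :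
    IsCompactOperator (M.comp S - S.comp M : L2 →L[ℂ] L2) := by
  have key : M.comp S - S.comp M = ∑ n ∈ Finset.Icc (-|k|) |k|,
      (sg n - sg (n + k)) • ((innerSL ℂ (fourierLp (T := (1:ℝ)) 2 n)).smulRight
        (fourierLp (T := (1:ℝ)) 2 (n + k)) : L2 →L[ℂ] L2) := by
    apply ext_basis
    intro m
    rw [_root_.sub_apply, ContinuousLinearMap.comp_apply, ContinuousLinearMap.comp_apply,
      isMul_fourier_apply hM, hS m, map_smul, isMul_fourier_apply hM, hS (m + k), ← sub_smul]
    rw [_root_.sum_apply]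
    have e1 : ∀ n ∈ Finset.Icc (-|k|) |k|, ((sg n - sg (n + k)) •
        ((innerSL ℂ (fourierLp (T := (1:ℝ)) 2 n)).smulRight
        (fourierLp (T := (1:ℝ)) 2 (n + k)) : L2 →L[ℂ] L2)) (fourierLp (T := (1:ℝ)) 2 m) =
        if m = n then (sg m - sg (m + k)) • fourierLp (T := (1:ℝ)) 2 (m + k) else 0 := by
      intro n _
      rw [_root_.smul_apply, ContinuousLinearMap.smulRight_apply, innerSL_apply_apply,
        inner_fourier]
      by_cases h : m = n
      · subst h; simp
      · rw [if_neg h, if_neg (fun h' => h h'.symm)]; simp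
    rw [Finset.sum_congr rfl e1, Finset.sum_ite_eq]
    change (sg m - sg (m + k)) • _ = _
    by_cases h : m ∈ Finset.Icc (-|k|) |k|
    · rw [if_pos h]
    · rw [if_neg h]
      have : sg m = sg (m + k) := by
        unfold sg
        rw [Finset.mem_Icc] at h
        have h1 := neg_abs_le k
        have h2 := le_abs_self k
        split_ifs <;> first | rfl | (exfalso; omega)
      rw [this, sub_self, zero_smul]
  rw [key]
  have h2 : (∑ n ∈ Finset.Icc (-|k|) |k|,
      (sg n - sg (n + k)) • ((innerSL ℂ (fourierLp (T := (1:ℝ)) 2 n)).smulRight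
        (fourierLp (T := (1:ℝ)) 2 (n + k)) : L2 →L[ℂ] L2)) ∈
      compactOperator (RingHom.id ℂ) L2 L2 := by
    apply Submodule.sum_mem
    intro n _
    apply Submodule.smul_mem
    exact rankOne_compact _ _
  exact h2

/-- the algebra map `ψ ↦ M_ψ` for continuous functions -/
theorem exists_mulC : ∃ Λ : C(TT, ℂ) →L[ℂ] (L2 →L[ℂ] L2), ∀ ψ : C(TT, ℂ), IsMul (Λ ψ) ψ := by
  choose M hM hb using fun ψ : C(TT, ℂ) =>
    exists_isMul ψ (ψ.continuous.aestronglyMeasurable) ‖ψ‖ (fun x => ψ.norm_coe_le_norm x)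
  let L : C(TT, ℂ) →ₗ[ℂ] (L2 →L[ℂ] L2) :=
    { toFun := M
      map_add' := fun ψ χ => (hM (ψ + χ)).unique ((hM ψ).add (hM χ))
      map_smul' := fun c ψ => by
        refine (hM (c • ψ)).unique ?_
        intro f
        rw [RingHom.id_apply, _root_.smul_apply]
        filter_upwards [hM ψ f, Lp.coeFn_smul c (M ψ f)] with x h1 h2
        rw [h2, Pi.smul_apply, h1]
        simp
        ring }
  refine ⟨L.mkContinuous 1 (fun ψ => by rw [one_mul]; exact hb ψ), fun ψ => hM ψ⟩

theorem comm_compact {S M : L2 →L[ℂ] L2} (hS : IsS S) (ψ : C(TT, ℂ))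
    (hM : IsMul M ψ) : IsCompactOperator (M.comp S - S.comp M : L2 →L[ℂ] L2) := by
  obtain ⟨Λ, hΛ⟩ := exists_mulC
  have hcont : Continuous fun ψ : C(TT, ℂ) => ((Λ ψ).comp S - S.comp (Λ ψ) : L2 →L[ℂ] L2) := by
    fun_prop
  have hcl : IsClosed {ψ : C(TT, ℂ) | IsCompactOperator
      ((Λ ψ).comp S - S.comp (Λ ψ) : L2 →L[ℂ] L2)} := by
    have h1 := isClosed_setOfPred_isCompactOperator (𝕜₁ := ℂ) (𝕜₂ := ℂ) (σ₁₂ := RingHom.id ℂ)
      (M₁ := L2) (M₂ := L2)
    exact h1.preimage hcont
  let V : Submodule ℂ C(TT, ℂ) :=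
    { carrier := {ψ : C(TT, ℂ) | IsCompactOperator
        ((Λ ψ).comp S - S.comp (Λ ψ) : L2 →L[ℂ] L2)}
      add_mem' := by
        intro a b ha hb
        have h1 : ((Λ (a + b)).comp S - S.comp (Λ (a + b)) : L2 →L[ℂ] L2) =
            ((Λ a).comp S - S.comp (Λ a)) + ((Λ b).comp S - S.comp (Λ b)) := by
          rw [map_add, ContinuousLinearMap.add_comp, ContinuousLinearMap.comp_add]
          abel
        show IsCompactOperator _
        rw [h1]
        exact ha.add hb
      zero_mem' := by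
        show IsCompactOperator _
        have h1 : ((Λ 0).comp S - S.comp (Λ 0) : L2 →L[ℂ] L2) = 0 := by
          rw [map_zero]; simp
        rw [h1]
        exact isCompactOperator_zero
      smul_mem' := by
        intro c a ha
        have h1 : ((Λ (c • a)).comp S - S.comp (Λ (c • a)) : L2 →L[ℂ] L2) =
            c • ((Λ a).comp S - S.comp (Λ a)) := by
          rw [map_smul, ContinuousLinearMap.smul_comp, ContinuousLinearMap.comp_smul, smul_sub]
        show IsCompactOperator _
        rw [h1]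
        exact ha.smul c }
  have hV : (Submodule.span ℂ (Set.range (fourier (T := (1:ℝ))))).topologicalClosure ≤ V := by
    apply Submodule.topologicalClosure_minimal _ _ hcl
    rw [Submodule.span_le]
    rintro _ ⟨k, rfl⟩
    exact comm_fourier hS (hΛ _)
  rw [span_fourier_closure_eq_top] at hV
  have := hV (Submodule.mem_top (x := ψ))
  rw [hM.unique (hΛ ψ)]
  exact this

end Pool.Agent.H798R2.SE
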