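import Pool.Agent.H798R2.SE.Bwd
set_option autoImplicit false
open MeasureTheory Filter Topology Set
open scoped ComplexConjugate

namespace Pool.Agent.H798R2.SE

theorem bwd1 {a b Θ : TT → ℂ} (ha : PC a) (hb : PC b) (hΘ : PC Θ) {S Ma Mb MΘ : L2 →L[ℂ] L2}
    (hS : IsS S) (hMa : IsMul Ma a) (hMb : IsMul Mb b) (hMΘ : IsMul MΘ Θ)
    (hell : SEll (MΘ.comp (Ma + Mb.comp S))) : Cond3 (fun x => a x + b x) (fun x => a x - b x) := by
  intro x μ ν h1 h2 h3 h4 hE
  have hc : PC (fun x => a x + b x) := ha.add hb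
  have hd : PC (fun x => a x - b x) := ha.sub hb
  obtain ⟨c, hc0, hform⟩ := bwd_form (hΘ.mul hc) (hΘ.mul hd) hS (X := MΘ.comp (Ma + Mb.comp S)) (by
    intro F G hF hG
    have hSFG : S (F + G) = F - G := by rw [map_add, hF, hG]; abel
    filter_upwards [hMΘ ((Ma + Mb.comp S) (F + G)), hMa (F + G), hMb (S (F + G)),
      Lp.coeFn_add (Ma (F + G)) (Mb (S (F + G))), Lp.coeFn_add F G, Lp.coeFn_sub F G]
      with z e1 e2 e3 e4 e5 e6
    rw [ContinuousLinearMap.comp_apply, e1, _root_.add_apply, ContinuousLinearMap.comp_apply, e4,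
      Pi.add_apply, e2, e3, hSFG, e5, e6, Pi.add_apply, Pi.sub_apply]
    ring) hell x
  have hne := alg_back _ _ _ _ c hc0 hform μ ν h1 h2 h3 h4
  apply hne
  have r1 : rlim (fun z => Θ z * (a z + b z)) x = rlim Θ x * rlim (fun z => a z + b z) x :=
    rlim_eq (hΘ.mul hc) ((hΘ.tendsto_r x).mul (hc.tendsto_r x))
  have r2 : llim (fun z => Θ z * (a z + b z)) x = llim Θ x * llim (fun z => a z + b z) x :=
    llim_eq (hΘ.mul hc) ((hΘ.tendsto_l x).mul (hc.tendsto_l x))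
  have r3 : rlim (fun z => Θ z * (a z - b z)) x = rlim Θ x * rlim (fun z => a z - b z) x :=
    rlim_eq (hΘ.mul hd) ((hΘ.tendsto_r x).mul (hd.tendsto_r x))
  have r4 : llim (fun z => Θ z * (a z - b z)) x = llim Θ x * llim (fun z => a z - b z) x :=
    llim_eq (hΘ.mul hd) ((hΘ.tendsto_l x).mul (hd.tendsto_l x))
  rw [r1, r2, r3, r4]
  linear_combination (rlim Θ x * llim Θ x) * hE

theorem SEll.conj' {X N : L2 →L[ℂ] L2} (h : SEll X) {η : ℝ} (hη : 0 < η)
    (hN : ∀ u, η * ‖u‖ ≤ ‖ContinuousLinearMap.adjoint N u‖) :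
    SEll (N.comp (X.comp (ContinuousLinearMap.adjoint N))) := by
  obtain ⟨D, K, hD, hK, ⟨c, hc, hcD⟩, hDK⟩ := h
  refine ⟨N.comp (D.comp (ContinuousLinearMap.adjoint N)),
    N.comp (K.comp (ContinuousLinearMap.adjoint N)), ?_,
    compact_comp_left (compact_comp_right hK _) _, ⟨c * η ^ 2, by positivity, fun u => ?_⟩, ?_⟩
  · rw [isSelfAdjoint_iff, ContinuousLinearMap.star_eq_adjoint, ContinuousLinearMap.adjoint_comp,
      ContinuousLinearMap.adjoint_comp, ContinuousLinearMap.adjoint_adjoint]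
    have : ContinuousLinearMap.adjoint D = D := by
      rw [← ContinuousLinearMap.star_eq_adjoint]; exact hD
    rw [this, ContinuousLinearMap.comp_assoc]
  · rw [ContinuousLinearMap.comp_apply, ContinuousLinearMap.comp_apply,
      ← ContinuousLinearMap.adjoint_inner_right]
    refine le_trans ?_ (hcD _)
    have h1 := hN u
    have h2 : (η * ‖u‖) ^ 2 ≤ ‖ContinuousLinearMap.adjoint N u‖ ^ 2 := by gcongr
    calc c * η ^ 2 * ‖u‖ ^ 2 = c * (η * ‖u‖) ^ 2 := by ring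
      _ ≤ _ := by gcongr
  · have e1 : ContinuousLinearMap.adjoint (N.comp (X.comp (ContinuousLinearMap.adjoint N))) =
        N.comp ((ContinuousLinearMap.adjoint X).comp (ContinuousLinearMap.adjoint N)) := by
      rw [ContinuousLinearMap.adjoint_comp, ContinuousLinearMap.adjoint_comp,
        ContinuousLinearMap.adjoint_adjoint, ContinuousLinearMap.comp_assoc]
    rw [e1]
    have e2 : (1/2 : ℂ) • (N.comp (X.comp (ContinuousLinearMap.adjoint N)) +
        N.comp ((ContinuousLinearMap.adjoint X).comp (ContinuousLinearMap.adjoint N))) =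
        N.comp (((1/2 : ℂ) • (X + ContinuousLinearMap.adjoint X)).comp
          (ContinuousLinearMap.adjoint N)) := by
      ext1 u
      simp only [_root_.smul_apply, _root_.add_apply, ContinuousLinearMap.comp_apply, map_smul,
        map_add]
    rw [e2, hDK]
    ext1 u
    simp only [_root_.add_apply, ContinuousLinearMap.comp_apply, map_add]

theorem SEll.adj {X : L2 →L[ℂ] L2} (h : SEll X) : SEll (ContinuousLinearMap.adjoint X) := by
  obtain ⟨D, K, hD, hK, hc, hDK⟩ := h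
  refine ⟨D, K, hD, hK, hc, ?_⟩
  rw [ContinuousLinearMap.adjoint_adjoint, add_comm]
  exact hDK

/-- passage between the two forms of the operator -/
theorem transfer {a b Θ Θ' : TT → ℂ} {S Ma Mb Na Nb MΘ MΘ' : L2 →L[ℂ] L2} (hS : IsS S)
    (hMa : IsMul Ma a) (hMb : IsMul Mb b) (hNa : IsMul Na (fun x => conj (a x)))
    (hNb : IsMul Nb (fun x => conj (b x)))
    (hMΘ : IsMul MΘ Θ) (hMΘ' : IsMul MΘ' Θ') (hinv : ∀ x, Θ x * Θ' x = 1) :
    (SEll (MΘ.comp (Ma + S.comp Mb)) → SEll (MΘ'.comp (Na + Nb.comp S))) ∧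
    (SEll (MΘ'.comp (Na + Nb.comp S)) → SEll (MΘ.comp (Ma + S.comp Mb))) := by
  have hone : MΘ.comp MΘ' = ContinuousLinearMap.id ℂ L2 := by
    apply (hMΘ.comp hMΘ').unique
    exact isMul_id.congr (Eventually.of_forall fun x => (hinv x).symm)
  have hone' : MΘ'.comp MΘ = ContinuousLinearMap.id ℂ L2 := by
    apply (hMΘ'.comp hMΘ).unique
    exact isMul_id.congr (Eventually.of_forall fun x => by
      show (1:ℂ) = _
      rw [← hinv x, mul_comm])
  have adja : ContinuousLinearMap.adjoint Ma = Na := hMa.adjoint hNa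
  have adjb : ContinuousLinearMap.adjoint Mb = Nb := hMb.adjoint hNb
  -- lower bounds for the adjoints
  have low : ∀ A B : L2 →L[ℂ] L2, A.comp B = ContinuousLinearMap.id ℂ L2 →
      ∃ η : ℝ, 0 < η ∧ ∀ u, η * ‖u‖ ≤ ‖ContinuousLinearMap.adjoint A u‖ := by
    intro A B hAB
    refine ⟨(‖ContinuousLinearMap.adjoint B‖ + 1)⁻¹, by positivity, fun u => ?_⟩
    have h1 : (ContinuousLinearMap.adjoint B) ((ContinuousLinearMap.adjoint A) u) = u := by
      rw [← ContinuousLinearMap.comp_apply, ← ContinuousLinearMap.adjoint_comp, hAB,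
        ContinuousLinearMap.adjoint_id]
      rfl
    rw [inv_mul_le_iff₀ (by positivity)]
    calc ‖u‖ = ‖(ContinuousLinearMap.adjoint B) ((ContinuousLinearMap.adjoint A) u)‖ := by rw [h1]
      _ ≤ ‖ContinuousLinearMap.adjoint B‖ * ‖(ContinuousLinearMap.adjoint A) u‖ :=
        ContinuousLinearMap.le_opNorm _ _
      _ ≤ _ := by gcongr; linarith
  constructor
  · intro h
    obtain ⟨η, hη, hlow⟩ := low _ _ hone'
    have h1 := (h.conj' hη hlow).adj
    convert h1 using 1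
    rw [ContinuousLinearMap.adjoint_comp, ContinuousLinearMap.adjoint_comp,
      ContinuousLinearMap.adjoint_comp, ContinuousLinearMap.adjoint_adjoint, map_add,
      ContinuousLinearMap.adjoint_comp, adja, adjb, hS.adjoint, ContinuousLinearMap.comp_assoc,
      ContinuousLinearMap.comp_assoc, ← ContinuousLinearMap.adjoint_comp, hone']
    rw [ContinuousLinearMap.adjoint_id, ContinuousLinearMap.comp_id]
  · intro h
    obtain ⟨η, hη, hlow⟩ := low _ _ hone
    have h1 := (h.adj.conj' hη hlow)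
    convert h1 using 1
    rw [ContinuousLinearMap.adjoint_comp, map_add,
      ContinuousLinearMap.adjoint_comp, ← adja, ← adjb, ContinuousLinearMap.adjoint_adjoint,
      ContinuousLinearMap.adjoint_adjoint, hS.adjoint, ContinuousLinearMap.comp_assoc,
      ← ContinuousLinearMap.adjoint_comp, hone]
    rw [ContinuousLinearMap.adjoint_id, ContinuousLinearMap.comp_id]

theorem rlim_conj {f : TT → ℂ} (hf : PC f) (x : ℝ) :
    rlim (fun z => conj (f z)) x = conj (rlim f x) :=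
  rlim_eq hf.conj ((Complex.continuous_conj.tendsto _).comp (hf.tendsto_r x))

theorem llim_conj {f : TT → ℂ} (hf : PC f) (x : ℝ) :
    llim (fun z => conj (f z)) x = conj (llim f x) :=
  llim_eq hf.conj ((Complex.continuous_conj.tendsto _).comp (hf.tendsto_l x))

theorem Cond3.conj {c d : TT → ℂ} (hc : PC c) (hd : PC d) (h : Cond3 c d) :
    Cond3 (fun x => conj (c x)) (fun x => conj (d x)) := by
  intro x μ ν h1 h2 h3 h4 hE
  apply h x μ ν h1 h2 h3 h4
  rw [rlim_conj hc, rlim_conj hd, llim_conj hc, llim_conj hd] at hE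
  have := congrArg conj hE
  simp only [map_add, map_mul, map_sub, map_one, map_zero, Complex.conj_conj,
    Complex.conj_ofReal] at this
  exact this

theorem fwd2 {a b : TT → ℂ} (ha : PC a) (hb : PC b) {S Ma Mb : L2 →L[ℂ] L2} (hS : IsS S)
    (hMa : IsMul Ma a) (hMb : IsMul Mb b)
    (h3 : Cond3 (fun x => a x + b x) (fun x => a x - b x)) :
    ∃ Θ : TT → ℂ, PC Θ ∧ (∀ t, Θ t ≠ 0) ∧
      ∀ MΘ, IsMul MΘ Θ → SEll (MΘ.comp (Ma + S.comp Mb)) := by
  obtain ⟨Ca, _, hCa⟩ := ha.bounded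
  obtain ⟨Cb, _, hCb⟩ := hb.bounded
  obtain ⟨Na, hNa, _⟩ := exists_isMul (fun z => conj (a z)) ha.conj.measurable.aestronglyMeasurable
    Ca (fun z => by rw [RCLike.norm_conj]; exact hCa z)
  obtain ⟨Nb, hNb, _⟩ := exists_isMul (fun z => conj (b z)) hb.conj.measurable.aestronglyMeasurable
    Cb (fun z => by rw [RCLike.norm_conj]; exact hCb z)
  have h3' : Cond3 (fun x => conj (a x) + conj (b x)) (fun x => conj (a x) - conj (b x)) := by
    have := h3.conj (ha.add hb) (ha.sub hb)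
    simpa only [map_add, map_sub] using this
  obtain ⟨Θ, hΘ, hΘ0, ⟨η, hη, hηΘ⟩, hell⟩ := fwd ha.conj hb.conj hS hNa hNb h3'
  obtain ⟨C, _, hC⟩ := hΘ.bounded
  obtain ⟨N, hN, _⟩ := exists_isMul Θ hΘ.measurable.aestronglyMeasurable C hC
  refine ⟨fun t => (Θ t)⁻¹, hΘ.inv hη hηΘ, fun t => inv_ne_zero (hΘ0 t), fun MΘ hMΘ => ?_⟩
  exact (transfer hS hMa hMb hNa hNb hMΘ hN (fun x => inv_mul_cancel₀ (hΘ0 x))).2 (hell N hN)

theorem bwd2 {a b Θ : TT → ℂ} (ha : PC a) (hb : PC b) (hΘ : PC Θ) (hΘ0 : ∀ t, Θ t ≠ 0)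
    {S Ma Mb MΘ : L2 →L[ℂ] L2}
    (hS : IsS S) (hMa : IsMul Ma a) (hMb : IsMul Mb b) (hMΘ : IsMul MΘ Θ)
    (hell : SEll (MΘ.comp (Ma + S.comp Mb))) : Cond3 (fun x => a x + b x) (fun x => a x - b x) := by
  obtain ⟨Ca, _, hCa⟩ := ha.bounded
  obtain ⟨Cb, _, hCb⟩ := hb.bounded
  obtain ⟨Na, hNa, _⟩ := exists_isMul (fun z => conj (a z)) ha.conj.measurable.aestronglyMeasurable
    Ca (fun z => by rw [RCLike.norm_conj]; exact hCa z)
  obtain ⟨Nb, hNb, _⟩ := exists_isMul (fun z => conj (b z)) hb.conj.measurable.aestronglyMeasurable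
    Cb (fun z => by rw [RCLike.norm_conj]; exact hCb z)
  obtain ⟨η, hη, hηΘ⟩ := pos_bound (g := fun t => ‖Θ t‖) (fun x => by
    obtain ⟨h1, h2⟩ := limits_ne hΘ hS hMΘ hell x
    exact ⟨norm_pos_iff.2 (hΘ0 x), ⟨_, norm_pos_iff.2 h2, (hΘ.tendsto_l x).norm⟩,
      ⟨_, norm_pos_iff.2 h1, (hΘ.tendsto_r x).norm⟩⟩)
  have hinvPC : PC (fun t => (Θ t)⁻¹) := hΘ.inv hη hηΘ
  obtain ⟨C, _, hC⟩ := hinvPC.bounded
  obtain ⟨N, hN, _⟩ := exists_isMul _ hinvPC.measurable.aestronglyMeasurable C hC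
  have h1 := (transfer hS hMa hMb hNa hNb hMΘ hN (fun x => mul_inv_cancel₀ (hΘ0 x))).1 hell
  have h2 := bwd1 ha.conj hb.conj hinvPC hS hNa hNb hN h1
  have h3 := h2.conj (ha.conj.add hb.conj) (ha.conj.sub hb.conj)
  simpa only [map_add, map_sub, Complex.conj_conj] using h3

theorem cond_iff {a b : TT → ℂ} (ha : PC a) (hb : PC b) :
    (∀ x : ℝ, ∀ ap am bp bm : ℂ,
        Tendsto (fun s : ℝ => a (↑s : AddCircle (1:ℝ))) (𝓝[>] x) (𝓝 ap) →
        Tendsto (fun s : ℝ => a (↑s : AddCircle (1:ℝ))) (𝓝[<] x) (𝓝 am) →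
        Tendsto (fun s : ℝ => b (↑s : AddCircle (1:ℝ))) (𝓝[>] x) (𝓝 bp) →
        Tendsto (fun s : ℝ => b (↑s : AddCircle (1:ℝ))) (𝓝[<] x) (𝓝 bm) →
        ∀ μ ν : ℝ, 0 ≤ μ → μ ≤ 1 → 0 ≤ ν → ν ≤ 1 →
          ((ap + bp) * (am - bm) * (μ : ℂ) + (am + bm) * (ap - bp) * (1 - (μ : ℂ))) * (ν : ℂ)
            + (ap - bp) * (am - bm) * (1 - (ν : ℂ)) ≠ 0) ↔
      Cond3 (fun x => a x + b x) (fun x => a x - b x) := by
  have r1 : ∀ x : ℝ, rlim (fun z => a z + b z) x = rlim a x + rlim b x := fun x =>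
    rlim_eq (ha.add hb) ((ha.tendsto_r x).add (hb.tendsto_r x))
  have r2 : ∀ x : ℝ, llim (fun z => a z + b z) x = llim a x + llim b x := fun x =>
    llim_eq (ha.add hb) ((ha.tendsto_l x).add (hb.tendsto_l x))
  have r3 : ∀ x : ℝ, rlim (fun z => a z - b z) x = rlim a x - rlim b x := fun x =>
    rlim_eq (ha.sub hb) ((ha.tendsto_r x).sub (hb.tendsto_r x))
  have r4 : ∀ x : ℝ, llim (fun z => a z - b z) x = llim a x - llim b x := fun x =>
    llim_eq (ha.sub hb) ((ha.tendsto_l x).sub (hb.tendsto_l x))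
  constructor
  · intro h x
    rw [r1, r2, r3, r4]
    exact h x _ _ _ _ (ha.tendsto_r x) (ha.tendsto_l x) (hb.tendsto_r x) (hb.tendsto_l x)
  · intro h x ap am bp bm h1 h2 h3 h4
    have := h x
    rw [r1, r2, r3, r4, rlim_eq ha h1, llim_eq ha h2, rlim_eq hb h3, llim_eq hb h4] at this
    exact this

end Pool.Agent.H798R2.SE
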