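import Pool.Agent.H798R2.SE.Tst
set_option autoImplicit false
open MeasureTheory Filter Topology Set
open scoped ComplexConjugate

namespace Pool.Agent.H798R2.SE

theorem ww_re_pos {y : ℝ} (h0 : 0 < y) (h1 : y < 1) : 0 < (ww (y : TT)).re := by
  rw [ww_coe']
  rw [← Complex.ofReal_cos, ← Complex.ofReal_sin]
  simp only [Complex.mul_re, Complex.add_re, Complex.ofReal_re, Complex.ofReal_im, Complex.I_re,
    Complex.I_im, mul_zero, zero_mul, sub_zero, mul_one, Complex.mul_im, Complex.add_im, add_zero]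
  rw [Real.cos_sub_pi_div_two]
  have := ww_pos h0 h1
  nlinarith

/-- `y ↦ exp(2πi k y)` -/
noncomputable def EE (k : ℕ) (y : ℝ) : ℂ := Complex.exp (2 * Real.pi * Complex.I * k * y)

theorem hasDerivAt_EE (k : ℕ) (y : ℝ) :
    HasDerivAt (EE k) (2 * Real.pi * Complex.I * k * EE k y) y := by
  unfold EE
  have h1 : HasDerivAt (fun y : ℝ => 2 * Real.pi * Complex.I * k * (y : ℂ))
      (2 * Real.pi * Complex.I * k) y := by
    simpa using (Complex.ofRealCLM.hasDerivAt (x := y)).const_mul (2 * Real.pi * Complex.I * k)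
  have h2 := h1.cexp
  convert h2 using 1
  ring

theorem ww_coe_EE (y : ℝ) : ww (y : TT) = 1 - EE 1 y := by
  rw [ww_coe, EE]
  simp

theorem EE_succ (k : ℕ) (y : ℝ) : EE (k + 1) y = EE k y * EE 1 y := by
  unfold EE
  rw [← Complex.exp_add]
  congr 1
  push_cast
  ring

theorem norm_EE (k : ℕ) (y : ℝ) : ‖EE k y‖ = 1 := by
  unfold EE
  have : 2 * Real.pi * Complex.I * k * y = ((2 * Real.pi * k * y : ℝ) : ℂ) * Complex.I := by
    push_cast; ring
  rw [this, Complex.norm_exp_ofReal_mul_I]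

theorem continuous_EE (k : ℕ) : Continuous (EE k) := by unfold EE; fun_prop

theorem hasDerivAt_ww (y : ℝ) :
    HasDerivAt (fun y : ℝ => ww (y : TT)) (-(2 * Real.pi * Complex.I * EE 1 y)) y := by
  have h := (hasDerivAt_EE 1 y).const_sub 1
  have e : (fun y : ℝ => ww (y : TT)) = fun y => 1 - EE 1 y := by
    funext y; exact ww_coe_EE y
  rw [e]
  refine h.congr_deriv ?_
  push_cast
  ring

theorem ww_slit {y : ℝ} (h0 : 0 < y) (h1 : y < 1) : ww (y : TT) ∈ Complex.slitPlane :=
  Or.inl (ww_re_pos h0 h1)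

noncomputable def II (s : ℂ) (k : ℕ) : ℂ := ∫ y in (0:ℝ)..1, FF s (y : TT) * EE k y

theorem FF_ii {s : ℂ} (hs : -1 < s.re) (hs2 : s.re ≤ 0) (k : ℕ) :
    IntervalIntegrable (fun y : ℝ => FF s (y : TT) * EE k y) volume 0 1 := by
  have h1 := FF_int hs hs2
  rw [← vol_eq] at h1
  have hmp := AddCircle.measurePreserving_mk (1:ℝ) 0
  rw [← hmp.integrable_comp h1.aestronglyMeasurable] at h1
  rw [zero_add] at h1
  have h2 : IntervalIntegrable (fun y : ℝ => FF s (y : TT)) volume 0 1 := by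
    rw [intervalIntegrable_iff_integrableOn_Ioc_of_le zero_le_one]
    exact h1
  exact h2.mul_continuousOn (continuous_EE k).continuousOn

theorem ww_re_nonneg (x : TT) : 0 ≤ (ww x).re := by
  unfold ww
  have h1 := Complex.re_le_norm (fourier (T := (1:ℝ)) 1 x)
  have h2 : ‖fourier (T := (1:ℝ)) 1 x‖ = 1 := by
    rw [fourier_apply]; exact Circle.norm_coe _
  rw [Complex.sub_re, Complex.one_re]
  linarith

theorem continuous_FF {s : ℂ} (hs : 0 < s.re) : Continuous (FF s) := by
  rw [continuous_iff_continuousAt]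
  intro x
  have h := Complex.continuousAt_cpow_const_of_re_pos (z := ww x) (Or.inl (ww_re_nonneg x)) hs
  exact ContinuousAt.comp (f := ww) (g := fun z : ℂ => z ^ s) h continuous_ww.continuousAt

theorem II_rec {s : ℂ} (hs : -1 < s.re) (hs2 : s.re ≤ 0) (k : ℕ) :
    (k : ℂ) * II s k = (s + 1 + k) * II s (k + 1) := by
  have hs1 : 0 < (s + 1).re := by simp; linarith
  have hs1' : s + 1 ≠ 0 := by intro h; rw [h] at hs1; simp at hs1
  have hcont : Continuous fun y : ℝ => FF (s + 1) (y : TT) * EE k y :=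
    ((continuous_FF hs1).comp (AddCircle.continuous_mk' 1)).mul (continuous_EE k)
  have hi1 := FF_ii hs hs2 k
  have hi2 := FF_ii hs hs2 (k + 1)
  have hder : ∀ y ∈ Ioo (0:ℝ) 1, HasDerivAt (fun y : ℝ => FF (s + 1) (y : TT) * EE k y)
      (2 * Real.pi * Complex.I * k * (FF s (y : TT) * EE k y) -
        2 * Real.pi * Complex.I * (s + 1 + k) * (FF s (y : TT) * EE (k + 1) y)) y := by
    intro y hy
    have h1 : HasDerivAt (fun y : ℝ => FF (s + 1) (y : TT))
        ((s + 1) * (ww (y : TT)) ^ (s + 1 - 1) * (-(2 * Real.pi * Complex.I * EE 1 y))) y := by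
      have h0 : HasDerivAt (fun z : ℂ => z ^ (s + 1)) ((s + 1) * (ww (y : TT)) ^ (s + 1 - 1))
          (ww (y : TT)) := by
        have := (hasDerivAt_id (ww (y : TT))).cpow_const (c := s + 1) (ww_slit hy.1 hy.2)
        rw [mul_one] at this
        exact this
      exact h0.comp y (hasDerivAt_ww y)
    have h2 : HasDerivAt (fun y : ℝ => FF (s + 1) (y : TT) * EE k y) _ y :=
      h1.mul (hasDerivAt_EE k y)
    refine h2.congr_deriv ?_
    rw [add_sub_cancel_right]
    have hne := ww_ne hy.1 hy.2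
    have e1 : FF (s + 1) (y : TT) = FF s (y : TT) * (1 - EE 1 y) := by
      unfold FF
      rw [Complex.cpow_add _ _ hne, Complex.cpow_one, ← ww_coe_EE]
    rw [e1, EE_succ k y]
    show (s + 1) * FF s (y : TT) * (-(2 * Real.pi * Complex.I * EE 1 y)) * EE k y + _ = _
    ring
  have hint : IntervalIntegrable (fun y : ℝ => 2 * Real.pi * Complex.I * k * (FF s (y : TT) * EE k y) -
        2 * Real.pi * Complex.I * (s + 1 + k) * (FF s (y : TT) * EE (k + 1) y)) volume 0 1 :=
    (hi1.const_mul _).sub (hi2.const_mul _)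
  have hftc := intervalIntegral.integral_eq_sub_of_hasDeriv_right_of_le zero_le_one
    hcont.continuousOn (fun y hy => (hder y hy).hasDerivWithinAt) hint
  have hz : ∀ y : ℝ, ww (y : TT) = 0 → FF (s + 1) (y : TT) = 0 := by
    intro y hy
    unfold FF
    rw [hy, Complex.zero_cpow hs1']
  have hw0 : ww ((0:ℝ) : TT) = 0 := by rw [ww_coe]; simp
  have hw1 : ww ((1:ℝ) : TT) = 0 := by
    rw [AddCircle.coe_period, ← AddCircle.coe_zero (p := (1:ℝ))]; exact hw0
  rw [intervalIntegral.integral_sub (hi1.const_mul _) (hi2.const_mul _),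
    intervalIntegral.integral_const_mul, intervalIntegral.integral_const_mul, hz 0 hw0, hz 1 hw1,
    zero_mul, zero_mul, sub_zero, sub_eq_zero] at hftc
  have hpi : (2 * Real.pi * Complex.I : ℂ) ≠ 0 := by simp [Real.pi_ne_zero]
  apply mul_left_cancel₀ hpi
  unfold II
  linear_combination hftc

theorem II_zero {s : ℂ} (hs : -1 < s.re) (hs2 : s.re ≤ 0) (k : ℕ) : II s (k + 1) = 0 := by
  have hne : ∀ k : ℕ, s + 1 + k ≠ 0 := by
    intro k h
    have := congrArg Complex.re h
    simp at this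
    have h2 : (0:ℝ) ≤ k := Nat.cast_nonneg k
    linarith
  induction k with
  | zero =>
    have h := II_rec hs hs2 0
    rw [Nat.cast_zero, zero_mul] at h
    rcases mul_eq_zero.1 h.symm with h1 | h1
    · exact absurd h1 (by simpa using hne 0)
    · exact h1
  | succ k ih =>
    have h := II_rec hs hs2 (k + 1)
    rw [ih, mul_zero] at h
    rcases mul_eq_zero.1 h.symm with h1 | h1
    · exact absurd h1 (hne (k + 1))
    · exact h1

theorem fourier_eq_EE (k : ℕ) (y : ℝ) : fourier (T := (1:ℝ)) (k : ℤ) (y : TT) = EE k y := by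
  rw [fourier_coe_apply, EE]
  congr 1
  push_cast
  ring

theorem FF_fourier {s : ℂ} (hs : -1 < s.re) (hs2 : s.re ≤ 0) (k : ℤ) (hk : 0 < k) :
    ∫ x, fourier (T := (1:ℝ)) k x * FF s x ∂hm = 0 := by
  obtain ⟨m, rfl⟩ : ∃ m : ℕ, k = ((m + 1 : ℕ) : ℤ) := ⟨(k - 1).toNat, by omega⟩
  have h3 := AddCircle.intervalIntegral_preimage (1:ℝ) 0
    (fun x => fourier (T := (1:ℝ)) ((m + 1 : ℕ) : ℤ) x * FF s x)
  rw [← vol_eq, ← h3, zero_add]
  rw [← II_zero hs hs2 m]
  unfold II
  congr 1
  funext y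
  rw [fourier_eq_EE, mul_comm]

theorem GG_fourier {s : ℂ} (hs : -1 < s.re) (hs2 : s.re ≤ 0) (k : ℤ) (hk : k ≤ 0) :
    ∫ x, fourier (T := (1:ℝ)) k x * GG s x ∂hm = 0 := by
  have h1 := FF_fourier (s := conj s) (by simpa using hs) (by simpa using hs2) (1 - k) (by omega)
  have h2 := congrArg conj h1
  rw [← integral_conj, map_zero] at h2
  rw [← h2]
  congr 1
  funext x
  rw [map_mul, ← fourier_neg]
  unfold GG FF
  rw [← mul_assoc, ← fourier_add]
  congr 2
  congr 1
  ring

theorem fourier_shift (k : ℤ) (x t : TT) :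
    fourier (T := (1:ℝ)) k (x + t) = fourier (T := (1:ℝ)) k x * fourier (T := (1:ℝ)) k t := by
  rw [fourier_apply, fourier_apply, fourier_apply, smul_add, AddCircle.toCircle_add]
  simp

/-- Fourier coefficients of a translate -/
theorem shift_fourier {f : TT → ℂ} {k : ℤ} (h : ∫ x, fourier (T := (1:ℝ)) k x * f x ∂hm = 0)
    (t : TT) : ∫ x, fourier (T := (1:ℝ)) k x * f (x - t) ∂hm = 0 := by
  have h1 := integral_sub_right_eq_self (μ := hm)
    (fun x => fourier (T := (1:ℝ)) k (x + t) * f x) t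
  simp only [sub_add_cancel] at h1
  rw [h1]
  have e : (fun x => fourier (T := (1:ℝ)) k (x + t) * f x) =
      fun x => fourier (T := (1:ℝ)) k t * (fourier (T := (1:ℝ)) k x * f x) := by
    funext x
    rw [fourier_shift]; ring
  rw [e, integral_const_mul, h, mul_zero]

theorem mp_sub (t : TT) : MeasurePreserving (fun x : TT => x - t) hm hm :=
  measurePreserving_sub_right hm t

theorem measurable_GG (s : ℂ) : Measurable (GG s) := by
  unfold GG
  exact ((ContinuousMap.continuous _).measurable).mul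
    (Complex.continuous_conj.measurable.comp (measurable_FF (conj s)))

theorem GG_memLp {s : ℂ} (hs : -1/2 < s.re) (hs2 : s.re ≤ 0) : MemLp (GG s) 2 hm := by
  refine MemLp.of_le_mul (c := 1) (FF_memLp (s := conj s) (by simpa using hs) (by simpa using hs2))
    (measurable_GG s).aestronglyMeasurable (Eventually.of_forall fun x => ?_)
  unfold GG FF
  rw [norm_mul, RCLike.norm_conj, one_mul]
  have h2 : ‖fourier (T := (1:ℝ)) (-1) x‖ = 1 := by
    rw [fourier_apply]; exact Circle.norm_coe _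
  rw [h2, one_mul]

theorem FFt_memLp {s : ℂ} (hs : -1/2 < s.re) (hs2 : s.re ≤ 0) (t : TT) :
    MemLp (fun x => FF s (x - t)) 2 hm :=
  (FF_memLp hs hs2).comp_measurePreserving (mp_sub t)

theorem GGt_memLp {s : ℂ} (hs : -1/2 < s.re) (hs2 : s.re ≤ 0) (t : TT) :
    MemLp (fun x => GG s (x - t)) 2 hm :=
  (GG_memLp hs hs2).comp_measurePreserving (mp_sub t)

theorem S_FFt {S : L2 →L[ℂ] L2} (hS : IsS S) {s : ℂ} (hs : -1/2 < s.re) (hs2 : s.re ≤ 0) (t : TT) :
    S ((FFt_memLp hs hs2 t).toLp _) = (FFt_memLp hs hs2 t).toLp _ := by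
  apply hS.of_pos
  intro n hn
  unfold fourierCoeff
  rw [← shift_fourier (FF_fourier (s := s) (by linarith) hs2 (-n) (by omega)) t]
  apply integral_congr_ae
  filter_upwards [(FFt_memLp hs hs2 t).coeFn_toLp] with x hx
  rw [hx, smul_eq_mul]

theorem S_GGt {S : L2 →L[ℂ] L2} (hS : IsS S) {s : ℂ} (hs : -1/2 < s.re) (hs2 : s.re ≤ 0) (t : TT) :
    S ((GGt_memLp hs hs2 t).toLp _) = -(GGt_memLp hs hs2 t).toLp _ := by
  apply hS.of_neg
  intro n hn
  unfold fourierCoeff
  rw [← shift_fourier (GG_fourier (s := s) (by linarith) hs2 (-n) (by omega)) t]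
  apply integral_congr_ae
  filter_upwards [(GGt_memLp hs hs2 t).coeFn_toLp] with x hx
  rw [hx, smul_eq_mul]

end Pool.Agent.H798R2.SE
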