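import Mathlib
set_option autoImplicit false
open Set
open scoped ComplexConjugate

namespace Pool.Agent.H798R2.SE

theorem pw1 {w g d : ℂ} (hw : w ≠ 0) (h : w * g + conj w * d = 1) :
    ‖g + conj d - w⁻¹‖ ^ 2 + 4 * (w.re * (w * (g * conj d)).re / ‖w‖ ^ 2) = 4 * (g.re * d.re) := by
  have hn : ‖w‖ ^ 2 ≠ 0 := by
    have := norm_pos_iff.2 hw
    positivity
  have h1 : ‖g + conj d - w⁻¹‖ ^ 2 * ‖w‖ ^ 2 = ‖w * conj d - conj w * d‖ ^ 2 := by
    rw [← mul_pow, ← norm_mul]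
    congr 2
    have : (g + conj d - w⁻¹) * w = w * g + w * conj d - 1 := by
      field_simp
    rw [this, ← h]; ring
  have h2 : ‖w * conj d - conj w * d‖ ^ 2 = 4 * (w.im * d.re - w.re * d.im) ^ 2 := by
    rw [Complex.sq_norm, Complex.normSq_apply]
    simp
    ring
  have him := congrArg Complex.im h
  simp at him
  have hw2 : ‖w‖ ^ 2 = w.re ^ 2 + w.im ^ 2 := by rw [Complex.sq_norm, Complex.normSq_apply]; ring
  have h3 : 4 * (w.im * d.re - w.re * d.im) ^ 2 + 4 * (w.re * (w * (g * conj d)).re) =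
      4 * (g.re * d.re) * ‖w‖ ^ 2 := by
    rw [hw2]
    simp
    linear_combination (-4 * (w.im * d.re - w.re * d.im)) * him
  apply mul_right_cancel₀ hn
  rw [← h3, ← h2, ← h1]
  field_simp

theorem pw2 {c d w : ℂ} {η C : ℝ} (hη : 0 < η) (hC : 0 < C) (h1 : η ≤ w.re)
    (h2 : η ≤ (w * (c * conj d)).re) (hd : ‖d‖ ≤ C) :
    η / C ≤ ‖w * c + conj w * d‖ := by
  have e : ((w * c + conj w * d) * conj d).re = (w * (c * conj d)).re + w.re * ‖d‖ ^ 2 := by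
    rw [Complex.sq_norm, Complex.normSq_apply]
    simp
    ring
  have h3 : η ≤ ((w * c + conj w * d) * conj d).re := by
    rw [e]
    have : 0 ≤ w.re * ‖d‖ ^ 2 := mul_nonneg (by linarith) (by positivity)
    linarith
  have h4 := Complex.re_le_norm ((w * c + conj w * d) * conj d)
  rw [norm_mul, RCLike.norm_conj] at h4
  rw [div_le_iff₀ hC]
  calc η ≤ ‖w * c + conj w * d‖ * ‖d‖ := h3.trans h4
    _ ≤ ‖w * c + conj w * d‖ * C := by gcongr

theorem pw3 {c d w : ℂ} {η C : ℝ} (hη : 0 < η) (hC : 0 < C) (h1 : η ≤ w.re)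
    (h2 : η ≤ (w * (c * conj d)).re) (hc : ‖c‖ ≤ C) (hd : ‖d‖ ≤ C) (hw : ‖w‖ ≤ C)
    {θ : ℂ} (hθ : θ = (w * c + conj w * d)⁻¹) :
    0 ≤ (θ * c).re ∧ 0 ≤ (θ * d).re ∧ (θ * c).re + (θ * d).re ≤ 2 * C * (C / η) ∧
    ‖θ * c + conj (θ * d) - w⁻¹‖ ^ 2 + 4 * (η ^ 2 / (2 * C ^ 3) ^ 2) ≤
      4 * ((θ * c).re * (θ * d).re) := by
  have hden := pw2 hη hC h1 h2 hd
  have hden0 : 0 < ‖w * c + conj w * d‖ := lt_of_lt_of_le (by positivity) hden
  have hdne : w * c + conj w * d ≠ 0 := norm_pos_iff.1 hden0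
  have hθn : ‖θ‖ = ‖w * c + conj w * d‖⁻¹ := by rw [hθ, norm_inv]
  have hθu : ‖θ‖ ≤ C / η := by
    rw [hθn]
    rw [inv_le_comm₀ hden0 (by positivity)]
    rw [inv_div]; exact hden
  have hθl : 1 / (2 * C ^ 2) ≤ ‖θ‖ := by
    rw [hθn, one_div]
    apply inv_anti₀ hden0
    calc ‖w * c + conj w * d‖ ≤ ‖w * c‖ + ‖conj w * d‖ := norm_add_le _ _
      _ = ‖w‖ * ‖c‖ + ‖w‖ * ‖d‖ := by rw [norm_mul, norm_mul, RCLike.norm_conj]
      _ ≤ C * C + C * C := by gcongr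
      _ = 2 * C ^ 2 := by ring
  have hwne : w ≠ 0 := by
    rintro rfl
    simp at h1
    linarith
  have hw0 : 0 < ‖w‖ := norm_pos_iff.2 hwne
  have hlin : w * (θ * c) + conj w * (θ * d) = 1 := by
    rw [hθ]
    field_simp
  have hre : ∀ z : ℂ, θ * z = z * conj (w * c + conj w * d) * ((‖θ‖ ^ 2 : ℝ) : ℂ) := by
    intro z
    have : θ = conj (w * c + conj w * d) * ((‖θ‖ ^ 2 : ℝ) : ℂ) := by
      have f1 : ((‖θ‖ ^ 2 : ℝ) : ℂ) = θ * conj θ := by
        rw [Complex.mul_conj, Complex.normSq_eq_norm_sq]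
      have f2 : (w * c + conj w * d) * θ = 1 := by rw [hθ]; exact mul_inv_cancel₀ hdne
      have f3 := congrArg conj f2
      rw [map_mul, map_one] at f3
      rw [f1]
      linear_combination (-θ) * f3
    conv_lhs => rw [this]
    ring
  have hcre : (θ * c).re = ((w * (c * conj d)).re + w.re * ‖c‖ ^ 2) * ‖θ‖ ^ 2 := by
    have hc2 : ‖c‖ ^ 2 = c.re ^ 2 + c.im ^ 2 := by rw [Complex.sq_norm, Complex.normSq_apply]; ring
    rw [hre c, Complex.re_mul_ofReal, hc2]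
    congr 1
    simp
    ring
  have hdre : (θ * d).re = ((w * (c * conj d)).re + w.re * ‖d‖ ^ 2) * ‖θ‖ ^ 2 := by
    have hc2 : ‖d‖ ^ 2 = d.re ^ 2 + d.im ^ 2 := by rw [Complex.sq_norm, Complex.normSq_apply]; ring
    rw [hre d, Complex.re_mul_ofReal, hc2]
    congr 1
    simp
    ring
  have hw1 : 0 ≤ w.re := by linarith
  have hw2 : 0 ≤ (w * (c * conj d)).re := by linarith
  refine ⟨by rw [hcre]; positivity, by rw [hdre]; positivity, ?_, ?_⟩
  · have e1 := (Complex.re_le_norm (θ * c))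
    have e2 := (Complex.re_le_norm (θ * d))
    rw [norm_mul] at e1 e2
    have e3 : ‖θ‖ * ‖c‖ ≤ C / η * C := by gcongr
    have e4 : ‖θ‖ * ‖d‖ ≤ C / η * C := by gcongr
    linarith
  · rw [← pw1 hwne hlin]
    have e1 : w * (θ * c * conj (θ * d)) = w * (c * conj d) * ((‖θ‖ ^ 2 : ℝ) : ℂ) := by
      rw [Complex.sq_norm, ← Complex.mul_conj]
      simp
      ring
    rw [e1, Complex.re_mul_ofReal]
    have e2 : η ^ 2 / (2 * C ^ 3) ^ 2 ≤ w.re * ((w * (c * conj d)).re * ‖θ‖ ^ 2) / ‖w‖ ^ 2 := by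
      rw [div_le_div_iff₀ (by positivity) (by positivity)]
      have e3 : 1 ≤ ‖θ‖ * (2 * C ^ 2) := by
        rw [div_le_iff₀ (by positivity)] at hθl
        exact hθl
      calc η ^ 2 * ‖w‖ ^ 2 ≤ η ^ 2 * C ^ 2 := by gcongr
        _ = (η * (η * 1 ^ 2)) * C ^ 2 := by ring
        _ ≤ (w.re * ((w * (c * conj d)).re * (‖θ‖ * (2 * C ^ 2)) ^ 2)) * C ^ 2 := by gcongr
        _ = _ := by ring
    linarith

end Pool.Agent.H798R2.SE
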