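import Pool.Agent.H798R2.SE.Sel
import Pool.Agent.H798R2.SE.Pw
set_option autoImplicit false
open MeasureTheory Filter Topology Set
open scoped ComplexConjugate

namespace Pool.Agent.H798R2.SE

/-- strongly elliptic -/
def SEll (X : L2 →L[ℂ] L2) : Prop :=
  ∃ D K : L2 →L[ℂ] L2, IsSelfAdjoint D ∧ IsCompactOperator K ∧
    (∃ c : ℝ, 0 < c ∧ ∀ x : L2, c * ‖x‖ ^ 2 ≤ (inner ℂ (D x) x).re) ∧
    (1/2 : ℂ) • (X + ContinuousLinearMap.adjoint X) = D + K

theorem conj_half : conj (1/2 : ℂ) = 1/2 := by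
  rw [map_div₀, map_one, map_ofNat]

theorem compact_smul {A : L2 →L[ℂ] L2} (hA : IsCompactOperator A) (z : ℂ) :
    IsCompactOperator (z • A : L2 →L[ℂ] L2) := hA.smul z

theorem compact_add {A B : L2 →L[ℂ] L2} (hA : IsCompactOperator A) (hB : IsCompactOperator B) :
    IsCompactOperator (A + B : L2 →L[ℂ] L2) := hA.add hB

theorem compact_comp_left {A : L2 →L[ℂ] L2} (hA : IsCompactOperator A) (B : L2 →L[ℂ] L2) :
    IsCompactOperator (B.comp A : L2 →L[ℂ] L2) := hA.clm_comp B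

theorem compact_comp_right {A : L2 →L[ℂ] L2} (hA : IsCompactOperator A) (B : L2 →L[ℂ] L2) :
    IsCompactOperator (A.comp B : L2 →L[ℂ] L2) := hA.comp_clm B

noncomputable def Pp (S : L2 →L[ℂ] L2) : L2 →L[ℂ] L2 := (1/2 : ℂ) • (ContinuousLinearMap.id ℂ L2 + S)
noncomputable def Pm (S : L2 →L[ℂ] L2) : L2 →L[ℂ] L2 := (1/2 : ℂ) • (ContinuousLinearMap.id ℂ L2 - S)

theorem adj_Pp {S : L2 →L[ℂ] L2} (hS : IsS S) : ContinuousLinearMap.adjoint (Pp S) = Pp S := by
  unfold Pp
  rw [map_smulₛₗ, map_add, hS.adjoint, conj_half]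
  congr 2
  exact ContinuousLinearMap.adjoint_id
 
theorem adj_Pm {S : L2 →L[ℂ] L2} (hS : IsS S) : ContinuousLinearMap.adjoint (Pm S) = Pm S := by
  unfold Pm
  rw [map_smulₛₗ, map_sub, hS.adjoint, conj_half]
  congr 2
  exact ContinuousLinearMap.adjoint_id

theorem QMP_compact {S M : L2 →L[ℂ] L2} (hS : IsS S) (ψ : C(TT, ℂ)) (hM : IsMul M ψ) :
    IsCompactOperator ((Pm S).comp (M.comp (Pp S)) : L2 →L[ℂ] L2) := by
  have h1 := compact_smul (compact_comp_left (comm_compact hS ψ hM) (Pm S)) (1/2)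
  have h2 : (1/2 : ℂ) • (Pm S).comp (M.comp S - S.comp M) = (Pm S).comp (M.comp (Pp S)) := by
    ext1 f
    simp only [Pm, Pp, _root_.smul_apply, _root_.add_apply, _root_.sub_apply,
      ContinuousLinearMap.comp_apply, ContinuousLinearMap.id_apply, map_sub, map_add, map_smul,
      hS.sq_apply]
    module
  rwa [h2] at h1

theorem PMQ_compact {S M : L2 →L[ℂ] L2} (hS : IsS S) (ψ : C(TT, ℂ)) (hM : IsMul M ψ) :
    IsCompactOperator ((Pp S).comp (M.comp (Pm S)) : L2 →L[ℂ] L2) := by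
  have h1 := compact_smul (compact_comp_left (comm_compact hS ψ hM) (Pp S)) (-1/2)
  have h2 : (-1/2 : ℂ) • (Pp S).comp (M.comp S - S.comp M) = (Pp S).comp (M.comp (Pm S)) := by
    ext1 f
    simp only [Pm, Pp, _root_.smul_apply, _root_.add_apply, _root_.sub_apply,
      ContinuousLinearMap.comp_apply, ContinuousLinearMap.id_apply, map_sub, map_add, map_smul,
      hS.sq_apply]
    module
  rwa [h2] at h1

theorem PC.inv {f : TT → ℂ} (hf : PC f) {η : ℝ} (hη : 0 < η) (h : ∀ t, η ≤ ‖f t‖) :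
    PC (fun t => (f t)⁻¹) := by
  intro x
  refine ⟨⟨_, (hf.tendsto_l x).inv₀ ?_⟩, ⟨_, (hf.tendsto_r x).inv₀ ?_⟩⟩
  · have := ge_of_tendsto (hf.tendsto_l x).norm (Eventually.of_forall fun s : ℝ => h s)
    intro h0
    rw [h0, norm_zero] at this
    linarith
  · have := ge_of_tendsto (hf.tendsto_r x).norm (Eventually.of_forall fun s : ℝ => h s)
    intro h0
    rw [h0, norm_zero] at this
    linarith

theorem inner_re_adj (X : L2 →L[ℂ] L2) (u : L2) :
    (inner ℂ (((1/2 : ℂ) • (X + ContinuousLinearMap.adjoint X)) u) u).re =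
      (inner ℂ (X u) u).re := by
  rw [_root_.smul_apply, _root_.add_apply, inner_smul_left, inner_add_left,
    ContinuousLinearMap.adjoint_inner_left, conj_half]
  have : inner ℂ u (X u) = conj (inner ℂ (X u) u) := (inner_conj_symm _ _).symm
  rw [this, Complex.add_conj]
  have h2 : (1/2 : ℂ) * ((2 * (inner ℂ (X u) u).re : ℝ) : ℂ) = (((inner ℂ (X u) u).re : ℝ) : ℂ) := by
    push_cast
    ring
  rw [h2, Complex.ofReal_re]

theorem selfAdj_half (X : L2 →L[ℂ] L2) :
    IsSelfAdjoint ((1/2 : ℂ) • (X + ContinuousLinearMap.adjoint X)) := by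
  rw [isSelfAdjoint_iff, ContinuousLinearMap.star_eq_adjoint, map_smulₛₗ, map_add, conj_half,
    ContinuousLinearMap.adjoint_adjoint, add_comm]

theorem fwd {a b : TT → ℂ} (ha : PC a) (hb : PC b) {S Ma Mb : L2 →L[ℂ] L2} (hS : IsS S)
    (hMa : IsMul Ma a) (hMb : IsMul Mb b)
    (h3 : Cond3 (fun x => a x + b x) (fun x => a x - b x)) :
    ∃ Θ : TT → ℂ, PC Θ ∧ (∀ t, Θ t ≠ 0) ∧ (∃ η : ℝ, 0 < η ∧ ∀ t, η ≤ ‖Θ t‖) ∧
      ∀ MΘ, IsMul MΘ Θ → SEll (MΘ.comp (Ma + Mb.comp S)) := by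
  set c : TT → ℂ := fun x => a x + b x with hc
  set d : TT → ℂ := fun x => a x - b x with hd
  have hcPC : PC c := ha.add hb
  have hdPC : PC d := ha.sub hb
  obtain ⟨ω, η, hη, hω⟩ := exists_omega' hcPC hdPC h3
  obtain ⟨C1, hC10, hC1⟩ := hcPC.rlim_pc.bounded
  obtain ⟨C2, hC20, hC2⟩ := hdPC.rlim_pc.bounded
  set C := C1 + C2 + ‖ω‖ with hCdef
  have hω0 : 0 ≤ ‖ω‖ := norm_nonneg _
  have hC0 : 0 < C := by positivity
  have bc : ∀ t, ‖rlim c t‖ ≤ C := fun t => (hC1 t).trans (by linarith)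
  have bd : ∀ t, ‖rlim d t‖ ≤ C := fun t => (hC2 t).trans (by linarith)
  have bω : ∀ t, ‖ω t‖ ≤ C := fun t => (ω.norm_coe_le_norm t).trans (by linarith)
  have hωPC : PC ω := PC.of_continuous ω.continuous
  set den : TT → ℂ := fun t => ω t * rlim c t + conj (ω t) * rlim d t with hden
  have hdenPC : PC den := (hωPC.mul hcPC.rlim_pc).add (hωPC.conj.mul hdPC.rlim_pc)
  have hdenb : ∀ t, η / C ≤ ‖den t‖ := fun t =>
    pw2 hη hC0 (hω t).1 (hω t).2 (bd t)
  have hdenu : ∀ t, ‖den t‖ ≤ 2 * C ^ 2 := fun t => by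
    calc ‖den t‖ ≤ ‖ω t * rlim c t‖ + ‖conj (ω t) * rlim d t‖ := norm_add_le _ _
      _ = ‖ω t‖ * ‖rlim c t‖ + ‖ω t‖ * ‖rlim d t‖ := by rw [norm_mul, norm_mul, RCLike.norm_conj]
      _ ≤ C * C + C * C := by
        gcongr
        · exact bω t
        · exact bc t
        · exact bω t
        · exact bd t
      _ = 2 * C ^ 2 := by ring
  have hdenpos : ∀ t, 0 < ‖den t‖ := fun t => lt_of_lt_of_le (by positivity) (hdenb t)
  refine ⟨fun t => (den t)⁻¹, hdenPC.inv (by positivity) hdenb,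
    fun t => inv_ne_zero (norm_pos_iff.1 (hdenpos t)), ⟨(2 * C ^ 2)⁻¹, by positivity, fun t => ?_⟩,
    fun MΘ hMΘ => ?_⟩
  · rw [norm_inv]
    exact inv_anti₀ (hdenpos t) (hdenu t)
  -- the continuous function `ψ = 1 / ω`
  have hωne : ∀ t, ω t ≠ 0 := fun t h0 => by
    have := (hω t).1
    rw [h0] at this
    simp at this
    linarith
  let ψ : C(TT, ℂ) := ⟨fun t => (ω t)⁻¹, ω.continuous.inv₀ hωne⟩
  let ψ' : C(TT, ℂ) := ⟨fun t => conj (ω t)⁻¹, Complex.continuous_conj.comp (ω.continuous.inv₀ hωne)⟩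
  obtain ⟨Λ, hΛ⟩ := exists_mulC
  set M := Λ ψ with hM
  have hMψ : IsMul M ψ := hΛ ψ
  have hadjM : ContinuousLinearMap.adjoint M = Λ ψ' := (hMψ).adjoint (hΛ ψ')
  set X := MΘ.comp (Ma + Mb.comp S) with hX
  set N := (Pm S).comp (M.comp (Pp S)) with hN
  have hNc : IsCompactOperator N := QMP_compact hS ψ hMψ
  have hNadj : ContinuousLinearMap.adjoint N = (Pp S).comp ((Λ ψ').comp (Pm S)) := by
    rw [hN, ContinuousLinearMap.adjoint_comp, ContinuousLinearMap.adjoint_comp, adj_Pm hS,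
      adj_Pp hS, hadjM, ContinuousLinearMap.comp_assoc]
  have hNac : IsCompactOperator (ContinuousLinearMap.adjoint N) := by
    rw [hNadj]
    exact PMQ_compact hS ψ' (hΛ ψ')
  set K := (1/2 : ℂ) • (N + ContinuousLinearMap.adjoint N) with hK
  set B := 2 * C * (C / η) with hB
  set D0 := η ^ 2 / (2 * C ^ 3) ^ 2 with hD0
  have hB0 : 0 < B := by positivity
  have hD00 : 0 < D0 := by positivity
  set κ := D0 / B with hκ
  have hκ0 : 0 < κ := by positivity
  refine ⟨(1/2 : ℂ) • (X + ContinuousLinearMap.adjoint X) - K, K,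
    (selfAdj_half X).sub (selfAdj_half N), ?_, ⟨κ / 2, by positivity, fun u => ?_⟩, by abel⟩
  · exact compact_smul (compact_add hNc hNac) _
  -- the main estimate
  set f := Pp S u with hf
  set g := Pm S u with hg
  have hu : u = f + g := by
    simp only [hf, hg, Pp, Pm, _root_.smul_apply, _root_.add_apply, _root_.sub_apply,
      ContinuousLinearMap.id_apply]
    module
  have hSu : S u = f - g := by
    simp only [hf, hg, Pp, Pm, _root_.smul_apply, _root_.add_apply, _root_.sub_apply,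
      ContinuousLinearMap.id_apply]
    module
  have hre1 : (inner ℂ (((1/2 : ℂ) • (X + ContinuousLinearMap.adjoint X) - K) u) u).re =
      (inner ℂ (X u) u).re - (inner ℂ (M f) g).re := by
    rw [_root_.sub_apply, inner_sub_left, Complex.sub_re, inner_re_adj, hK, inner_re_adj]
    congr 2
    rw [hN, ContinuousLinearMap.comp_apply, ContinuousLinearMap.comp_apply,
      ← ContinuousLinearMap.adjoint_inner_right, adj_Pm hS]
  have hmain : 0 ≤ (inner ℂ (X u) u - inner ℂ (M f) g - (κ : ℂ) * inner ℂ f f -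
      (κ : ℂ) * inner ℂ g g).re := by
    rw [L2.inner_def, L2.inner_def, L2.inner_def, L2.inner_def, ← integral_const_mul,
      ← integral_const_mul, ← integral_sub, ← integral_sub, ← integral_sub]
    · rw [← RCLike.re_eq_complex_re, ← integral_re]
      · apply integral_nonneg_of_ae
        filter_upwards [hMΘ ((Ma + Mb.comp S) u), hMa u, hMb (S u),
          Lp.coeFn_add (Ma u) (Mb (S u)), hMψ f, Lp.coeFn_add f g, Lp.coeFn_sub f g,
          hcPC.ae_eq_rlim, hdPC.ae_eq_rlim] with x e1 e2 e3 e4 e5 e6 e7 e8 e9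
        have hux : u x = f x + g x := by rw [← Pi.add_apply, ← e6, ← hu]
        have hSux : (S u) x = f x - g x := by rw [← Pi.sub_apply, ← e7, ← hSu]
        have hXx : (X u) x = (den x)⁻¹ * (rlim c x * f x + rlim d x * g x) := by
          rw [hX, ContinuousLinearMap.comp_apply, e1, _root_.add_apply,
            ContinuousLinearMap.comp_apply, e4, Pi.add_apply, e2, e3, hux, hSux, ← e8, ← e9, hc, hd]
          ring
        rw [hXx, e5]
        show (0 : ℝ) ≤ RCLike.re _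
        rw [RCLike.re_eq_complex_re]
        obtain ⟨q1, q2, q3, q4⟩ := pw3 hη hC0 (hω x).1 (hω x).2 (bc x) (bd x) (bω x)
          (θ := (den x)⁻¹) rfl
        have hq := quad (f := f x) (g := g x) q1 q2 q3 hB0 hD00 q4
        rw [← hκ] at hq
        have n1 : ‖f x‖ ^ 2 = (f x).re ^ 2 + (f x).im ^ 2 := by
          rw [Complex.sq_norm, Complex.normSq_apply]; ring
        have n2 : ‖g x‖ ^ 2 = (g x).re ^ 2 + (g x).im ^ 2 := by
          rw [Complex.sq_norm, Complex.normSq_apply]; ring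
        have key : ∀ (γ δ p F G : ℂ) (k : ℝ), ‖F‖ ^ 2 = F.re ^ 2 + F.im ^ 2 →
            ‖G‖ ^ 2 = G.re ^ 2 + G.im ^ 2 →
            (inner ℂ (γ * F + δ * G) (F + G) - inner ℂ (p * F) G - (k : ℂ) * inner ℂ F F -
              (k : ℂ) * inner ℂ G G : ℂ).re =
            γ.re * ‖F‖ ^ 2 + δ.re * ‖G‖ ^ 2 + ((γ + conj δ - p) * (F * conj G)).re -
              k * (‖F‖ ^ 2 + ‖G‖ ^ 2) := by
          intro γ δ p F G k h1 h2
          rw [h1, h2]
          simp only [RCLike.inner_apply]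
          simp
          ring
        have e10 : (den x)⁻¹ * (rlim c x * f x + rlim d x * g x) =
            ((den x)⁻¹ * rlim c x) * f x + ((den x)⁻¹ * rlim d x) * g x := by ring
        rw [e10, hux, key _ _ _ _ _ _ n1 n2]
        have : (ψ x : ℂ) = (ω x)⁻¹ := rfl
        rw [this]
        linarith
      · exact (((L2.integrable_inner (X u) u).sub (L2.integrable_inner (M f) g)).sub
          ((L2.integrable_inner f f).const_mul _)).sub ((L2.integrable_inner g g).const_mul _)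
    · exact ((L2.integrable_inner (X u) u).sub (L2.integrable_inner (M f) g)).sub
          ((L2.integrable_inner f f).const_mul _)
    · exact (L2.integrable_inner g g).const_mul _
    · exact (L2.integrable_inner (X u) u).sub (L2.integrable_inner (M f) g)
    · exact (L2.integrable_inner f f).const_mul _
    · exact L2.integrable_inner (X u) u
    · exact L2.integrable_inner (M f) g
  have hff : inner ℂ f f = ((‖f‖ ^ 2 : ℝ) : ℂ) := by
    rw [inner_self_eq_norm_sq_to_K]; push_cast; rfl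
  have hgg : inner ℂ g g = ((‖g‖ ^ 2 : ℝ) : ℂ) := by
    rw [inner_self_eq_norm_sq_to_K]; push_cast; rfl
  rw [hff, hgg, ← Complex.ofReal_mul, ← Complex.ofReal_mul, Complex.sub_re, Complex.sub_re,
    Complex.sub_re, Complex.ofReal_re, Complex.ofReal_re] at hmain
  rw [hre1]
  have hun : ‖u‖ ^ 2 ≤ 2 * (‖f‖ ^ 2 + ‖g‖ ^ 2) := by
    have h1 : ‖u‖ ≤ ‖f‖ + ‖g‖ := by
      rw [hu]; exact norm_add_le _ _
    have h2 : ‖u‖ ^ 2 ≤ (‖f‖ + ‖g‖) ^ 2 := by gcongr
    nlinarith [sq_nonneg (‖f‖ - ‖g‖)]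
  have : κ / 2 * ‖u‖ ^ 2 ≤ κ / 2 * (2 * (‖f‖ ^ 2 + ‖g‖ ^ 2)) := by gcongr
  linarith

end Pool.Agent.H798R2.SE
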