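import Pool.Agent.H798R2.SE.PC
set_option autoImplicit false
open MeasureTheory Filter Topology Set
open scoped ComplexConjugate

namespace Pool.Agent.H798R2.SE

/-- kernel -/
noncomputable def kk (κ : ℝ) (y : ℝ) : ℝ := (2 * Real.sin (Real.pi * y)) ^ (-1 + 2 * κ)

theorem sin_low {y : ℝ} (h0 : 0 ≤ y) (h1 : y ≤ 1/2) : 4 * y ≤ 2 * Real.sin (Real.pi * y) := by
  have hpi := Real.pi_pos
  have h := Real.mul_le_sin (x := Real.pi * y) (by positivity) (by nlinarith)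
  have e : 2 / Real.pi * (Real.pi * y) = 2 * y := by field_simp
  rw [e] at h
  linarith

theorem sin_up {y : ℝ} (h0 : 0 ≤ y) : 2 * Real.sin (Real.pi * y) ≤ 2 * Real.pi * y := by
  have hpi := Real.pi_pos
  have := Real.sin_le (x := Real.pi * y) (by positivity)
  linarith

theorem kk_nonneg {κ y : ℝ} (h0 : 0 ≤ y) (h1 : y ≤ 1/2) : 0 ≤ kk κ y := by
  apply Real.rpow_nonneg
  have := sin_low h0 h1
  linarith

theorem kk_le {κ y : ℝ} (hκ1 : κ ≤ 1/2) (h0 : 0 < y) (h1 : y ≤ 1/2) :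
    kk κ y ≤ 4 ^ (-1 + 2 * κ) * y ^ (-1 + 2 * κ) := by
  rw [← Real.mul_rpow (by norm_num) h0.le]
  exact Real.rpow_le_rpow_of_nonpos (by positivity) (sin_low h0.le h1) (by linarith)

theorem kk_ge {κ y : ℝ} (hκ1 : κ ≤ 1/2) (h0 : 0 < y) (h1 : y ≤ 1/2) :
    (2 * Real.pi) ^ (-1 + 2 * κ) * y ^ (-1 + 2 * κ) ≤ kk κ y := by
  have hpi := Real.pi_pos
  rw [← Real.mul_rpow (by positivity) h0.le]
  refine Real.rpow_le_rpow_of_nonpos ?_ (sin_up h0.le) (by linarith)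
  have := sin_low h0.le h1
  linarith

theorem kk_far {κ y δ : ℝ} (hκ0 : 0 ≤ κ) (hκ1 : κ ≤ 1/2) (hδ : 0 < δ) (h0 : δ ≤ y) (h1 : y ≤ 1/2) :
    kk κ y ≤ (min (4 * δ) 1)⁻¹ := by
  have hm : 0 < min (4 * δ) 1 := lt_min (by positivity) one_pos
  have h2 := sin_low (hδ.le.trans h0) h1
  calc kk κ y ≤ (min (4 * δ) 1) ^ (-1 + 2 * κ) := by
        apply Real.rpow_le_rpow_of_nonpos hm _ (by linarith)
        exact (min_le_left _ _).trans (by linarith)
    _ ≤ (min (4 * δ) 1) ^ (-1 : ℝ) :=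
        Real.rpow_le_rpow_of_exponent_ge hm (min_le_right _ _) (by linarith)
    _ = _ := Real.rpow_neg_one _

theorem measurable_kk (κ : ℝ) : Measurable (kk κ) := by
  unfold kk
  exact (((Real.measurable_sin.comp (measurable_const.mul measurable_id)).const_mul 2).pow_const _)

theorem kk_int {κ : ℝ} (hκ0 : 0 < κ) (hκ1 : κ ≤ 1/2) :
    IntervalIntegrable (kk κ) volume 0 (1/2) := by
  have h1 : IntervalIntegrable (fun y : ℝ => 4 ^ (-1 + 2 * κ) * y ^ (-1 + 2 * κ)) volume 0 (1/2) :=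
    (intervalIntegral.intervalIntegrable_rpow' (by linarith)).const_mul _
  refine h1.mono_fun (measurable_kk κ).aestronglyMeasurable ?_
  rw [uIoc_of_le (by norm_num)]
  refine (ae_restrict_iff' measurableSet_Ioc).2 (Eventually.of_forall fun y hy => ?_)
  beta_reduce
  rw [Real.norm_of_nonneg (kk_nonneg hy.1.le hy.2), Real.norm_of_nonneg]
  · exact kk_le hκ1 hy.1 hy.2
  · have := hy.1
    positivity

noncomputable def JJ (κ : ℝ) : ℝ := ∫ y in (0:ℝ)..(1/2), kk κ y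

theorem JJ_ge {κ : ℝ} (hκ0 : 0 < κ) (hκ1 : κ ≤ 1/2) : 1 / (4 * Real.pi * κ) ≤ JJ κ := by
  have hpi := Real.pi_pos
  have h1 : IntervalIntegrable (fun y : ℝ => (2 * Real.pi) ^ (-1 + 2 * κ) * y ^ (-1 + 2 * κ))
      volume 0 (1/2) :=
    (intervalIntegral.intervalIntegrable_rpow' (by linarith)).const_mul _
  have h2 : ∫ y in (0:ℝ)..(1/2), (2 * Real.pi) ^ (-1 + 2 * κ) * y ^ (-1 + 2 * κ) ≤ JJ κ := by
    refine intervalIntegral.integral_mono_on_of_le_Ioo (by norm_num) h1 (kk_int hκ0 hκ1) ?_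
    intro y hy
    exact kk_ge hκ1 hy.1 hy.2.le
  refine le_trans ?_ h2
  rw [intervalIntegral.integral_const_mul, integral_rpow (Or.inl (by linarith))]
  have e1 : -1 + 2 * κ + 1 = 2 * κ := by ring
  rw [e1, Real.zero_rpow (by positivity), sub_zero]
  have e2 : (2 * Real.pi) ^ (-1 + 2 * κ) = (2 * Real.pi) ^ (2 * κ) / (2 * Real.pi) := by
    rw [show -1 + 2 * κ = 2 * κ - 1 by ring, Real.rpow_sub (by positivity), Real.rpow_one]
  rw [e2]
  have e3 : (2 * Real.pi) ^ (2 * κ) / (2 * Real.pi) * ((1 / 2) ^ (2 * κ) / (2 * κ)) =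
      Real.pi ^ (2 * κ) / (4 * Real.pi * κ) := by
    have : (2 * Real.pi) ^ (2 * κ) * (1 / 2) ^ (2 * κ) = Real.pi ^ (2 * κ) := by
      rw [← Real.mul_rpow (by positivity) (by positivity)]
      congr 1
      ring
    rw [div_mul_div_comm, this]
    congr 1
    ring
  rw [e3]
  have : 1 ≤ Real.pi ^ (2 * κ) := Real.one_le_rpow (by linarith [Real.pi_gt_three]) (by positivity)
  gcongr

theorem JJ_pos {κ : ℝ} (hκ0 : 0 < κ) (hκ1 : κ ≤ 1/2) : 0 < JJ κ := by
  have hpi := Real.pi_pos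
  exact lt_of_lt_of_le (by positivity) (JJ_ge hκ0 hκ1)

theorem JJ_tendsto {κ : ℕ → ℝ} (hκ : ∀ n, 0 < κ n ∧ κ n ≤ 1/2) (h0 : Tendsto κ atTop (𝓝 0)) :
    Tendsto (fun n => JJ (κ n)) atTop atTop := by
  have hpi := Real.pi_pos
  refine tendsto_atTop_mono (fun n => JJ_ge (hκ n).1 (hκ n).2) ?_
  have h1 : Tendsto (fun n => 4 * Real.pi * κ n) atTop (𝓝[>] 0) := by
    rw [tendsto_nhdsWithin_iff]
    refine ⟨?_, Eventually.of_forall fun n => ?_⟩
    · simpa using h0.const_mul (4 * Real.pi)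
    · have := (hκ n).1
      exact mem_Ioi.2 (by positivity)
  have h2 := tendsto_inv_nhdsGT_zero.comp h1
  refine h2.congr fun n => ?_
  rw [Function.comp_apply, one_div]

theorem kh_int {κ M : ℝ} (hκ0 : 0 < κ) (hκ1 : κ ≤ 1/2) {h : ℝ → ℂ} (hmeas : Measurable h)
    (hM : ∀ y, ‖h y‖ ≤ M) : IntervalIntegrable (fun y => (kk κ y : ℂ) * h y) volume 0 (1/2) := by
  refine ((kk_int hκ0 hκ1).const_mul M).mono_fun
    ((Complex.measurable_ofReal.comp (measurable_kk κ)).mul hmeas).aestronglyMeasurable ?_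
  refine Eventually.of_forall fun y => ?_
  beta_reduce
  rw [norm_mul, Complex.norm_real, norm_mul, mul_comm]
  gcongr
  exact (hM y).trans (le_abs_self _)

theorem lim_kernel {κ : ℕ → ℝ} (hκ : ∀ n, 0 < κ n ∧ κ n ≤ 1/2) (hκ0 : Tendsto κ atTop (𝓝 0))
    {h : ℕ → ℝ → ℂ} (hmeas : ∀ n, Measurable (h n)) {M : ℝ} (hM : ∀ n y, ‖h n y‖ ≤ M) {H : ℂ}
    (hlim : ∀ ε > 0, ∃ δ > 0, ∀ᶠ n in atTop, ∀ y ∈ Ioo 0 δ, ‖h n y - H‖ ≤ ε) :
    Tendsto (fun n => (((JJ (κ n))⁻¹ : ℝ) : ℂ) * ∫ y in (0:ℝ)..(1/2), (kk (κ n) y : ℂ) * h n y)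
      atTop (𝓝 H) := by
  rw [Metric.tendsto_nhds]
  intro ε hε
  obtain ⟨δ, hδ, hN⟩ := hlim (ε / 2) (half_pos hε)
  have hM0 : 0 ≤ M := (norm_nonneg _).trans (hM 0 0)
  set C := (min (4 * δ) 1)⁻¹ * (M + ‖H‖) with hC
  have hC0 : 0 ≤ C := by
    have hm : 0 < min (4 * δ) 1 := lt_min (by positivity) one_pos
    positivity
  have hJ := JJ_tendsto hκ hκ0
  have hJ2 : ∀ᶠ n in atTop, C + 1 < ε / 2 * JJ (κ n) := by
    have := hJ.const_mul_atTop (half_pos hε)
    exact this.eventually_gt_atTop _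
  filter_upwards [hN, hJ2] with n hn hn2
  have hJp := JJ_pos (hκ n).1 (hκ n).2
  have i1 := kk_int (hκ n).1 (hκ n).2
  have i1c : IntervalIntegrable (fun y => (kk (κ n) y : ℂ) * H) volume 0 (1/2) :=
    kh_int (hκ n).1 (hκ n).2 measurable_const (fun _ => le_rfl)
  have i2 := kh_int (hκ n).1 (hκ n).2 (hmeas n) (hM n)
  have e1 : (JJ (κ n) : ℂ) * H = ∫ y in (0:ℝ)..(1/2), (kk (κ n) y : ℂ) * H := by
    rw [intervalIntegral.integral_mul_const, intervalIntegral.integral_ofReal, JJ]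
  have e2 : (((JJ (κ n))⁻¹ : ℝ) : ℂ) * (∫ y in (0:ℝ)..(1/2), (kk (κ n) y : ℂ) * h n y) - H =
      (((JJ (κ n))⁻¹ : ℝ) : ℂ) * ∫ y in (0:ℝ)..(1/2), (kk (κ n) y : ℂ) * (h n y - H) := by
    have e3 : ∫ y in (0:ℝ)..(1/2), (kk (κ n) y : ℂ) * (h n y - H) =
        (∫ y in (0:ℝ)..(1/2), (kk (κ n) y : ℂ) * h n y) - (JJ (κ n) : ℂ) * H := by
      rw [e1, ← intervalIntegral.integral_sub i2 i1c]
      congr 1
      funext y
      ring
    rw [e3]
    have : (JJ (κ n) : ℂ) ≠ 0 := by exact_mod_cast hJp.ne'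
    push_cast
    field_simp
  rw [dist_eq_norm, e2, norm_mul, Complex.norm_real, norm_inv, Real.norm_of_nonneg hJp.le]
  have i3 : IntervalIntegrable (fun y => (kk (κ n) y : ℂ) * (h n y - H)) volume 0 (1/2) :=
    kh_int (hκ n).1 (hκ n).2 ((hmeas n).sub measurable_const)
      (fun y => (norm_sub_le _ _).trans (add_le_add_left (hM n y) _))
  have hb : ‖∫ y in (0:ℝ)..(1/2), (kk (κ n) y : ℂ) * (h n y - H)‖ ≤ ε / 2 * JJ (κ n) + C := by
    calc ‖∫ y in (0:ℝ)..(1/2), (kk (κ n) y : ℂ) * (h n y - H)‖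
        ≤ ∫ y in (0:ℝ)..(1/2), ‖(kk (κ n) y : ℂ) * (h n y - H)‖ :=
          intervalIntegral.norm_integral_le_integral_norm (by norm_num)
      _ ≤ ∫ y in (0:ℝ)..(1/2), (ε / 2 * kk (κ n) y + C) := by
          refine intervalIntegral.integral_mono_on_of_le_Ioo (by norm_num) i3.norm
            ((i1.const_mul _).add intervalIntegrable_const) ?_
          intro y hy
          have hk := kk_nonneg (κ := κ n) hy.1.le hy.2.le
          rw [norm_mul, Complex.norm_real, Real.norm_of_nonneg hk]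
          rcases lt_or_ge y δ with hyd | hyd
          · have := hn y ⟨hy.1, hyd⟩
            nlinarith
          · have h1 := kk_far (hκ n).1.le (hκ n).2 hδ hyd hy.2.le
            have h2 : ‖h n y - H‖ ≤ M + ‖H‖ := (norm_sub_le _ _).trans (add_le_add_left (hM n y) _)
            calc kk (κ n) y * ‖h n y - H‖ ≤ (min (4 * δ) 1)⁻¹ * (M + ‖H‖) := by
                  have hm : 0 < min (4 * δ) 1 := lt_min (by positivity) one_pos
                  gcongr
              _ ≤ _ := by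
                have : 0 ≤ ε / 2 * kk (κ n) y := by positivity
                linarith
      _ = ε / 2 * JJ (κ n) + C * (1/2) := by
          rw [intervalIntegral.integral_add (i1.const_mul _) intervalIntegrable_const,
            intervalIntegral.integral_const_mul, intervalIntegral.integral_const, JJ]
          simp
          ring
      _ ≤ _ := by linarith
  calc (JJ (κ n))⁻¹ * ‖∫ y in (0:ℝ)..(1/2), (kk (κ n) y : ℂ) * (h n y - H)‖
      ≤ (JJ (κ n))⁻¹ * (ε / 2 * JJ (κ n) + C) := by gcongr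
    _ < (JJ (κ n))⁻¹ * (ε / 2 * JJ (κ n) + ε / 2 * JJ (κ n)) := by
        have : 0 < (JJ (κ n))⁻¹ := inv_pos.2 hJp
        apply mul_lt_mul_of_pos_left _ this
        linarith
    _ = ε := by field_simp; ring

end Pool.Agent.H798R2.SE
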