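import Pool.Agent.H798R2.SE.Four
import Pool.Agent.H798R2.SE.Alg
set_option autoImplicit false
open MeasureTheory Filter Topology Set
open scoped ComplexConjugate

namespace Pool.Agent.H798R2.SE

theorem form_alg (gp gm dp dm α β p : ℂ) (m : ℝ) (hm : 0 < m) (hp : p * p = Complex.I)
    (hpn : p * conj p = 1) :
    (conj (gp * (α * (p * m)) + dp * (β * (conj p * (m : ℂ)⁻¹))) *
        (α * (p * m) + β * (conj p * (m : ℂ)⁻¹)) +
      conj (gm * (α * (conj p * (m : ℂ)⁻¹)) + dm * (β * (p * m))) *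
        (α * (conj p * (m : ℂ)⁻¹) + β * (p * m))).re = (m ^ 2)⁻¹ * Phi gp gm dp dm (m ^ 2) α β := by
  have hm0 : (m : ℂ) ≠ 0 := by exact_mod_cast hm.ne'
  have hmm : (m : ℂ) * (m : ℂ)⁻¹ = 1 := mul_inv_cancel₀ hm0
  have hpc : conj p * conj p = -Complex.I := by
    have := congrArg conj hp
    rwa [map_mul, Complex.conj_I] at this
  set mi : ℂ := (m : ℂ)⁻¹ with hmi
  have hmic : conj mi = mi := by rw [hmi, map_inv₀, Complex.conj_ofReal]
  have e1 : conj (gp * (α * (p * m)) + dp * (β * (conj p * mi))) *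
        (α * (p * m) + β * (conj p * mi)) =
      conj gp * (conj α * α) * m ^ 2 + conj dp * (conj β * β) * mi ^ 2 +
        (-Complex.I) * (conj gp * conj α * β) + Complex.I * (conj dp * conj β * α) := by
    simp only [map_add, map_mul, Complex.conj_ofReal, Complex.conj_conj, hmic]
    linear_combination (conj gp * conj α * α * m ^ 2 + conj dp * conj β * β * mi ^ 2) * hpn +
      (conj gp * conj α * β * m * mi) * hpc + (conj gp * conj α * β * (-Complex.I)) * hmm +
      (conj dp * conj β * α * m * mi) * hp + (conj dp * conj β * α * Complex.I) * hmm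
  have e2 : conj (gm * (α * (conj p * mi)) + dm * (β * (p * m))) *
        (α * (conj p * mi) + β * (p * m)) =
      conj gm * (conj α * α) * mi ^ 2 + conj dm * (conj β * β) * m ^ 2 +
        Complex.I * (conj gm * conj α * β) + (-Complex.I) * (conj dm * conj β * α) := by
    simp only [map_add, map_mul, Complex.conj_ofReal, Complex.conj_conj, hmic]
    linear_combination (conj gm * conj α * α * mi ^ 2 + conj dm * conj β * β * m ^ 2) * hpn +
      (conj gm * conj α * β * m * mi) * hp + (conj gm * conj α * β * (Complex.I)) * hmm +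
      (conj dm * conj β * α * m * mi) * hpc + (conj dm * conj β * α * (-Complex.I)) * hmm
  rw [e1, e2]
  have hna : conj α * α = ((‖α‖ ^ 2 : ℝ) : ℂ) := by
    rw [mul_comm, Complex.mul_conj, Complex.normSq_eq_norm_sq]
  have hnb : conj β * β = ((‖β‖ ^ 2 : ℝ) : ℂ) := by
    rw [mul_comm, Complex.mul_conj, Complex.normSq_eq_norm_sq]
  have hmir : mi = ((m⁻¹ : ℝ) : ℂ) := by rw [hmi]; push_cast; rfl
  rw [hna, hnb, hmir, ← Complex.ofReal_pow, ← Complex.ofReal_pow]
  have hr : m * m⁻¹ = 1 := mul_inv_cancel₀ hm.ne'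
  rw [← inv_pow]
  generalize m⁻¹ = q at hr
  simp only [Phi]
  have hq1 : q ^ 2 * m ^ 2 = 1 := by rw [← mul_pow, mul_comm q, hr, one_pow]
  have hq2 : q ^ 2 * (m ^ 2) ^ 2 = m ^ 2 := by rw [pow_two (m ^ 2), ← mul_assoc, hq1, one_mul]
  generalize hM : m ^ 2 = M at *
  generalize hQ : q ^ 2 = Q at *
  generalize ‖α‖ ^ 2 = A
  generalize ‖β‖ ^ 2 = B
  simp
  linear_combination (-(A * gp.re) - B * dm.re) * hq2 +
    (-((-(α.im * β.re) + α.re * β.im) * (gp.re + dp.re - (gm.re + dm.re)) -
      (α.re * β.re + α.im * β.im) * (gp.im - dp.im - (gm.im - dm.im)))) * hq1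

end Pool.Agent.H798R2.SE
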