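import Pool.Agent.H798R2.SE.Lim
set_option autoImplicit false
open MeasureTheory Filter Topology Set
open scoped ComplexConjugate

namespace Pool.Agent.H798R2.SE

noncomputable def kap (n : ℕ) : ℝ := 1 / (2 * ((n:ℝ) + 1))

theorem kap_pos (n : ℕ) : 0 < kap n := by unfold kap; positivity
theorem kap_le (n : ℕ) : kap n ≤ 1/2 := by
  unfold kap
  rw [div_le_div_iff₀ (by positivity) (by norm_num)]
  have : (0:ℝ) ≤ n := Nat.cast_nonneg n
  linarith
theorem kap_tendsto : Tendsto kap atTop (𝓝 0) := by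
  have h := (tendsto_one_div_add_atTop_nhds_zero_nat (𝕜 := ℝ)).const_mul (1/2)
  rw [mul_zero] at h
  refine h.congr fun n => ?_
  unfold kap
  have : (n:ℝ) + 1 ≠ 0 := by positivity
  field_simp

noncomputable def ss (ξ : ℝ) (n : ℕ) : ℂ := ⟨-1/2 + kap n, ξ⟩

theorem ss_low (ξ : ℝ) (n : ℕ) : -1/2 < (ss ξ n).re := by
  show -1/2 < -1/2 + kap n
  have := kap_pos n
  linarith

theorem ss_up (ξ : ℝ) (n : ℕ) : (ss ξ n).re ≤ 0 := by
  show -1/2 + kap n ≤ 0
  have := kap_le n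
  linarith

theorem ss_tendsto (ξ : ℝ) : Tendsto (ss ξ) atTop (𝓝 (⟨-1/2, ξ⟩ : ℂ)) := by
  have h : Tendsto (fun n => (((-1/2 + kap n : ℝ) : ℂ) + (ξ : ℂ) * Complex.I)) atTop
      (𝓝 (((-1/2 + 0 : ℝ) : ℂ) + (ξ : ℂ) * Complex.I)) := by
    apply Tendsto.add_const
    exact (Complex.continuous_ofReal.tendsto _).comp (tendsto_const_nhds.add kap_tendsto)
  have e1 : (((-1/2 + 0 : ℝ) : ℂ) + (ξ : ℂ) * Complex.I) = (⟨-1/2, ξ⟩ : ℂ) := by
    apply Complex.ext <;> simp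
  have e2 : (fun n => (((-1/2 + kap n : ℝ) : ℂ) + (ξ : ℂ) * Complex.I)) = ss ξ := by
    funext n
    unfold ss
    apply Complex.ext <;> simp
  rwa [e1, e2] at h

/-- the bounded factor in the integrand -/
noncomputable def Hn (γ δ : TT → ℂ) (α β s : ℂ) (t z : TT) : ℂ :=
  conj (γ (z + t) * (α * phiF s z) + δ (z + t) * (β * phiG s z)) * (α * phiF s z + β * phiG s z)

theorem norm_phiF_le (s : ℂ) (z : TT) : ‖phiF s z‖ ≤ Real.exp (Real.pi * |s.im|) := by
  unfold phiF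
  rw [Complex.norm_exp]
  gcongr
  have : (Complex.I * (ww z).arg * s).re = -((ww z).arg * s.im) := by simp
  rw [this]
  calc -((ww z).arg * s.im) ≤ |(ww z).arg * s.im| := neg_le_abs _
    _ = |(ww z).arg| * |s.im| := abs_mul _ _
    _ ≤ Real.pi * |s.im| := by gcongr; exact Complex.abs_arg_le_pi _

theorem norm_fourier1 (k : ℤ) (x : TT) : ‖fourier (T := (1:ℝ)) k x‖ = 1 := by
  rw [fourier_apply]; exact Circle.norm_coe _

theorem norm_phiG_le (s : ℂ) (z : TT) : ‖phiG s z‖ ≤ Real.exp (Real.pi * |s.im|) := by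
  unfold phiG
  rw [norm_mul, norm_fourier1, one_mul, Complex.norm_exp]
  gcongr
  have : (-(Complex.I * (ww z).arg * s)).re = ((ww z).arg * s.im) := by simp
  rw [this]
  calc ((ww z).arg * s.im) ≤ |(ww z).arg * s.im| := le_abs_self _
    _ = |(ww z).arg| * |s.im| := abs_mul _ _
    _ ≤ Real.pi * |s.im| := by gcongr; exact Complex.abs_arg_le_pi _

theorem measurable_phiF (s : ℂ) : Measurable (phiF s) := by
  unfold phiF
  have h1 : Measurable fun x : TT => (ww x).arg := Complex.measurable_arg.comp continuous_ww.measurable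
  exact ((Complex.measurable_ofReal.comp h1).const_mul Complex.I |>.mul_const s).cexp

theorem measurable_phiG (s : ℂ) : Measurable (phiG s) := by
  unfold phiG
  have h1 : Measurable fun x : TT => (ww x).arg := Complex.measurable_arg.comp continuous_ww.measurable
  exact ((ContinuousMap.continuous _).measurable).mul
    (((Complex.measurable_ofReal.comp h1).const_mul Complex.I |>.mul_const s).neg).cexp

theorem measurable_Hn {γ δ : TT → ℂ} (hγ : Measurable γ) (hδ : Measurable δ) (α β s : ℂ) (t : TT) :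
    Measurable (Hn γ δ α β s t) := by
  unfold Hn
  have h1 : Measurable fun z : TT => γ (z + t) := hγ.comp (measurable_add_const t)
  have h2 : Measurable fun z : TT => δ (z + t) := hδ.comp (measurable_add_const t)
  have h3 := (measurable_phiF s).const_mul α
  have h4 := (measurable_phiG s).const_mul β
  exact (Complex.continuous_conj.measurable.comp ((h1.mul h3).add (h2.mul h4))).mul (h3.add h4)

theorem norm_Hn_le {γ δ : TT → ℂ} {C : ℝ} (hγ : ∀ z, ‖γ z‖ ≤ C) (hδ : ∀ z, ‖δ z‖ ≤ C)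
    (α β s : ℂ) (t z : TT) :
    ‖Hn γ δ α β s t z‖ ≤ (C * ((‖α‖ + ‖β‖) * Real.exp (Real.pi * |s.im|))) *
      ((‖α‖ + ‖β‖) * Real.exp (Real.pi * |s.im|)) := by
  have hC : 0 ≤ C := (norm_nonneg _).trans (hγ 0)
  set E := Real.exp (Real.pi * |s.im|) with hE
  have h1 : ‖α * phiF s z‖ ≤ ‖α‖ * E := by
    rw [norm_mul]; gcongr; exact norm_phiF_le s z
  have h2 : ‖β * phiG s z‖ ≤ ‖β‖ * E := by
    rw [norm_mul]; gcongr; exact norm_phiG_le s z
  unfold Hn
  rw [norm_mul, RCLike.norm_conj]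
  have h3 : ‖α * phiF s z + β * phiG s z‖ ≤ (‖α‖ + ‖β‖) * E := by
    refine (norm_add_le _ _).trans ?_
    rw [add_mul]
    exact add_le_add h1 h2
  have h4 : ‖γ (z + t) * (α * phiF s z) + δ (z + t) * (β * phiG s z)‖ ≤ C * ((‖α‖ + ‖β‖) * E) := by
    refine (norm_add_le _ _).trans ?_
    rw [norm_mul (γ (z + t)), norm_mul (δ (z + t)), add_mul, mul_add]
    exact add_le_add (mul_le_mul (hγ _) h1 (norm_nonneg _) hC)
      (mul_le_mul (hδ _) h2 (norm_nonneg _) hC)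
  exact mul_le_mul h4 h3 (norm_nonneg _) (by positivity)

/-- the integral in terms of the kernel -/
theorem integral_form (γ δ : TT → ℂ) (α β : ℂ) (ξ : ℝ) (n : ℕ) (t : TT) :
    ∫ z, conj (γ z * (α * FF (ss ξ n) (z - t)) + δ z * (β * GG (ss ξ n) (z - t))) *
      (α * FF (ss ξ n) (z - t) + β * GG (ss ξ n) (z - t)) ∂hm =
    ∫ z, (kT (kap n) z : ℂ) * Hn γ δ α β (ss ξ n) t z ∂hm := by
  rw [← integral_sub_right_eq_self (μ := hm)
    (fun z => (kT (kap n) z : ℂ) * Hn γ δ α β (ss ξ n) t z) t]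
  apply integral_congr_ae
  filter_upwards [(mp_sub t).quasiMeasurePreserving.ae ae_ww_ne] with z hz
  unfold Hn
  rw [sub_add_cancel, FF_eq _ hz, GG_eq _ hz]
  have h1 : (kT (kap n) (z - t) : ℂ) = ee (ss ξ n) (z - t) * conj (ee (ss ξ n) (z - t)) := by
    rw [Complex.mul_conj, Complex.normSq_eq_norm_sq, norm_ee_sq _ hz]
    unfold kT
    have : 2 * (ss ξ n).re = -1 + 2 * kap n := by
      show 2 * (-1/2 + kap n) = _
      ring
    rw [this]
  rw [h1]
  simp only [map_add, map_mul]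
  ring

theorem args_r : Tendsto (fun y : ℝ => (ww (y : TT)).arg) (𝓝[>] 0) (𝓝 (-(Real.pi / 2))) := by
  have h : Tendsto (fun y : ℝ => Real.pi * y - Real.pi / 2) (𝓝[>] 0) (𝓝 (Real.pi * 0 - Real.pi / 2)) := by
    apply Tendsto.mono_left _ nhdsWithin_le_nhds
    exact ((continuous_const.mul continuous_id).sub continuous_const).tendsto 0
  rw [mul_zero, zero_sub] at h
  refine h.congr' ?_
  filter_upwards [Ioo_mem_nhdsGT (show (0:ℝ) < 1 by norm_num)] with y hy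
  exact (arg_ww hy.1 hy.2).symm

theorem args_l : Tendsto (fun y : ℝ => (ww ((-y : ℝ) : TT)).arg) (𝓝[>] 0) (𝓝 (Real.pi / 2)) := by
  have h : Tendsto (fun y : ℝ => -(Real.pi * y - Real.pi / 2)) (𝓝[>] 0)
      (𝓝 (-(Real.pi * 0 - Real.pi / 2))) := by
    apply Tendsto.mono_left _ nhdsWithin_le_nhds
    exact ((continuous_const.mul continuous_id).sub continuous_const).neg.tendsto 0
  rw [mul_zero, zero_sub, neg_neg] at h
  refine h.congr' ?_
  filter_upwards [Ioo_mem_nhdsGT (show (0:ℝ) < 1 by norm_num)] with y hy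
  exact (arg_ww_neg hy.1 hy.2).symm

/-- limit of the bounded factor -/
noncomputable def Psi (α β : ℂ) (G D : ℂ) (a : ℝ) (e s : ℂ) : ℂ :=
  conj (G * (α * Complex.exp (Complex.I * a * s)) +
      D * (β * (e * Complex.exp (-(Complex.I * a * s))))) *
    (α * Complex.exp (Complex.I * a * s) + β * (e * Complex.exp (-(Complex.I * a * s))))

theorem continuous_Psi (α β : ℂ) : Continuous fun q : (ℂ × ℂ) × (ℝ × ℂ) × ℂ =>
    Psi α β q.1.1 q.1.2 q.2.1.1 q.2.1.2 q.2.2 := by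
  unfold Psi
  fun_prop

theorem Hn_eq_Psi (γ δ : TT → ℂ) (α β s : ℂ) (t z : TT) : Hn γ δ α β s t z =
    Psi α β (γ (z + t)) (δ (z + t)) (ww z).arg (fourier (T := (1:ℝ)) (-1) z) s := rfl

theorem Hn_lim {γ δ : TT → ℂ} (α β : ℂ) (ξ : ℝ) (t : TT) (c : ℝ → TT)
    (hc : Tendsto c (𝓝[>] 0) (𝓝 0)) {a : ℝ}
    (ha : Tendsto (fun y : ℝ => (ww (c y)).arg) (𝓝[>] 0) (𝓝 a)) {G D : ℂ}
    (hG : Tendsto (fun y : ℝ => γ (c y + t)) (𝓝[>] 0) (𝓝 G))
    (hD : Tendsto (fun y : ℝ => δ (c y + t)) (𝓝[>] 0) (𝓝 D)) :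
    ∀ ε > 0, ∃ d > 0, ∀ᶠ n : ℕ in atTop, ∀ y ∈ Ioo 0 d,
      ‖Hn γ δ α β (ss ξ n) t (c y) - Psi α β G D a 1 ⟨-1/2, ξ⟩‖ ≤ ε := by
  have hf : Tendsto (fun y : ℝ => fourier (T := (1:ℝ)) (-1) (c y)) (𝓝[>] 0) (𝓝 1) := by
    have h1 := ((fourier (T := (1:ℝ)) (-1)).continuous.tendsto 0).comp hc
    have h2 : fourier (T := (1:ℝ)) (-1) (0 : TT) = 1 := by simp
    rw [h2] at h1
    exact h1
  have hs : Tendsto (fun p : ℕ × ℝ => ss ξ p.1) (atTop ×ˢ 𝓝[>] 0) (𝓝 (⟨-1/2, ξ⟩ : ℂ)) :=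
    (ss_tendsto ξ).comp tendsto_fst
  have hpair : Tendsto (fun p : ℕ × ℝ => (((γ (c p.2 + t), δ (c p.2 + t)),
      ((ww (c p.2)).arg, fourier (T := (1:ℝ)) (-1) (c p.2)), ss ξ p.1) : (ℂ × ℂ) × (ℝ × ℂ) × ℂ))
      (atTop ×ˢ 𝓝[>] 0) (𝓝 ((G, D), (a, 1), ⟨-1/2, ξ⟩)) :=
    ((hG.comp tendsto_snd).prodMk_nhds (hD.comp tendsto_snd)).prodMk_nhds
        (((ha.comp tendsto_snd).prodMk_nhds (hf.comp tendsto_snd)).prodMk_nhds hs)
  have hlim0 := ((continuous_Psi α β).tendsto ((G, D), (a, 1), ⟨-1/2, ξ⟩)).comp hpair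
  have h1 := (Metric.tendsto_nhds.1 hlim0)
  intro ε hε
  have h1 := h1 ε hε
  rw [eventually_prod_iff] at h1
  obtain ⟨pa, hpa, pb, hpb, h2⟩ := h1
  obtain ⟨d, hd, hdb⟩ := mem_nhdsGT_iff_exists_Ioo_subset.1 hpb
  refine ⟨d, hd, ?_⟩
  filter_upwards [hpa] with n hn y hy
  have := h2 hn (hdb hy)
  simp only [Function.comp_apply] at this
  rw [dist_eq_norm] at this
  rw [Hn_eq_Psi]
  exact this.le

theorem map_r (x : ℝ) : Tendsto (fun y : ℝ => y + x) (𝓝[>] 0) (𝓝[>] x) := by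
  rw [tendsto_nhdsWithin_iff]
  constructor
  · have : Tendsto (fun y : ℝ => y + x) (𝓝 0) (𝓝 (0 + x)) := (continuous_add_const x).tendsto 0
    rw [zero_add] at this
    exact this.mono_left nhdsWithin_le_nhds
  · filter_upwards [self_mem_nhdsWithin] with y hy
    have : 0 < y := hy
    exact mem_Ioi.2 (by linarith)

theorem map_l (x : ℝ) : Tendsto (fun y : ℝ => -y + x) (𝓝[>] 0) (𝓝[<] x) := by
  rw [tendsto_nhdsWithin_iff]
  constructor
  · have : Tendsto (fun y : ℝ => -y + x) (𝓝 0) (𝓝 (-0 + x)) :=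
      (continuous_neg.add continuous_const).tendsto 0
    rw [neg_zero, zero_add] at this
    exact this.mono_left nhdsWithin_le_nhds
  · filter_upwards [self_mem_nhdsWithin] with y hy
    have : 0 < y := hy
    exact mem_Iio.2 (by linarith)

theorem coe_tendsto0 : Tendsto (fun y : ℝ => (y : TT)) (𝓝[>] 0) (𝓝 0) := by
  have := tendsto_coe 0 (Ioi 0)
  rwa [AddCircle.coe_zero] at this

theorem coe_neg_tendsto0 : Tendsto (fun y : ℝ => ((-y : ℝ) : TT)) (𝓝[>] 0) (𝓝 0) := by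
  have h : Tendsto (fun y : ℝ => -y) (𝓝[>] 0) (𝓝 0) := by
    have : Tendsto (fun y : ℝ => -y) (𝓝 0) (𝓝 (-0)) := continuous_neg.tendsto 0
    rw [neg_zero] at this
    exact this.mono_left nhdsWithin_le_nhds
  have h2 := ((AddCircle.continuous_mk' (1:ℝ)).tendsto 0).comp h
  exact h2

theorem lim_form {γ δ : TT → ℂ} (hγ : PC γ) (hδ : PC δ) (ξ : ℝ) (α β : ℂ) (x : ℝ) :
    Tendsto (fun n => (JJ (kap n))⁻¹ *
      (∫ z, conj (γ z * (α * FF (ss ξ n) (z - (x : TT))) + δ z * (β * GG (ss ξ n) (z - (x : TT)))) *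
      (α * FF (ss ξ n) (z - (x : TT)) + β * GG (ss ξ n) (z - (x : TT))) ∂hm).re) atTop
    (𝓝 ((Real.exp (Real.pi * ξ))⁻¹ *
      Phi (rlim γ x) (llim γ x) (rlim δ x) (llim δ x) (Real.exp (Real.pi * ξ)) α β)) := by
  obtain ⟨C1, _, hC1⟩ := hγ.bounded
  obtain ⟨C2, _, hC2⟩ := hδ.bounded
  have b1 : ∀ z, ‖γ z‖ ≤ max C1 C2 := fun z => (hC1 z).trans (le_max_left _ _)
  have b2 : ∀ z, ‖δ z‖ ≤ max C1 C2 := fun z => (hC2 z).trans (le_max_right _ _)
  set M := (max C1 C2 * ((‖α‖ + ‖β‖) * Real.exp (Real.pi * |ξ|))) *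
      ((‖α‖ + ‖β‖) * Real.exp (Real.pi * |ξ|)) with hM
  have hbd : ∀ n z, ‖Hn γ δ α β (ss ξ n) x z‖ ≤ M := fun n z => norm_Hn_le b1 b2 α β (ss ξ n) x z
  have hmeas : ∀ n, Measurable (Hn γ δ α β (ss ξ n) x) := fun n =>
    measurable_Hn hγ.measurable hδ.measurable α β _ _
  have hcoe : Measurable fun y : ℝ => (y : TT) := (AddCircle.continuous_mk' (1:ℝ)).measurable
  have hκ : ∀ n, 0 < kap n ∧ kap n ≤ 1/2 := fun n => ⟨kap_pos n, kap_le n⟩
  -- the two limits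
  have hR := lim_kernel hκ kap_tendsto (h := fun n y => Hn γ δ α β (ss ξ n) x (y : TT))
    (fun n => (hmeas n).comp hcoe) (fun n y => hbd n _)
    (Hn_lim α β ξ x (fun y : ℝ => (y : TT)) coe_tendsto0 args_r
      (G := rlim γ x) (D := rlim δ x)
      ((hγ.tendsto_r x).comp (map_r x)) ((hδ.tendsto_r x).comp (map_r x)))
  have hL := lim_kernel hκ kap_tendsto (h := fun n y => Hn γ δ α β (ss ξ n) x ((-y : ℝ) : TT))
    (fun n => (hmeas n).comp (hcoe.comp measurable_neg)) (fun n y => hbd n _)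
    (Hn_lim α β ξ x (fun y : ℝ => ((-y : ℝ) : TT)) coe_neg_tendsto0 args_l
      (G := llim γ x) (D := llim δ x)
      ((hγ.tendsto_l x).comp (map_l x)) ((hδ.tendsto_l x).comp (map_l x)))
  have hsum := (Complex.continuous_re.tendsto _).comp (hR.add hL)
  have hval : (Psi α β (rlim γ x) (rlim δ x) (-(Real.pi / 2)) 1 ⟨-1/2, ξ⟩ +
      Psi α β (llim γ x) (llim δ x) (Real.pi / 2) 1 ⟨-1/2, ξ⟩).re =
      (Real.exp (Real.pi * ξ))⁻¹ *
      Phi (rlim γ x) (llim γ x) (rlim δ x) (llim δ x) (Real.exp (Real.pi * ξ)) α β := by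
    set p : ℂ := Complex.exp (Complex.I * (Real.pi / 4)) with hp
    set m : ℝ := Real.exp (Real.pi * ξ / 2) with hmd
    have hm2 : m ^ 2 = Real.exp (Real.pi * ξ) := by
      rw [hmd, ← Real.exp_nat_mul]; congr 1; push_cast; ring
    have hpp : p * p = Complex.I := by
      rw [hp, ← Complex.exp_add]
      have : Complex.I * (Real.pi / 4) + Complex.I * (Real.pi / 4) =
          (Real.pi / 2 : ℝ) * Complex.I := by push_cast; ring
      rw [this, Complex.exp_mul_I, ← Complex.ofReal_cos, ← Complex.ofReal_sin, Real.cos_pi_div_two,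
        Real.sin_pi_div_two]
      simp
    have hpc : conj p = Complex.exp (-(Complex.I * (Real.pi / 4))) := by
      rw [hp, ← Complex.exp_conj]
      congr 1
      rw [map_mul, Complex.conj_I, map_div₀, Complex.conj_ofReal]
      have : conj (4 : ℂ) = 4 := Complex.conj_ofNat 4
      rw [this]
      ring
    have hpn : p * conj p = 1 := by
      rw [hpc, hp, ← Complex.exp_add, add_neg_cancel, Complex.exp_zero]
    have hmc : (m : ℂ) = Complex.exp (Real.pi * ξ / 2) := by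
      rw [hmd]; push_cast; rfl
    have hmi : (m : ℂ)⁻¹ = Complex.exp (-(Real.pi * ξ / 2)) := by
      rw [hmc, ← Complex.exp_neg]
    have hs : (⟨-1/2, ξ⟩ : ℂ) = -1/2 + ξ * Complex.I := by
      apply Complex.ext <;> simp
    have e1 : Complex.exp (Complex.I * (-(Real.pi / 2) : ℝ) * ⟨-1/2, ξ⟩) = p * m := by
      rw [hp, hmc, ← Complex.exp_add, hs]
      congr 1
      push_cast
      linear_combination (-(Real.pi * ξ / 2) : ℂ) * Complex.I_sq
    have e2 : Complex.exp (-(Complex.I * (-(Real.pi / 2) : ℝ) * ⟨-1/2, ξ⟩)) = conj p * (m : ℂ)⁻¹ := by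
      rw [hpc, hmi, ← Complex.exp_add, hs]
      congr 1
      push_cast
      linear_combination ((Real.pi * ξ / 2) : ℂ) * Complex.I_sq
    have e3 : Complex.exp (Complex.I * (Real.pi / 2 : ℝ) * ⟨-1/2, ξ⟩) = conj p * (m : ℂ)⁻¹ := by
      rw [hpc, hmi, ← Complex.exp_add, hs]
      congr 1
      push_cast
      linear_combination ((Real.pi * ξ / 2) : ℂ) * Complex.I_sq
    have e4 : Complex.exp (-(Complex.I * (Real.pi / 2 : ℝ) * ⟨-1/2, ξ⟩)) = p * m := by
      rw [hp, hmc, ← Complex.exp_add, hs]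
      congr 1
      push_cast
      linear_combination (-(Real.pi * ξ / 2) : ℂ) * Complex.I_sq
    rw [← hm2]
    rw [← form_alg (rlim γ x) (llim γ x) (rlim δ x) (llim δ x) α β p m (Real.exp_pos _) hpp hpn]
    unfold Psi
    rw [e1, e2, e3, e4, one_mul, one_mul]
  rw [hval] at hsum
  refine hsum.congr fun n => ?_
  rw [integral_form, integral_split (kap_pos n) (kap_le n) (hmeas n) (hbd n)]
  simp only [Function.comp_apply]
  rw [← mul_add, Complex.re_ofReal_mul]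

end Pool.Agent.H798R2.SE
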