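import Pool.Agent.H798R2.SE.Basic
set_option autoImplicit false
open MeasureTheory Filter Topology Set
open scoped ComplexConjugate

namespace Pool.Agent.H798R2.SE

/-- one-sided limits exist everywhere -/
def PC (f : TT → ℂ) : Prop :=
  ∀ x : ℝ, (∃ l : ℂ, Tendsto (fun s : ℝ => f (↑s : TT)) (𝓝[<] x) (𝓝 l)) ∧
      (∃ r : ℂ, Tendsto (fun s : ℝ => f (↑s : TT)) (𝓝[>] x) (𝓝 r))

theorem nhds_of_sides {p : TT → Prop} {x : ℝ} (h1 : ∀ᶠ s : ℝ in 𝓝[<] x, p (↑s : TT))
    (h2 : p (↑x : TT)) (h3 : ∀ᶠ s : ℝ in 𝓝[>] x, p (↑s : TT)) : ∀ᶠ t in 𝓝 (↑x : TT), p t := by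
  have h4 : ∀ᶠ s : ℝ in 𝓝 x, p (↑s : TT) := by
    rw [← nhdsLT_sup_nhdsGE, eventually_sup]
    refine ⟨h1, ?_⟩
    rw [← Ioi_insert, nhdsWithin_insert, eventually_sup]
    exact ⟨h2, h3⟩
  rw [show (↑x : TT) = (QuotientAddGroup.mk x : TT) from rfl, QuotientAddGroup.nhds_eq]
  exact h4

theorem ev_ev_right {p : ℝ → Prop} {x : ℝ} (h : ∀ᶠ s in 𝓝[>] x, p s) :
    ∀ᶠ y in 𝓝[>] x, ∀ᶠ s in 𝓝 y, p s := by
  have h1 := eventually_eventually_nhdsWithin.2 h
  filter_upwards [h1, self_mem_nhdsWithin] with y hy hy2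
  rwa [isOpen_Ioi.nhdsWithin_eq hy2] at hy

theorem ev_ev_left {p : ℝ → Prop} {x : ℝ} (h : ∀ᶠ s in 𝓝[<] x, p s) :
    ∀ᶠ y in 𝓝[<] x, ∀ᶠ s in 𝓝 y, p s := by
  have h1 := eventually_eventually_nhdsWithin.2 h
  filter_upwards [h1, self_mem_nhdsWithin] with y hy hy2
  rwa [isOpen_Iio.nhdsWithin_eq hy2] at hy

noncomputable def rlimF (f : TT → ℂ) (x : ℝ) : ℂ := limUnder (𝓝[>] x) (fun s : ℝ => f (↑s : TT))
noncomputable def llimF (f : TT → ℂ) (x : ℝ) : ℂ := limUnder (𝓝[<] x) (fun s : ℝ => f (↑s : TT))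

theorem map_add_Ioi (x : ℝ) : map (fun s : ℝ => s + 1) (𝓝[>] x) = 𝓝[>] (x + 1) := by
  simp

theorem map_add_Iio (x : ℝ) : map (fun s : ℝ => s + 1) (𝓝[<] x) = 𝓝[<] (x + 1) := by
  simp

theorem coe_add_one (s : ℝ) : ((s + 1 : ℝ) : TT) = (s : TT) := by
  rw [AddCircle.coe_add, AddCircle.coe_period, add_zero]

theorem rlimF_periodic (f : TT → ℂ) : Function.Periodic (rlimF f) 1 := by
  intro x
  unfold rlimF limUnder
  rw [← map_add_Ioi, Filter.map_map]
  congr 2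
  funext s
  show f _ = f _
  rw [coe_add_one]

theorem llimF_periodic (f : TT → ℂ) : Function.Periodic (llimF f) 1 := by
  intro x
  unfold llimF limUnder
  rw [← map_add_Iio, Filter.map_map]
  congr 2
  funext s
  show f _ = f _
  rw [coe_add_one]

noncomputable def rlim (f : TT → ℂ) : TT → ℂ := (rlimF_periodic f).lift
noncomputable def llim (f : TT → ℂ) : TT → ℂ := (llimF_periodic f).lift

theorem PC.tendsto_r {f : TT → ℂ} (hf : PC f) (x : ℝ) :
    Tendsto (fun s : ℝ => f (↑s : TT)) (𝓝[>] x) (𝓝 (rlim f x)) := by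
  have : rlim f (x : TT) = rlimF f x := (rlimF_periodic f).lift_coe x
  rw [this]
  exact tendsto_nhds_limUnder (hf x).2

theorem PC.tendsto_l {f : TT → ℂ} (hf : PC f) (x : ℝ) :
    Tendsto (fun s : ℝ => f (↑s : TT)) (𝓝[<] x) (𝓝 (llim f x)) := by
  have : llim f (x : TT) = llimF f x := (llimF_periodic f).lift_coe x
  rw [this]
  exact tendsto_nhds_limUnder (hf x).1

attribute [irreducible] rlim llim

theorem PC.rr {f : TT → ℂ} (hf : PC f) (x : ℝ) :
    Tendsto (fun s : ℝ => rlim f (↑s : TT)) (𝓝[>] x) (𝓝 (rlim f x)) := by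
  rw [Metric.tendsto_nhds]
  intro ε hε
  have h1 := (Metric.tendsto_nhds.1 (hf.tendsto_r x)) (ε / 2) (half_pos hε)
  filter_upwards [ev_ev_right h1] with y hy
  have h2 : ∀ᶠ s : ℝ in 𝓝[>] y, dist (f (s : TT)) (rlim f x) ≤ ε / 2 :=
    (hy.filter_mono nhdsWithin_le_nhds).mono fun s hs => hs.le
  have h3 := le_of_tendsto ((hf.tendsto_r y).dist tendsto_const_nhds) h2
  linarith

theorem PC.lr {f : TT → ℂ} (hf : PC f) (x : ℝ) :
    Tendsto (fun s : ℝ => llim f (↑s : TT)) (𝓝[>] x) (𝓝 (rlim f x)) := by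
  rw [Metric.tendsto_nhds]
  intro ε hε
  have h1 := (Metric.tendsto_nhds.1 (hf.tendsto_r x)) (ε / 2) (half_pos hε)
  filter_upwards [ev_ev_right h1] with y hy
  have h2 : ∀ᶠ s : ℝ in 𝓝[<] y, dist (f (s : TT)) (rlim f x) ≤ ε / 2 :=
    (hy.filter_mono nhdsWithin_le_nhds).mono fun s hs => hs.le
  have h3 := le_of_tendsto ((hf.tendsto_l y).dist tendsto_const_nhds) h2
  linarith

theorem PC.rl {f : TT → ℂ} (hf : PC f) (x : ℝ) :
    Tendsto (fun s : ℝ => rlim f (↑s : TT)) (𝓝[<] x) (𝓝 (llim f x)) := by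
  rw [Metric.tendsto_nhds]
  intro ε hε
  have h1 := (Metric.tendsto_nhds.1 (hf.tendsto_l x)) (ε / 2) (half_pos hε)
  filter_upwards [ev_ev_left h1] with y hy
  have h2 : ∀ᶠ s : ℝ in 𝓝[>] y, dist (f (s : TT)) (llim f x) ≤ ε / 2 :=
    (hy.filter_mono nhdsWithin_le_nhds).mono fun s hs => hs.le
  have h3 := le_of_tendsto ((hf.tendsto_r y).dist tendsto_const_nhds) h2
  linarith

theorem PC.ll {f : TT → ℂ} (hf : PC f) (x : ℝ) :
    Tendsto (fun s : ℝ => llim f (↑s : TT)) (𝓝[<] x) (𝓝 (llim f x)) := by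
  rw [Metric.tendsto_nhds]
  intro ε hε
  have h1 := (Metric.tendsto_nhds.1 (hf.tendsto_l x)) (ε / 2) (half_pos hε)
  filter_upwards [ev_ev_left h1] with y hy
  have h2 : ∀ᶠ s : ℝ in 𝓝[<] y, dist (f (s : TT)) (llim f x) ≤ ε / 2 :=
    (hy.filter_mono nhdsWithin_le_nhds).mono fun s hs => hs.le
  have h3 := le_of_tendsto ((hf.tendsto_l y).dist tendsto_const_nhds) h2
  linarith

theorem PC.rlim_pc {f : TT → ℂ} (hf : PC f) : PC (rlim f) :=
  fun x => ⟨⟨_, hf.rl x⟩, ⟨_, hf.rr x⟩⟩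

theorem PC.conj {f : TT → ℂ} (hf : PC f) : PC (fun x => conj (f x)) :=
  fun x => ⟨⟨_, (Complex.continuous_conj.tendsto _).comp (hf.tendsto_l x)⟩,
    ⟨_, (Complex.continuous_conj.tendsto _).comp (hf.tendsto_r x)⟩⟩

theorem PC.mul {f g : TT → ℂ} (hf : PC f) (hg : PC g) : PC (fun x => f x * g x) :=
  fun x => ⟨⟨_, (hf.tendsto_l x).mul (hg.tendsto_l x)⟩, ⟨_, (hf.tendsto_r x).mul (hg.tendsto_r x)⟩⟩

theorem PC.add {f g : TT → ℂ} (hf : PC f) (hg : PC g) : PC (fun x => f x + g x) :=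
  fun x => ⟨⟨_, (hf.tendsto_l x).add (hg.tendsto_l x)⟩, ⟨_, (hf.tendsto_r x).add (hg.tendsto_r x)⟩⟩

theorem PC.sub {f g : TT → ℂ} (hf : PC f) (hg : PC g) : PC (fun x => f x - g x) :=
  fun x => ⟨⟨_, (hf.tendsto_l x).sub (hg.tendsto_l x)⟩, ⟨_, (hf.tendsto_r x).sub (hg.tendsto_r x)⟩⟩

theorem tendsto_coe (x : ℝ) (s : Set ℝ) : Tendsto (fun y : ℝ => (y : TT)) (𝓝[s] x) (𝓝 (x : TT)) :=
  ((AddCircle.continuous_mk' (1:ℝ)).tendsto x).mono_left nhdsWithin_le_nhds

theorem PC.of_continuous {f : TT → ℂ} (hf : Continuous f) : PC f :=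
  fun x => ⟨⟨_, (hf.tendsto _).comp (tendsto_coe x _)⟩, ⟨_, (hf.tendsto _).comp (tendsto_coe x _)⟩⟩

theorem rlim_eq {f : TT → ℂ} (hf : PC f) {x : ℝ} {r : ℂ}
    (h : Tendsto (fun s : ℝ => f (↑s : TT)) (𝓝[>] x) (𝓝 r)) : rlim f x = r :=
  tendsto_nhds_unique (hf.tendsto_r x) h

theorem llim_eq {f : TT → ℂ} (hf : PC f) {x : ℝ} {r : ℂ}
    (h : Tendsto (fun s : ℝ => f (↑s : TT)) (𝓝[<] x) (𝓝 r)) : llim f x = r :=
  tendsto_nhds_unique (hf.tendsto_l x) h

theorem coe_surj (t : TT) : ∃ x : ℝ, (x : TT) = t := QuotientAddGroup.mk_surjective t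

/-- compactness induction for bounds -/
theorem PC.bounded {f : TT → ℂ} (hf : PC f) : ∃ C : ℝ, 0 < C ∧ ∀ t, ‖f t‖ ≤ C := by
  have key : ∃ C : ℝ, ∀ t ∈ (univ : Set TT), ‖f t‖ ≤ C := by
    refine IsCompact.induction_on (p := fun s => ∃ C : ℝ, ∀ t ∈ s, ‖f t‖ ≤ C) isCompact_univ
      ⟨0, by simp⟩ (fun s t hst ⟨C, hC⟩ => ⟨C, fun x hx => hC x (hst hx)⟩)
      (fun s t ⟨C, hC⟩ ⟨D, hD⟩ => ⟨max C D, fun x hx => ?_⟩) ?_
    · rcases hx with hx | hx
      · exact (hC x hx).trans (le_max_left _ _)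
      · exact (hD x hx).trans (le_max_right _ _)
    · intro t _
      obtain ⟨x, rfl⟩ := coe_surj t
      obtain ⟨⟨l, hl⟩, ⟨r, hr⟩⟩ := hf x
      have e1 := hl.norm.eventually_lt_const (show ‖l‖ < ‖l‖ + ‖r‖ + ‖f x‖ + 1 by
        have := norm_nonneg r; have := norm_nonneg (f x); linarith)
      have e2 := hr.norm.eventually_lt_const (show ‖r‖ < ‖l‖ + ‖r‖ + ‖f x‖ + 1 by
        have := norm_nonneg l; have := norm_nonneg (f x); linarith)
      have e3 := nhds_of_sides (p := fun t => ‖f t‖ < ‖l‖ + ‖r‖ + ‖f x‖ + 1) e1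
        (by have := norm_nonneg r; have := norm_nonneg l; linarith) e2
      refine ⟨_, mem_nhdsWithin_of_mem_nhds e3, _, fun t ht => le_of_lt ht⟩
  obtain ⟨C, hC⟩ := key
  exact ⟨max C 1, by positivity, fun t => (hC t (mem_univ t)).trans (le_max_left _ _)⟩

/-- uniform positive lower bounds -/
theorem pos_bound {g : TT → ℝ} (h : ∀ x : ℝ, 0 < g x ∧
    (∃ l, 0 < l ∧ Tendsto (fun s : ℝ => g (s : TT)) (𝓝[<] x) (𝓝 l)) ∧
    (∃ l, 0 < l ∧ Tendsto (fun s : ℝ => g (s : TT)) (𝓝[>] x) (𝓝 l))) :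
    ∃ η : ℝ, 0 < η ∧ ∀ t, η ≤ g t := by
  have key : ∃ η : ℝ, 0 < η ∧ ∀ t ∈ (univ : Set TT), η ≤ g t := by
    refine IsCompact.induction_on (p := fun s => ∃ η : ℝ, 0 < η ∧ ∀ t ∈ s, η ≤ g t) isCompact_univ
      ⟨1, by simp⟩ (fun s t hst ⟨C, hC0, hC⟩ => ⟨C, hC0, fun x hx => hC x (hst hx)⟩)
      (fun s t ⟨C, hC0, hC⟩ ⟨D, hD0, hD⟩ => ⟨min C D, lt_min hC0 hD0, fun x hx => ?_⟩) ?_
    · rcases hx with hx | hx
      · exact (min_le_left _ _).trans (hC x hx)
      · exact (min_le_right _ _).trans (hD x hx)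
    · intro t _
      obtain ⟨x, rfl⟩ := coe_surj t
      obtain ⟨h0, ⟨l, hl0, hl⟩, ⟨r, hr0, hr⟩⟩ := h x
      set η := min (g x) (min l r) / 2 with hη
      have hη0 : 0 < min (g x) (min l r) := lt_min h0 (lt_min hl0 hr0)
      have hηl : η < l := by
        have : min (g x) (min l r) ≤ l := (min_le_right _ _).trans (min_le_left _ _)
        linarith
      have hηr : η < r := by
        have : min (g x) (min l r) ≤ r := (min_le_right _ _).trans (min_le_right _ _)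
        linarith
      have hηx : η < g x := by
        have : min (g x) (min l r) ≤ g x := min_le_left _ _
        linarith
      have e1 := hl.eventually_const_lt hηl
      have e2 := hr.eventually_const_lt hηr
      have e3 := nhds_of_sides (p := fun t => η < g t) e1 hηx e2
      exact ⟨_, mem_nhdsWithin_of_mem_nhds e3, η, by positivity, fun t ht => le_of_lt ht⟩
  obtain ⟨C, hC0, hC⟩ := key
  exact ⟨C, hC0, fun t => hC t (mem_univ t)⟩

theorem PC.measurable {f : TT → ℂ} (hf : PC f) : Measurable f := by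
  have key : ∀ ε : ℝ, 0 < ε → ∃ u : Set TT, (univ : Set TT) ⊆ u ∧ MeasurableSet u ∧
      ∃ g : TT → ℂ, Measurable g ∧ ∀ t ∈ u, dist (g t) (f t) ≤ ε := by
    intro ε hε
    refine IsCompact.induction_on (p := fun s => ∃ u : Set TT, s ⊆ u ∧ MeasurableSet u ∧
      ∃ g : TT → ℂ, Measurable g ∧ ∀ t ∈ u, dist (g t) (f t) ≤ ε) isCompact_univ
      ⟨∅, by simp, by simp, 0, measurable_const, by simp⟩
      (fun s t hst ⟨u, hu, h⟩ => ⟨u, hst.trans hu, h⟩)
      (fun s t ⟨u, hu, hum, g, hg, hgu⟩ ⟨v, hv, hvm, g', hg', hgv⟩ => ?_) ?_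
    · classical
      refine ⟨u ∪ v, union_subset_union hu hv, hum.union hvm, u.piecewise g g',
        Measurable.piecewise hum hg hg', ?_⟩
      rintro t ht
      by_cases h : t ∈ u
      · rw [piecewise_eq_of_mem _ _ _ h]; exact hgu t h
      · rw [piecewise_eq_of_notMem _ _ _ h]
        rcases ht with ht | ht
        · exact absurd ht h
        · exact hgv t ht
    · classical
      intro t _
      obtain ⟨x, rfl⟩ := coe_surj t
      obtain ⟨⟨l, hl⟩, ⟨r, hr⟩⟩ := hf x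
      have e1 := (Metric.tendsto_nhds.1 hl) ε hε
      have e2 := (Metric.tendsto_nhds.1 hr) ε hε
      obtain ⟨a, ha, hal⟩ := mem_nhdsLT_iff_exists_Ioo_subset.1 e1
      obtain ⟨b, hb, hbr⟩ := mem_nhdsGT_iff_exists_Ioo_subset.1 e2
      have hopen : ∀ u : Set ℝ, IsOpen u → IsOpen ((fun s : ℝ => (s : TT)) '' u) := fun u hu =>
        QuotientAddGroup.isOpenMap_coe u hu
      set U : Set TT := (fun s : ℝ => (s : TT)) '' (Ioo a b) with hU
      set UL : Set TT := (fun s : ℝ => (s : TT)) '' (Ioo a x) with hUL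
      refine ⟨U, mem_nhdsWithin_of_mem_nhds ((hopen _ isOpen_Ioo).mem_nhds ⟨x, ⟨ha, hb⟩, rfl⟩),
        U, subset_rfl, (hopen _ isOpen_Ioo).measurableSet,
        UL.piecewise (fun _ => l) (({(x : TT)} : Set TT).piecewise (fun _ => f x) (fun _ => r)),
        Measurable.piecewise (hopen _ isOpen_Ioo).measurableSet measurable_const
          (Measurable.piecewise (measurableSet_singleton _) measurable_const measurable_const), ?_⟩
      rintro _ ⟨s, hs, rfl⟩
      by_cases h1 : (s : TT) ∈ UL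
      · rw [piecewise_eq_of_mem _ _ _ h1]
        obtain ⟨s', hs', he⟩ := h1
        have := hal hs'
        show dist _ (f (s : TT)) ≤ ε
        simp only at he
        rw [← he, dist_comm]
        exact le_of_lt this
      · rw [piecewise_eq_of_notMem _ _ _ h1]
        by_cases h2 : (s : TT) ∈ ({(x : TT)} : Set TT)
        · rw [piecewise_eq_of_mem _ _ _ h2]
          show dist _ (f (s : TT)) ≤ ε
          rw [mem_singleton_iff.1 h2, dist_self]
          exact hε.le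
        · rw [piecewise_eq_of_notMem _ _ _ h2]
          have hxs : x < s := by
            rcases lt_trichotomy s x with h | h | h
            · exact absurd ⟨s, ⟨hs.1, h⟩, rfl⟩ h1
            · rw [h] at h2; simp at h2
            · exact h
          have := hbr ⟨hxs, hs.2⟩
          show dist _ (f (s : TT)) ≤ ε
          rw [dist_comm]
          exact le_of_lt this
  choose u hu hum g hg hgu using fun n : ℕ => key (1 / ((n : ℝ) + 1)) (by positivity)
  refine measurable_of_tendsto_metrizable hg ?_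
  rw [tendsto_pi_nhds]
  intro t
  rw [tendsto_iff_dist_tendsto_zero]
  refine squeeze_zero (fun _ => dist_nonneg) (fun n => hgu n t (hu n (mem_univ t))) ?_
  exact tendsto_one_div_add_atTop_nhds_zero_nat

theorem vol_eq : (volume : Measure TT) = hm := by
  rw [AddCircle.volume_eq_smul_haarAddCircle]; simp

theorem meas_single (t : TT) : hm {t} = 0 := by
  rw [← vol_eq]
  rw [← (AddCircle.measurePreserving_mk (1:ℝ) 0).measure_preimage
    (measurableSet_singleton t).nullMeasurableSet]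
  apply Set.Countable.measure_zero
  obtain ⟨x, rfl⟩ := QuotientAddGroup.mk_surjective t
  have : (QuotientAddGroup.mk : ℝ → AddCircle (1:ℝ)) ⁻¹' {QuotientAddGroup.mk x} ⊆
      Set.range (fun n : ℤ => x + n) := by
    intro y hy
    have h1 : (QuotientAddGroup.mk y : AddCircle (1:ℝ)) = QuotientAddGroup.mk x := hy
    rw [QuotientAddGroup.eq] at h1
    obtain ⟨n, hn⟩ := AddSubgroup.mem_zmultiples_iff.1 h1
    refine ⟨-n, ?_⟩
    simp at hn
    simp
    linarith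
  exact (Set.countable_range _).mono this

theorem PC.ae_eq_rlim {f : TT → ℂ} (hf : PC f) : f =ᵐ[hm] rlim f := by
  have h1 : ∀ n : ℕ, hm {t | 1 / ((n : ℝ) + 1) < dist (f t) (rlim f t)} = 0 := by
    intro n
    apply measure_null_of_locally_null
    intro t _
    refine ⟨{t}, ?_, meas_single _⟩
    obtain ⟨x, rfl⟩ := coe_surj t
    have hpos : (0:ℝ) < 1 / ((n : ℝ) + 1) := by positivity
    have e1 : ∀ᶠ s : ℝ in 𝓝[<] x, dist (f s) (rlim f s) < 1 / ((n : ℝ) + 1) := by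
      have := (hf.tendsto_l x).dist (hf.rl x)
      rw [dist_self] at this
      exact this.eventually_lt_const hpos
    have e2 : ∀ᶠ s : ℝ in 𝓝[>] x, dist (f s) (rlim f s) < 1 / ((n : ℝ) + 1) := by
      have := (hf.tendsto_r x).dist (hf.rr x)
      rw [dist_self] at this
      exact this.eventually_lt_const hpos
    have e3 := nhds_of_sides (p := fun t => dist (f t) (rlim f t) < 1 / ((n : ℝ) + 1) ∨ t = (x : TT))
      (e1.mono fun _ h => Or.inl h) (Or.inr rfl) (e2.mono fun _ h => Or.inl h)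
    rw [mem_nhdsWithin_iff_eventually]
    filter_upwards [e3] with t ht ht2
    rcases ht with ht | ht
    · exact absurd ht (not_lt.2 (le_of_lt ht2))
    · exact ht
  have h2 : {t | f t ≠ rlim f t} ⊆ ⋃ n : ℕ, {t | 1 / ((n : ℝ) + 1) < dist (f t) (rlim f t)} := by
    intro t ht
    obtain ⟨n, hn⟩ := exists_nat_one_div_lt (dist_pos.2 ht)
    exact mem_iUnion.2 ⟨n, hn⟩
  rw [Filter.EventuallyEq, ae_iff]
  exact measure_mono_null h2 (measure_iUnion_null h1)

end Pool.Agent.H798R2.SE
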