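import Pool.Agent.H798R2.SE.PC
import Pool.Agent.H798R2.SE.Cpt
import Pool.Agent.H798R2.SE.Alg
set_option autoImplicit false
open MeasureTheory Filter Topology Set
open scoped ComplexConjugate

namespace Pool.Agent.H798R2.SE

/-- condition (3), in terms of `c = a + b`, `d = a - b` -/
def Cond3 (c d : TT → ℂ) : Prop :=
  ∀ x : ℝ, ∀ μ ν : ℝ, 0 ≤ μ → μ ≤ 1 → 0 ≤ ν → ν ≤ 1 →
    (rlim c x * llim d x * (μ : ℂ) + llim c x * rlim d x * (1 - (μ : ℂ))) * (ν : ℂ) +
      rlim d x * llim d x * (1 - (ν : ℂ)) ≠ 0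

/-- the admissible set for the selection -/
def selSet (c d : TT → ℂ) (t : TT) : Set ℂ := {ω : ℂ | 0 < ω.re ∧
      0 < (ω * (rlim c t * conj (rlim d t))).re ∧ 0 < (ω * (llim c t * conj (llim d t))).re}

theorem exists_omega {c d : TT → ℂ} (hc : PC c) (hd : PC d) (h : Cond3 c d) :
    ∃ ω : C(TT, ℂ), ∀ x : ℝ, 0 < (ω x).re ∧ 0 < (ω x * (rlim c x * conj (rlim d x))).re ∧
      0 < (ω x * (llim c x * conj (llim d x))).re := by
  have key : ∃ g : C(TT, ℂ), ∀ t, g t ∈ selSet c d t := by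
    apply exists_continuous_forall_mem_convex_of_local_const
    · intro t
      have hhalf : ∀ z : ℂ, Convex ℝ {ω : ℂ | 0 < (ω * z).re} := by
        intro z
        have := convex_halfSpace_gt (𝕜 := ℝ) (f := fun ω : ℂ => (ω * z).re)
          ⟨fun x y => by simp [add_mul], fun r x => by simp; ring⟩ (r := 0)
        exact this
      have h1 := hhalf 1
      simp only [mul_one] at h1
      exact h1.inter ((hhalf _).inter (hhalf _))
    · intro t
      obtain ⟨x, rfl⟩ := coe_surj t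
      obtain ⟨ω, h1, h2, h3⟩ := alg_sep (rlim c x) (llim c x) (rlim d x) (llim d x) (h x)
      refine ⟨ω, ?_⟩
      refine nhds_of_sides (p := fun t => ω ∈ selSet c d t) ?_ ⟨h1, h2, h3⟩ ?_
      · have e1 := (Complex.continuous_re.tendsto _).comp ((tendsto_const_nhds (x := ω)).mul
          ((hc.rl x).mul ((Complex.continuous_conj.tendsto _).comp (hd.rl x))))
        have e2 := (Complex.continuous_re.tendsto _).comp ((tendsto_const_nhds (x := ω)).mul
          ((hc.ll x).mul ((Complex.continuous_conj.tendsto _).comp (hd.ll x))))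
        filter_upwards [e1.eventually_const_lt h3, e2.eventually_const_lt h3] with s i1 i2
        exact ⟨h1, i1, i2⟩
      · have e1 := (Complex.continuous_re.tendsto _).comp ((tendsto_const_nhds (x := ω)).mul
          ((hc.rr x).mul ((Complex.continuous_conj.tendsto _).comp (hd.rr x))))
        have e2 := (Complex.continuous_re.tendsto _).comp ((tendsto_const_nhds (x := ω)).mul
          ((hc.lr x).mul ((Complex.continuous_conj.tendsto _).comp (hd.lr x))))
        filter_upwards [e1.eventually_const_lt h2, e2.eventually_const_lt h2] with s i1 i2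
        exact ⟨h1, i1, i2⟩
  obtain ⟨g, hg⟩ := key
  exact ⟨g, fun x => hg x⟩

theorem exists_omega' {c d : TT → ℂ} (hc : PC c) (hd : PC d) (h : Cond3 c d) :
    ∃ ω : C(TT, ℂ), ∃ η : ℝ, 0 < η ∧ ∀ t, η ≤ (ω t).re ∧
      η ≤ (ω t * (rlim c t * conj (rlim d t))).re := by
  obtain ⟨ω, hω⟩ := exists_omega hc hd h
  obtain ⟨η1, h10, h1⟩ := pos_bound (g := fun t => (ω t).re) (by
    intro x
    have hcont : Continuous fun t => (ω t).re := Complex.continuous_re.comp ω.continuous
    exact ⟨(hω x).1, ⟨_, (hω x).1, (hcont.tendsto _).comp (tendsto_coe x _)⟩,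
      ⟨_, (hω x).1, (hcont.tendsto _).comp (tendsto_coe x _)⟩⟩)
  obtain ⟨η2, h20, h2⟩ := pos_bound (g := fun t => (ω t * (rlim c t * conj (rlim d t))).re) (by
    intro x
    have e0 := fun S => (ω.continuous.tendsto _).comp (tendsto_coe x S)
    refine ⟨(hω x).2.1, ⟨_, (hω x).2.2, ?_⟩, ⟨_, (hω x).2.1, ?_⟩⟩
    · exact (Complex.continuous_re.tendsto _).comp ((e0 _).mul
          ((hc.rl x).mul ((Complex.continuous_conj.tendsto _).comp (hd.rl x))))
    · exact (Complex.continuous_re.tendsto _).comp ((e0 _).mul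
          ((hc.rr x).mul ((Complex.continuous_conj.tendsto _).comp (hd.rr x)))))
  exact ⟨ω, min η1 η2, lt_min h10 h20, fun t => ⟨(min_le_left _ _).trans (h1 t),
    (min_le_right _ _).trans (h2 t)⟩⟩

/-- pointwise positivity of a quadratic form -/
theorem quad {r q B D0 : ℝ} {z f g : ℂ} (hr : 0 ≤ r) (hq : 0 ≤ q) (hB : r + q ≤ B) (hB0 : 0 < B)
    (hD : 0 < D0) (hdet : ‖z‖ ^ 2 + 4 * D0 ≤ 4 * (r * q)) :
    D0 / B * (‖f‖ ^ 2 + ‖g‖ ^ 2) ≤ r * ‖f‖ ^ 2 + q * ‖g‖ ^ 2 + (z * (f * conj g)).re := by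
  set k := D0 / B with hk
  have hkB : k * B = D0 := by rw [hk]; field_simp
  have hk0 : 0 < k := by positivity
  have hz : 0 ≤ ‖z‖ ^ 2 := by positivity
  have hkr : k ≤ r := by
    by_contra hcon
    push Not at hcon
    have : r * q ≤ r * B := mul_le_mul_of_nonneg_left (by linarith) hr
    have : r * B < k * B := mul_lt_mul_of_pos_right hcon hB0
    linarith
  have hkq : k ≤ q := by
    by_contra hcon
    push Not at hcon
    have : r * q ≤ B * q := mul_le_mul_of_nonneg_right (by linarith) hq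
    have : B * q < B * k := mul_lt_mul_of_pos_left hcon hB0
    linarith
  have hprod : ‖z‖ ^ 2 ≤ 4 * ((r - k) * (q - k)) := by
    have : k * (r + q) ≤ k * B := mul_le_mul_of_nonneg_left hB hk0.le
    nlinarith [sq_nonneg k]
  have hre : -(‖z‖ * (‖f‖ * ‖g‖)) ≤ (z * (f * conj g)).re := by
    have h1 := Complex.abs_re_le_norm (z * (f * conj g))
    rw [norm_mul, norm_mul, RCLike.norm_conj] at h1
    exact (abs_le.1 h1).1
  set a := Real.sqrt (r - k) with ha
  set b := Real.sqrt (q - k) with hb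
  have ha2 : a ^ 2 = r - k := Real.sq_sqrt (by linarith)
  have hb2 : b ^ 2 = q - k := Real.sq_sqrt (by linarith)
  have hab : ‖z‖ ≤ 2 * (a * b) := by
    apply le_of_sq_le_sq _ (by positivity)
    calc ‖z‖ ^ 2 ≤ 4 * ((r - k) * (q - k)) := hprod
      _ = (2 * (a * b)) ^ 2 := by rw [← ha2, ← hb2]; ring
  have h2 : ‖z‖ * (‖f‖ * ‖g‖) ≤ 2 * (a * b) * (‖f‖ * ‖g‖) :=
    mul_le_mul_of_nonneg_right hab (by positivity)
  have h3 := sq_nonneg (a * ‖f‖ - b * ‖g‖)
  have h4 : (a * ‖f‖ - b * ‖g‖) ^ 2 = (r - k) * ‖f‖ ^ 2 + (q - k) * ‖g‖ ^ 2 -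
      2 * (a * b) * (‖f‖ * ‖g‖) := by rw [← ha2, ← hb2]; ring
  linarith

end Pool.Agent.H798R2.SE
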