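import Pool.Agent.H798R2.SE.Ker
set_option autoImplicit false
open MeasureTheory Filter Topology Set
open scoped ComplexConjugate

namespace Pool.Agent.H798R2.SE

noncomputable def ww (x : TT) : ℂ := 1 - fourier (T := (1:ℝ)) 1 x

theorem continuous_ww : Continuous ww := by unfold ww; fun_prop

theorem ww_coe (y : ℝ) : ww (y : TT) = 1 - Complex.exp (2 * Real.pi * Complex.I * y) := by
  unfold ww
  rw [fourier_coe_apply]
  congr 2
  push_cast
  ring

theorem ww_coe' (y : ℝ) : ww (y : TT) = ((2 * Real.sin (Real.pi * y) : ℝ) : ℂ) *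
    (Complex.cos ((Real.pi * y - Real.pi / 2 : ℝ) : ℂ) +
      Complex.sin ((Real.pi * y - Real.pi / 2 : ℝ) : ℂ) * Complex.I) := by
  rw [ww_coe]
  have e1 : 2 * Real.pi * Complex.I * y = ((2 * (Real.pi * y) : ℝ) : ℂ) * Complex.I := by
    push_cast; ring
  rw [e1, Complex.exp_mul_I, ← Complex.ofReal_cos, ← Complex.ofReal_sin, ← Complex.ofReal_cos,
    ← Complex.ofReal_sin, Real.cos_two_mul, Real.sin_two_mul, Real.cos_sub_pi_div_two,
    Real.sin_sub_pi_div_two]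
  have key : ∀ S C : ℝ, S ^ 2 + C ^ 2 = 1 →
      1 - (((2 * C ^ 2 - 1 : ℝ) : ℂ) + ((2 * S * C : ℝ) : ℂ) * Complex.I) =
      ((2 * S : ℝ) : ℂ) * (((S : ℝ) : ℂ) + ((-C : ℝ) : ℂ) * Complex.I) := by
    intro S C h
    have h2 : ((S : ℂ)) ^ 2 + (C : ℂ) ^ 2 = 1 := by exact_mod_cast h
    push_cast
    linear_combination (-2 : ℂ) * h2
  exact key _ _ (Real.sin_sq_add_cos_sq (Real.pi * y))

theorem norm_ww (y : ℝ) : ‖ww (y : TT)‖ = 2 * |Real.sin (Real.pi * y)| := by
  rw [ww_coe', ← Complex.exp_mul_I, norm_mul, Complex.norm_exp_ofReal_mul_I, mul_one,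
    Complex.norm_real, Real.norm_eq_abs, abs_mul]
  norm_num

theorem ww_neg (x : TT) : ww (-x) = conj (ww x) := by
  unfold ww
  rw [map_sub, map_one, ← fourier_neg]
  congr 1
  rw [fourier_apply, fourier_apply]
  congr 2
  simp

theorem norm_ww_neg (x : TT) : ‖ww (-x)‖ = ‖ww x‖ := by
  rw [ww_neg, RCLike.norm_conj]

theorem ww_pos {y : ℝ} (h0 : 0 < y) (h1 : y < 1) : 0 < 2 * Real.sin (Real.pi * y) := by
  have := Real.sin_pos_of_pos_of_lt_pi (x := Real.pi * y) (by positivity)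
    (by nlinarith [Real.pi_pos])
  linarith

theorem ww_ne {y : ℝ} (h0 : 0 < y) (h1 : y < 1) : ww (y : TT) ≠ 0 := by
  rw [← norm_pos_iff, norm_ww]
  have := ww_pos h0 h1
  rw [abs_of_pos (by linarith)]
  exact this

theorem arg_ww {y : ℝ} (h0 : 0 < y) (h1 : y < 1) :
    (ww (y : TT)).arg = Real.pi * y - Real.pi / 2 := by
  rw [ww_coe']
  apply Complex.arg_mul_cos_add_sin_mul_I (ww_pos h0 h1)
  constructor <;> nlinarith [Real.pi_pos]

theorem arg_ww_neg {y : ℝ} (h0 : 0 < y) (h1 : y < 1) :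
    (ww ((-y : ℝ) : TT)).arg = -(Real.pi * y - Real.pi / 2) := by
  rw [AddCircle.coe_neg, ww_neg, Complex.arg_conj, arg_ww h0 h1, if_neg]
  intro h
  nlinarith [Real.pi_pos]

noncomputable def FF (s : ℂ) (x : TT) : ℂ := (ww x) ^ s
noncomputable def GG (s : ℂ) (x : TT) : ℂ :=
  fourier (T := (1:ℝ)) (-1) x * conj ((ww x) ^ (conj s))

noncomputable def ee (s : ℂ) (x : TT) : ℂ := Complex.exp (s * Real.log ‖ww x‖)
noncomputable def phiF (s : ℂ) (x : TT) : ℂ := Complex.exp (Complex.I * (ww x).arg * s)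
noncomputable def phiG (s : ℂ) (x : TT) : ℂ :=
  fourier (T := (1:ℝ)) (-1) x * Complex.exp (-(Complex.I * (ww x).arg * s))

theorem FF_eq (s : ℂ) {x : TT} (hx : ww x ≠ 0) : FF s x = ee s x * phiF s x := by
  unfold FF ee phiF
  rw [Complex.cpow_def_of_ne_zero hx, ← Complex.exp_add]
  congr 1
  rw [Complex.log]
  ring

theorem GG_eq (s : ℂ) {x : TT} (hx : ww x ≠ 0) : GG s x = ee s x * phiG s x := by
  unfold GG ee phiG
  rw [Complex.cpow_def_of_ne_zero hx, ← Complex.exp_conj, Complex.log]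
  rw [← mul_assoc, mul_comm (Complex.exp (s * _)) (fourier (-1) x), mul_assoc, ← Complex.exp_add]
  congr 2
  simp only [map_mul, map_add, Complex.conj_ofReal, Complex.conj_I, Complex.conj_conj]
  ring

theorem norm_ee_sq (s : ℂ) {x : TT} (hx : ww x ≠ 0) : ‖ee s x‖ ^ 2 = ‖ww x‖ ^ (2 * s.re) := by
  have h0 : 0 < ‖ww x‖ := norm_pos_iff.2 hx
  unfold ee
  rw [Complex.norm_exp, Complex.re_mul_ofReal, ← Real.exp_nat_mul, Real.rpow_def_of_pos h0]
  congr 1
  push_cast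
  ring

noncomputable def kT (κ : ℝ) (x : TT) : ℝ := ‖ww x‖ ^ (-1 + 2 * κ)

theorem kT_coe {κ y : ℝ} (h0 : 0 < y) (h1 : y < 1) : kT κ (y : TT) = kk κ y := by
  unfold kT kk
  rw [norm_ww]
  have := ww_pos h0 h1
  rw [abs_of_pos (by linarith)]

theorem kT_neg (κ : ℝ) (x : TT) : kT κ (-x) = kT κ x := by
  unfold kT
  rw [norm_ww_neg]

theorem measurable_kT (κ : ℝ) : Measurable (kT κ) :=
  (continuous_ww.norm.measurable).pow_const _

theorem kT_nonneg (κ : ℝ) (x : TT) : 0 ≤ kT κ x := by unfold kT; positivity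

theorem ii_pos {κ : ℝ} (hκ0 : 0 < κ) (hκ1 : κ ≤ 1/2) :
    IntervalIntegrable (fun y : ℝ => kT κ (y : TT)) volume 0 (1/2) := by
  refine (kk_int hκ0 hκ1).congr ?_
  rw [uIoc_of_le (by norm_num)]
  intro y hy
  exact (kT_coe hy.1 (lt_of_le_of_lt hy.2 (by norm_num))).symm

theorem ii_neg {κ : ℝ} (hκ0 : 0 < κ) (hκ1 : κ ≤ 1/2) :
    IntervalIntegrable (fun y : ℝ => kT κ (y : TT)) volume (-(1/2)) 0 := by
  have h := ((IntervalIntegrable.iff_comp_neg (by simp)).1 (ii_pos hκ0 hκ1)).symm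
  rw [neg_zero] at h
  refine h.congr ?_
  intro y _
  show kT κ ((-y : ℝ) : TT) = kT κ (y : TT)
  rw [AddCircle.coe_neg, kT_neg]

theorem kT_int {κ : ℝ} (hκ0 : 0 < κ) (hκ1 : κ ≤ 1/2) : Integrable (kT κ) hm := by
  rw [← vol_eq]
  have hmp := AddCircle.measurePreserving_mk (1:ℝ) (-(1/2))
  rw [← hmp.integrable_comp (measurable_kT κ).aestronglyMeasurable]
  have h := (ii_neg hκ0 hκ1).trans (ii_pos hκ0 hκ1)
  rw [intervalIntegrable_iff_integrableOn_Ioc_of_le (by norm_num)] at h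
  have e : (-(1/2) + 1 : ℝ) = 1/2 := by norm_num
  rw [e]
  exact h

/-- measurable bounded functions times kernel -/
theorem kTH_int {κ : ℝ} (hκ0 : 0 < κ) (hκ1 : κ ≤ 1/2) {H : TT → ℂ} (hH : Measurable H) {M : ℝ}
    (hM : ∀ x, ‖H x‖ ≤ M) : Integrable (fun x => (kT κ x : ℂ) * H x) hm := by
  refine ((kT_int hκ0 hκ1).const_mul M).mono
    ((Complex.measurable_ofReal.comp (measurable_kT κ)).mul hH).aestronglyMeasurable ?_
  refine Eventually.of_forall fun y => ?_
  rw [norm_mul, Complex.norm_real, norm_mul, mul_comm]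
  gcongr
  exact (hM y).trans (le_abs_self _)

theorem integral_split {κ : ℝ} (hκ0 : 0 < κ) (hκ1 : κ ≤ 1/2) {H : TT → ℂ} (hH : Measurable H)
    {M : ℝ} (hM : ∀ x, ‖H x‖ ≤ M) :
    ∫ x, (kT κ x : ℂ) * H x ∂hm = (∫ y in (0:ℝ)..(1/2), (kk κ y : ℂ) * H (y : TT)) +
      ∫ y in (0:ℝ)..(1/2), (kk κ y : ℂ) * H ((-y : ℝ) : TT) := by
  have hi := kTH_int hκ0 hκ1 hH hM
  have hi2 := hi
  rw [← vol_eq] at hi
  have hmp := AddCircle.measurePreserving_mk (1:ℝ) (-(1/2))
  rw [← hmp.integrable_comp hi.aestronglyMeasurable] at hi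
  have e : (-(1/2) + 1 : ℝ) = 1/2 := by norm_num
  rw [e] at hi
  have hii : IntervalIntegrable (fun y : ℝ => (kT κ (y : TT) : ℂ) * H (y : TT)) volume
      (-(1/2)) (1/2) := by
    rw [intervalIntegrable_iff_integrableOn_Ioc_of_le (by norm_num)]
    exact hi
  have h1 : IntervalIntegrable (fun y : ℝ => (kT κ (y : TT) : ℂ) * H (y : TT)) volume
      (-(1/2)) 0 := hii.mono_set (by
        rw [uIcc_of_le (by norm_num), uIcc_of_le (by norm_num)]
        exact Icc_subset_Icc_right (by norm_num))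
  have h2 : IntervalIntegrable (fun y : ℝ => (kT κ (y : TT) : ℂ) * H (y : TT)) volume
      0 (1/2) := hii.mono_set (by
        rw [uIcc_of_le (by norm_num), uIcc_of_le (by norm_num)]
        exact Icc_subset_Icc_left (by norm_num))
  have h3 := AddCircle.intervalIntegral_preimage (1:ℝ) (-(1/2)) (fun x => (kT κ x : ℂ) * H x)
  rw [e] at h3
  rw [← vol_eq, ← h3, ← intervalIntegral.integral_add_adjacent_intervals h1 h2, add_comm]
  congr 1
  · apply intervalIntegral.integral_congr_ae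
    rw [uIoc_of_le (by norm_num)]
    refine Eventually.of_forall fun y hy => ?_
    rw [kT_coe hy.1 (lt_of_le_of_lt hy.2 (by norm_num))]
  · have h4 := intervalIntegral.integral_comp_neg (a := 0) (b := 1/2)
      (fun y : ℝ => (kT κ (y : TT) : ℂ) * H (y : TT))
    rw [neg_zero] at h4
    rw [← h4]
    apply intervalIntegral.integral_congr_ae
    rw [uIoc_of_le (by norm_num)]
    refine Eventually.of_forall fun y hy => ?_
    have : kT κ ((-y : ℝ) : TT) = kk κ y := by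
      rw [AddCircle.coe_neg, kT_neg, kT_coe hy.1 (lt_of_le_of_lt hy.2 (by norm_num))]
    rw [this]

theorem measurable_FF (s : ℂ) : Measurable (FF s) :=
  (continuous_ww.measurable).pow_const _

theorem norm_FF_le (s : ℂ) {x : TT} (hx : ww x ≠ 0) :
    ‖FF s x‖ ≤ ‖ww x‖ ^ s.re * Real.exp (Real.pi * |s.im|) := by
  unfold FF
  rw [Complex.norm_cpow_of_ne_zero hx, div_eq_mul_inv, ← Real.exp_neg]
  gcongr
  calc -((ww x).arg * s.im) ≤ |(ww x).arg * s.im| := neg_le_abs _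
    _ = |(ww x).arg| * |s.im| := abs_mul _ _
    _ ≤ Real.pi * |s.im| := by gcongr; exact Complex.abs_arg_le_pi _

theorem ae_ww_ne : ∀ᵐ x ∂hm, ww x ≠ 0 := by
  have h : ∀ᵐ x ∂hm, x ≠ (0 : TT) := by
    rw [ae_iff]
    have : {a : TT | ¬ a ≠ 0} = {0} := by ext; simp
    rw [this]
    exact meas_single 0
  filter_upwards [h] with x hx h0
  obtain ⟨y, rfl⟩ := coe_surj x
  -- reduce to the representative in `[0, 1)`
  apply hx
  unfold ww at h0
  have h1 : fourier (T := (1:ℝ)) 1 (y : TT) = 1 := (sub_eq_zero.1 h0).symm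
  rw [fourier_coe_apply] at h1
  have h2 := Complex.exp_eq_one_iff.1 h1
  obtain ⟨n, hn⟩ := h2
  have h3 : (y : ℂ) = n := by
    have hpi : (2 * Real.pi * Complex.I : ℂ) ≠ 0 := by
      simp [Real.pi_ne_zero]
    apply mul_left_cancel₀ hpi
    rw [show (2 * Real.pi * Complex.I : ℂ) * y = 2 * Real.pi * Complex.I * ((1:ℤ) : ℂ) * y / ((1:ℝ) : ℂ) by
      push_cast; ring, hn]
    ring
  have h4 : y = n := by exact_mod_cast h3
  rw [h4]
  have : ((n : ℝ) : TT) = ((n • (1:ℝ) : ℝ) : TT) := by simp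
  rw [this, AddCircle.coe_zsmul, AddCircle.coe_period, smul_zero]

theorem FF_int {s : ℂ} (hs : -1 < s.re) (hs2 : s.re ≤ 0) : Integrable (FF s) hm := by
  have h1 := kT_int (κ := (1 + s.re) / 2) (by linarith) (by linarith)
  refine (h1.const_mul (Real.exp (Real.pi * |s.im|))).mono (measurable_FF s).aestronglyMeasurable ?_
  filter_upwards [ae_ww_ne] with x hx
  refine (norm_FF_le s hx).trans ?_
  rw [Real.norm_of_nonneg (mul_nonneg (Real.exp_pos _).le (kT_nonneg _ _)), mul_comm]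
  unfold kT
  have : -1 + 2 * ((1 + s.re) / 2) = s.re := by ring
  rw [this]

theorem FF_memLp {s : ℂ} (hs : -1/2 < s.re) (hs2 : s.re ≤ 0) : MemLp (FF s) 2 hm := by
  rw [memLp_two_iff_integrable_sq_norm (measurable_FF s).aestronglyMeasurable]
  have h1 := kT_int (κ := (1 + 2 * s.re) / 2) (by linarith) (by linarith)
  refine (h1.const_mul (Real.exp (Real.pi * |s.im|) ^ 2)).mono
    ((measurable_FF s).norm.pow_const 2).aestronglyMeasurable ?_
  filter_upwards [ae_ww_ne] with x hx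
  have h2 := norm_FF_le s hx
  have h3 : 0 < ‖ww x‖ := norm_pos_iff.2 hx
  have h4 : 0 ≤ Real.exp (Real.pi * |s.im|) ^ 2 * kT ((1 + 2 * s.re) / 2) x :=
    mul_nonneg (by positivity) (kT_nonneg _ _)
  rw [Real.norm_of_nonneg (by positivity), Real.norm_of_nonneg h4]
  unfold kT
  calc ‖FF s x‖ ^ 2 ≤ (‖ww x‖ ^ s.re * Real.exp (Real.pi * |s.im|)) ^ 2 := by gcongr
    _ = Real.exp (Real.pi * |s.im|) ^ 2 * ‖ww x‖ ^ (-1 + 2 * ((1 + 2 * s.re) / 2)) := by
      rw [mul_pow, ← Real.rpow_natCast (‖ww x‖ ^ s.re) 2, ← Real.rpow_mul h3.le, mul_comm]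
      congr 2
      push_cast
      ring

end Pool.Agent.H798R2.SE
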